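import Pool.Agent.helper67.DL.SpecX

/-! # Project dl (MP_4caea3_gt), stage 2 (existence of the harmonic metrics over the explicit surface): definitions

Everything happens on the Riemann sphere with the two coordinates `z = ζ` (index `false`) and `z = ν = 1/ζ` (index `true`); all
formulas are the same in both charts.  `Dk` is the closed unit disc of either chart; the two discs cover the sphere.
The weight is `W = κ/|1 - z⁸|` (`κ = a²`).  Metrics compatible with the symmetric form are `H = U^* diag(e^L, 1, e^{-L}) U`,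
`U = [[1, b, -b²/2], [0, 1, -b], [0, 0, 1]]`. -/

namespace Pool.Agent.DL

open Matrix Complex MeasureTheory Set Filter Topology
open scoped ComplexOrder Manifold ContDiff ComplexConjugate

noncomputable section

/-- The closed unit disc. -/
abbrev Dk : Set ℂ := Metric.closedBall (0 : ℂ) 1

/-- The plane without the eighth roots of unity. -/
def Ns : Set ℂ := {z | z ^ 8 ≠ 1}

/-- Radial retraction of the plane on the closed unit disc. -/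
def pr (z : ℂ) : Dk := ⟨z / ((max 1 ‖z‖ : ℝ) : ℂ), by
  have h : 0 < max 1 ‖z‖ := lt_of_lt_of_le one_pos (le_max_left _ _)
  rw [Metric.mem_closedBall, dist_zero_right, norm_div, Complex.norm_real, Real.norm_of_nonneg h.le]
  exact (div_le_one h).2 (le_max_right _ _)⟩

/-- The weight. -/
def Wt (κ : ℝ) (z : ℂ) : ℝ := κ / ‖1 - z ^ 8‖

/-- `|1 - z⁸|^{1/4}`. -/
def mt (z : ℂ) : ℝ := ‖1 - z ^ 8‖ ^ (1 / 4 : ℝ)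

/-- Coordinate near a root: `ζ = d (M (y²))^{1/4}`, `1 - ζ⁸ = (2y/(1+y²))²`. -/
def psi (d y : ℂ) : ℂ := d * r4 (mm (y ^ 2))

/-- The weight in this coordinate: `Wr κ y = Wt κ (psi d y) |psi'|²`. -/
def Wr (κ : ℝ) (y : ℂ) : ℝ := κ * ‖r4 (mm (y ^ 2))‖ ^ 2 / (4 * ‖1 - y ^ 2‖ ^ 2)

/-! ### Integral operators -/

/-- Cauchy transform over a set: `(1/π) ∫_S φ(ξ)/(z-ξ)`. -/
def TC (φ : ℂ → ℂ) (S : Set ℂ) (z : ℂ) : ℂ := (1 / (Real.pi : ℂ)) * ∫ ξ in S, φ ξ / (z - ξ)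

/-- Logarithmic potential over a set: `(2/π) ∫_S log|z-ξ| F(ξ)`. -/
def TL (F : ℂ → ℝ) (S : Set ℂ) (z : ℂ) : ℝ := (2 / Real.pi) * ∫ ξ in S, Real.log ‖z - ξ‖ * F ξ

/-- Solution operator for `∂̄b = β`, `b_j(z) = z² b_{!j}(1/z)`. -/
def TB (β : Bool → ℂ → ℂ) (j : Bool) (z : ℂ) : ℂ :=
  (1 / (Real.pi : ℂ)) * ((∫ ξ in Dk, β j ξ / (z - ξ)) + z ^ 3 * ∫ ξ in Dk, β (!j) ξ / (1 - z * ξ))

/-- Solution operator for `∂̄g = φ`, `g_j(z) = -z⁻⁴ g_{!j}(1/z)`. -/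
def TG (φ : Bool → ℂ → ℂ) (j : Bool) (z : ℂ) : ℂ :=
  (1 / (Real.pi : ℂ)) * ((∫ ξ in Dk, φ j ξ / (z - ξ)) - ∫ ξ in Dk, ξ ^ 3 * φ (!j) ξ / (1 - z * ξ))

/-- Solution operator for `∂∂̄u = F`, `u_j(z) = u_{!j}(1/z)`. -/
def TU (F : Bool → ℂ → ℝ) (j : Bool) (z : ℂ) : ℝ :=
  (2 / Real.pi) * ((∫ ξ in Dk, Real.log ‖z - ξ‖ * F j ξ) + ∫ ξ in Dk, Real.log ‖1 - z * ξ‖ * F (!j) ξ)

/-- The sections of `O(2)`. -/
def Pq (P : Fin 3 → ℂ) (j : Bool) (z : ℂ) : ℂ :=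
  bif j then P 2 + P 1 * z + P 0 * z ^ 2 else P 0 + P 1 * z + P 2 * z ^ 2

/-- Densities on the plane from densities on the two discs (for `TB`). -/
def exB (β : Bool → ℂ → ℂ) (j : Bool) (z : ℂ) : ℂ :=
  if ‖z‖ ≤ 1 then β j z else -z ^ 2 * (conj z)⁻¹ ^ 2 * β (!j) z⁻¹

/-- The same for `TG`. -/
def exG (φ : Bool → ℂ → ℂ) (j : Bool) (z : ℂ) : ℂ :=
  if ‖z‖ ≤ 1 then φ j z else z⁻¹ ^ 4 * (conj z)⁻¹ ^ 2 * φ (!j) z⁻¹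

/-- The same for `TU`. -/
def exF (F : Bool → ℂ → ℝ) (j : Bool) (z : ℂ) : ℝ :=
  if ‖z‖ ≤ 1 then F j z else ‖z‖⁻¹ ^ 4 * F (!j) z⁻¹

/-- `V = TC φ + holomorphic` on the ball. -/
def RepAt (V φ : ℂ → ℂ) (z₀ : ℂ) (ρ : ℝ) : Prop := IntegrableOn φ (Metric.ball z₀ ρ) ∧
  ∃ h : ℂ → ℂ, DifferentiableOn ℂ h (Metric.ball z₀ ρ) ∧ ∀ z ∈ Metric.ball z₀ ρ, V z = TC φ (Metric.ball z₀ ρ) z + h z

/-! ### The nonlinear terms -/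

/-- `x = p - (3/2) b²`. -/
def xx (p b : ℂ) : ℂ := p - 3 / 2 * b ^ 2

/-- `y = r + 2bp - b³`. -/
def yy (p r b : ℂ) : ℂ := r + 2 * b * p - b ^ 3

/-- `R = e^L |x|² + e^{2L} |y|² - e^{-L}`. -/
def RR (p r : ℂ) (L : ℝ) (b : ℂ) : ℝ :=
  Real.exp L * ‖xx p b‖ ^ 2 + Real.exp (2 * L) * ‖yy p r b‖ ^ 2 - Real.exp (-L)

/-- `Q = 3b - 3 e^L b̄ x + e^{2L} y x̄`. -/
def QQ (p r : ℂ) (L : ℝ) (b : ℂ) : ℂ :=
  3 * b - 3 * (Real.exp L : ℂ) * conj b * xx p b + (Real.exp (2 * L) : ℂ) * yy p r b * conj (xx p b)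

/-- Derivative of `RR` in the direction `(L', b')`. -/
def RR' (p r : ℂ) (L : ℝ) (b : ℂ) (L' : ℝ) (b' : ℂ) : ℝ :=
  Real.exp L * (L' * ‖xx p b‖ ^ 2 + 2 * (conj (xx p b) * (-3 * b * b')).re) +
  Real.exp (2 * L) * (2 * L' * ‖yy p r b‖ ^ 2 + 2 * (conj (yy p r b) * (2 * p * b' - 3 * b ^ 2 * b')).re) +
  Real.exp (-L) * L'

/-- Derivative of `QQ` in the direction `(L', b')`. -/
def QQ' (p r : ℂ) (L : ℝ) (b : ℂ) (L' : ℝ) (b' : ℂ) : ℂ :=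
  3 * b' - 3 * (Real.exp L : ℂ) * (L' * conj b * xx p b + conj b' * xx p b + conj b * (-3 * b * b')) +
  (Real.exp (2 * L) : ℂ) * (2 * L' * yy p r b * conj (xx p b) + (2 * p * b' - 3 * b ^ 2 * b') * conj (xx p b) +
    yy p r b * conj (-3 * b * b'))

/-- `|A|²`. -/
def fA (p r : ℂ) (L : ℝ) (b : ℂ) : ℝ :=
  6 * ‖b‖ ^ 2 + 2 * Real.exp (-L) + 2 * Real.exp L * ‖xx p b‖ ^ 2 + Real.exp (2 * L) * ‖yy p r b‖ ^ 2

/-- The Higgs field in symmetric form. -/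
def A3 (p r : ℂ) : Matrix (Fin 3) (Fin 3) ℂ := !![0, p, r; 1, 0, p; 0, 1, 0]

/-- The unipotent matrix. -/
def uu (b : ℂ) : Matrix (Fin 3) (Fin 3) ℂ := !![1, b, -(b ^ 2 / 2); 0, 1, -b; 0, 0, 1]

/-- The metric. -/
def H3 (L : ℝ) (b : ℂ) : Matrix (Fin 3) (Fin 3) ℂ :=
  (uu b)ᴴ * diagonal ![(Real.exp L : ℂ), 1, (Real.exp (-L) : ℂ)] * uu b

/-! ### The data and the fixed point equation -/

/-- Weight constant, coefficients of the Higgs field, a source term. -/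
structure Dat where
  κ : ℝ
  p : Bool → ℂ → ℂ
  r : Bool → ℂ → ℂ
  s : Bool → ℂ → ℝ

/-- Conditions on the data. -/
structure Dat.Valid (D : Dat) : Prop where
  hκ : 4 ≤ D.κ
  hp : ∀ j, Differentiable ℂ (D.p j)
  hr : ∀ j, Differentiable ℂ (D.r j)
  gp : ∀ j z, z ≠ 0 → D.p j z = z ^ 4 * D.p (!j) z⁻¹
  gr : ∀ j z, z ≠ 0 → D.r j z = z ^ 6 * D.r (!j) z⁻¹
  cs : ∀ j, Continuous (D.s j)
  gs : ∀ j z, z ≠ 0 → D.s j z = ‖z‖ ^ 4 * D.s (!j) z⁻¹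
  ss : ∀ j, ContDiffOn ℝ ∞ (D.s j) Ns
  sr : ∀ j d, d ^ 8 = 1 → ContDiffOn ℝ ∞ (fun y => D.s j (psi d y)) (Metric.ball 0 1)

/-- The homotopy of the rank three problem. -/
def Dat.sc (D : Dat) (τ : ℝ) : Dat := ⟨D.κ, fun j z => (τ : ℂ) ^ 2 * D.p j z, fun j z => (τ : ℂ) ^ 3 * D.r j z, D.s⟩

/-- The homotopy of the scalar problem. -/
def Dat.so (D : Dat) (σ : ℝ) : Dat := ⟨D.κ, D.p, D.r, fun j z => σ * D.s j z⟩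

/-- `L = u - 2 log(1+|z|²)`. -/
def Ls (u : ℂ → ℝ) (z : ℂ) : ℝ := u z - 2 * Real.log (1 + ‖z‖ ^ 2)

/-- `φ = W Q̄`, the density of `g = γ̄`, `γ = e^L ∂̄b`. -/
def phi (D : Dat) (u : Bool → ℂ → ℝ) (b : Bool → ℂ → ℂ) (j : Bool) (z : ℂ) : ℂ :=
  (Wt D.κ z : ℂ) * conj (QQ (D.p j z) (D.r j z) (Ls (u j) z) (b j z))

/-- `β = e^{-L} ḡ`, the density of `b`. -/
def bet (u : Bool → ℂ → ℝ) (g : Bool → ℂ → ℂ) (j : Bool) (z : ℂ) : ℂ :=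
  (Real.exp (-(Ls (u j) z)) : ℂ) * conj (g j z)

/-- The density of `u`. -/
def Fd (D : Dat) (u : Bool → ℂ → ℝ) (b g : Bool → ℂ → ℂ) (j : Bool) (z : ℂ) : ℝ :=
  Real.exp (-(Ls (u j) z)) * ‖g j z‖ ^ 2 + Wt D.κ z * (RR (D.p j z) (D.r j z) (Ls (u j) z) (b j z) + D.s j z) +
    2 / (1 + ‖z‖ ^ 2) ^ 2

/-- The fixed point equation (on the two discs). -/
structure Sol3 (D : Dat) (u : Bool → ℂ → ℝ) (b g : Bool → ℂ → ℂ) (c : ℝ) (P : Fin 3 → ℂ) : Prop where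
  cu : ∀ j, ContinuousOn (u j) Dk
  cb : ∀ j, ContinuousOn (b j) Dk
  eg : ∀ j, ∀ z ∈ Dk, z ^ 8 ≠ 1 → g j z = TG (phi D u b) j z
  eb : ∀ j, ∀ z ∈ Dk, b j z = TB (bet u g) j z + Pq P j z
  eu : ∀ j, ∀ z ∈ Dk, u j z = TU (Fd D u b g) j z + c
  mass : (∫ ξ in Dk, Fd D u b g false ξ) + ∫ ξ in Dk, Fd D u b g true ξ = 0
  mom : ∀ k : Fin 3, (∫ ξ in Dk, phi D u b false ξ * ξ ^ (k : ℕ)) + ∫ ξ in Dk, phi D u b true ξ * ξ ^ (2 - (k : ℕ)) = 0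

/-- Linearised densities. -/
def phi' (D : Dat) (u : Bool → ℂ → ℝ) (b : Bool → ℂ → ℂ) (u' : Bool → ℂ → ℝ) (b' : Bool → ℂ → ℂ) (j : Bool) (z : ℂ) : ℂ :=
  (Wt D.κ z : ℂ) * conj (QQ' (D.p j z) (D.r j z) (Ls (u j) z) (b j z) (u' j z) (b' j z))
@[inherit_doc phi'] def bet' (u : Bool → ℂ → ℝ) (g : Bool → ℂ → ℂ) (u' : Bool → ℂ → ℝ) (g' : Bool → ℂ → ℂ)
    (j : Bool) (z : ℂ) : ℂ := (Real.exp (-(Ls (u j) z)) : ℂ) * (conj (g' j z) - u' j z * conj (g j z))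
@[inherit_doc phi'] def Fd' (D : Dat) (u : Bool → ℂ → ℝ) (b g : Bool → ℂ → ℂ) (u' : Bool → ℂ → ℝ) (b' g' : Bool → ℂ → ℂ)
    (j : Bool) (z : ℂ) : ℝ := Real.exp (-(Ls (u j) z)) * (2 * (conj (g j z) * g' j z).re - u' j z * ‖g j z‖ ^ 2) +
  Wt D.κ z * RR' (D.p j z) (D.r j z) (Ls (u j) z) (b j z) (u' j z) (b' j z)

/-- The linearised fixed point equation. -/
structure Lin3 (D : Dat) (u : Bool → ℂ → ℝ) (b g : Bool → ℂ → ℂ) (u' : Bool → ℂ → ℝ) (b' g' : Bool → ℂ → ℂ)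
    (c' : ℝ) (P' : Fin 3 → ℂ) : Prop where
  cu : ∀ j, ContinuousOn (u' j) Dk
  cb : ∀ j, ContinuousOn (b' j) Dk
  eg : ∀ j, ∀ z ∈ Dk, z ^ 8 ≠ 1 → g' j z = TG (phi' D u b u' b') j z
  eb : ∀ j, ∀ z ∈ Dk, b' j z = TB (bet' u g u' g') j z + Pq P' j z
  eu : ∀ j, ∀ z ∈ Dk, u' j z = TU (Fd' D u b g u' b' g') j z + c'
  mass : (∫ ξ in Dk, Fd' D u b g u' b' g' false ξ) + ∫ ξ in Dk, Fd' D u b g u' b' g' true ξ = 0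
  mom : ∀ k : Fin 3, (∫ ξ in Dk, phi' D u b u' b' false ξ * ξ ^ (k : ℕ)) +
    ∫ ξ in Dk, phi' D u b u' b' true ξ * ξ ^ (2 - (k : ℕ)) = 0

/-! ### The equation on the whole plane, integral form -/

/-- Functions on the two planes, compatible on the sphere, with the integral representations in all discs. -/
structure GS (D : Dat) (u : Bool → ℂ → ℝ) (b g : Bool → ℂ → ℂ) : Prop where
  cu : ∀ j, Continuous (u j)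
  cb : ∀ j, Continuous (b j)
  cg : ∀ j, ContinuousOn (g j) Ns
  bg : ∀ R : ℝ, ∃ C : ℝ, ∀ j, ∀ z ∈ Metric.ball (0 : ℂ) R, z ^ 8 ≠ 1 → ‖g j z‖ ≤ C * (mt z)⁻¹
  gu : ∀ j z, z ≠ 0 → u j z = u (!j) z⁻¹
  gb : ∀ j z, z ≠ 0 → b j z = z ^ 2 * b (!j) z⁻¹
  gg : ∀ j z, z ≠ 0 → z ^ 8 ≠ 1 → g j z = -z⁻¹ ^ 4 * g (!j) z⁻¹
  rb : ∀ j (R : ℝ), 1 < R → IntegrableOn (bet u g j) (Metric.ball 0 R) ∧ ∃ h : ℂ → ℂ, DifferentiableOn ℂ h (Metric.ball 0 R) ∧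
    ∀ z ∈ Metric.ball (0 : ℂ) R, z ^ 8 ≠ 1 → b j z = TC (bet u g j) (Metric.ball 0 R) z + h z
  rg : ∀ j (R : ℝ), 1 < R → IntegrableOn (phi D u b j) (Metric.ball 0 R) ∧
    ∃ h : ℂ → ℂ, DifferentiableOn ℂ h (Metric.ball 0 R) ∧
    ∀ z ∈ Metric.ball (0 : ℂ) R, z ^ 8 ≠ 1 → g j z = TC (phi D u b j) (Metric.ball 0 R) z + h z
  ru : ∀ j (R : ℝ), 1 < R → IntegrableOn (Fd D u b g j) (Metric.ball 0 R) ∧
    ∃ h : ℂ → ℂ, DifferentiableOn ℂ h (Metric.ball 0 R) ∧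
    ∀ z ∈ Metric.ball (0 : ℂ) R, z ^ 8 ≠ 1 → u j z = TL (Fd D u b g j) (Metric.ball 0 R) z + (h z).re

/-- The same for the linearised equation. -/
structure GSL (D : Dat) (u : Bool → ℂ → ℝ) (b g : Bool → ℂ → ℂ) (u' : Bool → ℂ → ℝ) (b' g' : Bool → ℂ → ℂ) : Prop where
  cu : ∀ j, Continuous (u' j)
  cb : ∀ j, Continuous (b' j)
  cg : ∀ j, ContinuousOn (g' j) Ns
  bg : ∀ R : ℝ, ∃ C : ℝ, ∀ j, ∀ z ∈ Metric.ball (0 : ℂ) R, z ^ 8 ≠ 1 → ‖g' j z‖ ≤ C * (mt z)⁻¹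
  gu : ∀ j z, z ≠ 0 → u' j z = u' (!j) z⁻¹
  gb : ∀ j z, z ≠ 0 → b' j z = z ^ 2 * b' (!j) z⁻¹
  gg : ∀ j z, z ≠ 0 → z ^ 8 ≠ 1 → g' j z = -z⁻¹ ^ 4 * g' (!j) z⁻¹
  rb : ∀ j (R : ℝ), 1 < R → IntegrableOn (bet' u g u' g' j) (Metric.ball 0 R) ∧
    ∃ h : ℂ → ℂ, DifferentiableOn ℂ h (Metric.ball 0 R) ∧
    ∀ z ∈ Metric.ball (0 : ℂ) R, z ^ 8 ≠ 1 → b' j z = TC (bet' u g u' g' j) (Metric.ball 0 R) z + h z
  rg : ∀ j (R : ℝ), 1 < R → IntegrableOn (phi' D u b u' b' j) (Metric.ball 0 R) ∧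
    ∃ h : ℂ → ℂ, DifferentiableOn ℂ h (Metric.ball 0 R) ∧
    ∀ z ∈ Metric.ball (0 : ℂ) R, z ^ 8 ≠ 1 → g' j z = TC (phi' D u b u' b' j) (Metric.ball 0 R) z + h z
  ru : ∀ j (R : ℝ), 1 < R → IntegrableOn (Fd' D u b g u' b' g' j) (Metric.ball 0 R) ∧
    ∃ h : ℂ → ℂ, DifferentiableOn ℂ h (Metric.ball 0 R) ∧
    ∀ z ∈ Metric.ball (0 : ℂ) R, z ^ 8 ≠ 1 → u' j z = TL (Fd' D u b g u' b' g' j) (Metric.ball 0 R) z + (h z).re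

/-! ### The system of partial differential equations -/

/-- `lap L = e^L |∂̄b|² + W (R + s)`, `∂(e^L ∂̄b) = W Q`. -/
structure SY (Ω : Set ℂ) (W : ℂ → ℝ) (p r : ℂ → ℂ) (s L : ℂ → ℝ) (b : ℂ → ℂ) : Prop where
  sL : ContDiffOn ℝ 2 L Ω
  sb : ContDiffOn ℝ 2 b Ω
  e1 : ∀ z ∈ Ω, lap L z = Real.exp (L z) * ‖dzb b z‖ ^ 2 + W z * (RR (p z) (r z) (L z) (b z) + s z)
  e2 : ∀ z ∈ Ω, dz (fun w => (Real.exp (L w) : ℂ) * dzb b w) z = (W z : ℂ) * QQ (p z) (r z) (L z) (b z)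

/-- The linearised system. -/
structure LSY (Ω : Set ℂ) (W : ℂ → ℝ) (p r : ℂ → ℂ) (L : ℂ → ℝ) (b : ℂ → ℂ) (L' : ℂ → ℝ) (b' : ℂ → ℂ) : Prop where
  sL : ContDiffOn ℝ 2 L' Ω
  sb : ContDiffOn ℝ 2 b' Ω
  e1 : ∀ z ∈ Ω, lap L' z = Real.exp (L z) * (2 * (conj (dzb b z) * dzb b' z).re + L' z * ‖dzb b z‖ ^ 2) +
    W z * RR' (p z) (r z) (L z) (b z) (L' z) (b' z)
  e2 : ∀ z ∈ Ω, dz (fun w => (Real.exp (L w) : ℂ) * (dzb b' w + L' w * dzb b w)) z =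
    (W z : ℂ) * QQ' (p z) (r z) (L z) (b z) (L' z) (b' z)

/-- Smooth solution on the sphere (with the coordinates `psi d` at the roots). -/
structure PS3 (D : Dat) (L : Bool → ℂ → ℝ) (b : Bool → ℂ → ℂ) : Prop where
  cL : ∀ j, Continuous (L j)
  cb : ∀ j, Continuous (b j)
  gL : ∀ j z, z ≠ 0 → L j z = L (!j) z⁻¹ - 4 * Real.log ‖z‖
  gb : ∀ j z, z ≠ 0 → b j z = z ^ 2 * b (!j) z⁻¹
  sy : ∀ j, SY Ns (Wt D.κ) (D.p j) (D.r j) (D.s j) (L j) (b j)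
  ro : ∀ j d, d ^ 8 = 1 → SY (Metric.ball 0 1) (Wr D.κ) (fun y => D.p j (psi d y)) (fun y => D.r j (psi d y))
    (fun y => D.s j (psi d y)) (fun y => L j (psi d y)) (fun y => b j (psi d y))

/-- Smooth solution of the linearised equation. -/
structure LPS3 (D : Dat) (L : Bool → ℂ → ℝ) (b : Bool → ℂ → ℂ) (L' : Bool → ℂ → ℝ) (b' : Bool → ℂ → ℂ) : Prop where
  cL : ∀ j, Continuous (L' j)
  cb : ∀ j, Continuous (b' j)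
  gL : ∀ j z, z ≠ 0 → L' j z = L' (!j) z⁻¹
  gb : ∀ j z, z ≠ 0 → b' j z = z ^ 2 * b' (!j) z⁻¹
  sy : ∀ j, LSY Ns (Wt D.κ) (D.p j) (D.r j) (L j) (b j) (L' j) (b' j)
  ro : ∀ j d, d ^ 8 = 1 → LSY (Metric.ball 0 1) (Wr D.κ) (fun y => D.p j (psi d y)) (fun y => D.r j (psi d y))
    (fun y => L j (psi d y)) (fun y => b j (psi d y)) (fun y => L' j (psi d y)) (fun y => b' j (psi d y))

/-- Background metric. -/
def Sg (z : ℂ) : ℝ := (1 + ‖z‖ ^ 2) ^ 4 + ‖1 - z ^ 8‖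

end

end Pool.Agent.DL
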