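import Pool.Agent.helper22.DL.SpecE2

/-! # Project dl, stage 2: EAC, bounds of `c` and `P` -/

namespace Pool.Agent.DL

open Matrix Complex MeasureTheory Set Filter Topology
open scoped ComplexOrder Manifold ContDiff ComplexConjugate

noncomputable section

theorem EAC_ae (hC : EKC_stmt) (a : ℂ) : ∀ᵐ ξ ∂(volume.restrict Dk), ξ ∈ Dk ∧ ξ ^ 8 ≠ 1 ∧ ξ ≠ a := by
  have h1 : ∀ᵐ ξ ∂(volume.restrict Dk), ξ ∈ Dk := ae_restrict_mem measurableSet_closedBall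
  have h2 : ∀ᵐ ξ ∂(volume.restrict Dk), ¬ (ξ ^ 8 = 1) := by
    refine ae_restrict_of_ae ?_
    rw [ae_iff]
    simpa using hC.2.2.1
  have h3 : ∀ᵐ ξ ∂(volume.restrict Dk), ξ ≠ a := by
    refine ae_restrict_of_ae ?_
    rw [ae_iff]
    simp
  filter_upwards [h1, h2, h3] with ξ a b c using ⟨a, b, c⟩

theorem EAC_sub : Dk ⊆ Metric.ball (0 : ℂ) 2 := Metric.closedBall_subset_ball (by norm_num)

theorem EAC_Wnn (z : ℂ) : 0 ≤ Wt 1 z := by unfold Wt; positivity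
theorem EAC_mnn (z : ℂ) : 0 ≤ mt z := by unfold mt; positivity

theorem EAC_conj (z : ℂ) : mt (conj z) = mt z := by
  unfold mt
  have : 1 - (conj z) ^ 8 = conj (1 - z ^ 8) := by simp
  rw [this, Complex.norm_conj]

/-- majorant on the disc -/
theorem EAC_maj {f : ℂ → ℂ} {k : ℂ → ℝ} {A B : ℝ} (hA : 0 ≤ A) (hk : ∀ ξ, 0 ≤ k ξ) (hi : IntegrableOn k (Metric.ball 0 2))
    (hB : ∫ ξ in Metric.ball (0 : ℂ) 2, k ξ ≤ B) (hf : ∀ᵐ ξ ∂(volume.restrict Dk), ‖f ξ‖ ≤ A * k ξ) :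
    ‖∫ ξ in Dk, f ξ‖ ≤ A * B := by
  have h1 : IntegrableOn k Dk := hi.mono_set EAC_sub
  have h2 : ‖∫ ξ in Dk, f ξ‖ ≤ ∫ ξ in Dk, A * k ξ := norm_integral_le_of_norm_le (h1.const_mul A) hf
  have h3 : ∫ ξ in Dk, k ξ ≤ ∫ ξ in Metric.ball (0 : ℂ) 2, k ξ :=
    setIntegral_mono_set hi (Eventually.of_forall hk) (Eventually.of_forall EAC_sub)
  rw [integral_const_mul] at h2
  exact h2.trans (mul_le_mul_of_nonneg_left (h3.trans hB) hA)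

theorem EAC_majR {f : ℂ → ℝ} {k : ℂ → ℝ} {A B : ℝ} (hA : 0 ≤ A) (hk : ∀ ξ, 0 ≤ k ξ) (hi : IntegrableOn k (Metric.ball 0 2))
    (hB : ∫ ξ in Metric.ball (0 : ℂ) 2, k ξ ≤ B) (hf : ∀ᵐ ξ ∂(volume.restrict Dk), |f ξ| ≤ A * k ξ) :
    |∫ ξ in Dk, f ξ| ≤ A * B := by
  have h1 : IntegrableOn k Dk := hi.mono_set EAC_sub
  have h2 : ‖∫ ξ in Dk, f ξ‖ ≤ ∫ ξ in Dk, A * k ξ := norm_integral_le_of_norm_le (h1.const_mul A) hf
  have h3 : ∫ ξ in Dk, k ξ ≤ ∫ ξ in Metric.ball (0 : ℂ) 2, k ξ :=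
    setIntegral_mono_set hi (Eventually.of_forall hk) (Eventually.of_forall EAC_sub)
  rw [integral_const_mul] at h2
  rw [← Real.norm_eq_abs]
  exact h2.trans (mul_le_mul_of_nonneg_left (h3.trans hB) hA)

theorem EAC_inv {z ξ : ℂ} (hC : EKC_stmt) (hz : z ∈ Dk) (hξ : ξ ∈ Dk) (hne : ξ ≠ conj z) : ‖1 - z * ξ‖⁻¹ ≤ ‖conj z - ξ‖⁻¹ := by
  have h := hC.2.2.2.2.2.2.2.2.1 z hz ξ hξ
  have hp : 0 < ‖conj z - ξ‖ := norm_pos_iff.2 (sub_ne_zero.2 (Ne.symm hne))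
  exact inv_anti₀ hp h

theorem EAC_cmem {z : ℂ} (hz : z ∈ Dk) : conj z ∈ Dk := by
  have : ‖z‖ ≤ 1 := by simpa using hz
  simpa using this

theorem EAC_c8 {z : ℂ} (hz : z ^ 8 ≠ 1) : (conj z) ^ 8 ≠ 1 := by
  intro h
  apply hz
  have := congrArg conj h
  simpa using this

section
variable (hC : EKC_stmt) {K : ℝ} (hK : 0 < K)
  (h1 : ∀ z ∈ Metric.ball (0 : ℂ) 2, z ^ 8 ≠ 1 → IntegrableOn (fun ξ : ℂ => Wt 1 ξ * ‖z - ξ‖⁻¹) (Metric.ball 0 2) ∧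
    ∫ ξ in Metric.ball (0 : ℂ) 2, Wt 1 ξ * ‖z - ξ‖⁻¹ ≤ K * (mt z)⁻¹ ∧
    ∫ ξ in Metric.ball (0 : ℂ) 2, Wt 1 ξ * ‖z - ξ‖⁻¹ ≤ K * ‖1 - z ^ 8‖ ^ (-(1 / 8) : ℝ))
  (h2 : ∀ z : ℂ, IntegrableOn (fun ξ : ℂ => (mt ξ)⁻¹ * ‖z - ξ‖⁻¹) (Metric.ball 0 2) ∧
    ∫ ξ in Metric.ball (0 : ℂ) 2, (mt ξ)⁻¹ * ‖z - ξ‖⁻¹ ≤ K)
  (h3 : IntegrableOn (fun ξ : ℂ => Wt 1 ξ) (Metric.ball 0 2))
  (h4 : ∀ z ∈ Metric.ball (0 : ℂ) 2, IntegrableOn (fun ξ : ℂ => Wt 1 ξ * |Real.log ‖z - ξ‖|) (Metric.ball 0 2) ∧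
    ∫ ξ in Metric.ball (0 : ℂ) 2, Wt 1 ξ * |Real.log ‖z - ξ‖| ≤ K)

include hC h1 in
theorem EAC_TG {φ : Bool → ℂ → ℂ} {A : ℝ} (hA : 0 ≤ A) (hφ : ∀ j, ∀ z ∈ Dk, z ^ 8 ≠ 1 → ‖φ j z‖ ≤ A * Wt 1 z) (j : Bool) {z : ℂ}
    (hz : z ∈ Dk) (h8 : z ^ 8 ≠ 1) : ‖TG φ j z‖ ≤ 2 * (A * K) * (mt z)⁻¹ := by
  obtain ⟨a1, a2, -⟩ := h1 z (EAC_sub hz) h8
  obtain ⟨b1, b2, -⟩ := h1 (conj z) (EAC_sub (EAC_cmem hz)) (EAC_c8 h8)
  rw [EAC_conj] at b2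
  have e1 : ‖∫ ξ in Dk, φ j ξ / (z - ξ)‖ ≤ A * (K * (mt z)⁻¹) := by
    refine EAC_maj hA (fun ξ => mul_nonneg (EAC_Wnn ξ) (by positivity)) a1 a2 ?_
    filter_upwards [EAC_ae hC z] with ξ hξ
    rw [norm_div, div_eq_mul_inv, ← mul_assoc]
    exact mul_le_mul_of_nonneg_right (hφ j ξ hξ.1 hξ.2.1) (by positivity)
  have e2 : ‖∫ ξ in Dk, ξ ^ 3 * φ (!j) ξ / (1 - z * ξ)‖ ≤ A * (K * (mt z)⁻¹) := by
    refine EAC_maj hA (fun ξ => mul_nonneg (EAC_Wnn ξ) (by positivity)) b1 b2 ?_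
    filter_upwards [EAC_ae hC (conj z)] with ξ hξ
    have hn : ‖ξ‖ ≤ 1 := by simpa using hξ.1
    rw [norm_div, norm_mul, norm_pow, div_eq_mul_inv, ← mul_assoc]
    have i1 : ‖ξ‖ ^ 3 * ‖φ (!j) ξ‖ ≤ A * Wt 1 ξ := by
      calc ‖ξ‖ ^ 3 * ‖φ (!j) ξ‖ ≤ 1 * ‖φ (!j) ξ‖ :=
            mul_le_mul_of_nonneg_right (pow_le_one₀ (norm_nonneg _) hn) (norm_nonneg _)
        _ ≤ A * Wt 1 ξ := by rw [one_mul]; exact hφ _ ξ hξ.1 hξ.2.1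
    exact mul_le_mul i1 (EAC_inv hC hz hξ.1 hξ.2.2) (by positivity) (mul_nonneg hA (EAC_Wnn ξ))
  unfold TG
  rw [norm_mul]
  have hpi : ‖(1 / (Real.pi : ℂ))‖ ≤ 1 := by
    rw [norm_div, norm_one, Complex.norm_real, Real.norm_of_nonneg Real.pi_pos.le]
    rw [div_le_one Real.pi_pos]
    linarith [Real.pi_gt_three]
  calc _ ≤ 1 * (A * (K * (mt z)⁻¹) + A * (K * (mt z)⁻¹)) :=
        mul_le_mul hpi ((norm_sub_le _ _).trans (add_le_add e1 e2)) (norm_nonneg _) zero_le_one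
    _ = _ := by ring

include hC h2 in
theorem EAC_TB {β : Bool → ℂ → ℂ} {A : ℝ} (hA : 0 ≤ A) (hβ : ∀ j, ∀ z ∈ Dk, z ^ 8 ≠ 1 → ‖β j z‖ ≤ A * (mt z)⁻¹) (j : Bool) {z : ℂ}
    (hz : z ∈ Dk) : ‖TB β j z‖ ≤ 2 * (A * K) := by
  obtain ⟨a1, a2⟩ := h2 z
  obtain ⟨b1, b2⟩ := h2 (conj z)
  have hnz : ‖z‖ ≤ 1 := by simpa using hz
  have e1 : ‖∫ ξ in Dk, β j ξ / (z - ξ)‖ ≤ A * K := by
    refine EAC_maj hA (fun ξ => mul_nonneg (inv_nonneg.2 (EAC_mnn ξ)) (by positivity)) a1 a2 ?_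
    filter_upwards [EAC_ae hC z] with ξ hξ
    rw [norm_div, div_eq_mul_inv, ← mul_assoc]
    exact mul_le_mul_of_nonneg_right (hβ j ξ hξ.1 hξ.2.1) (by positivity)
  have e2 : ‖∫ ξ in Dk, β (!j) ξ / (1 - z * ξ)‖ ≤ A * K := by
    refine EAC_maj hA (fun ξ => mul_nonneg (inv_nonneg.2 (EAC_mnn ξ)) (by positivity)) b1 b2 ?_
    filter_upwards [EAC_ae hC (conj z)] with ξ hξ
    rw [norm_div, div_eq_mul_inv, ← mul_assoc]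
    exact mul_le_mul (hβ _ ξ hξ.1 hξ.2.1) (EAC_inv hC hz hξ.1 hξ.2.2) (by positivity)
      (mul_nonneg hA (inv_nonneg.2 (EAC_mnn ξ)))
  unfold TB
  rw [norm_mul]
  have hpi : ‖(1 / (Real.pi : ℂ))‖ ≤ 1 := by
    rw [norm_div, norm_one, Complex.norm_real, Real.norm_of_nonneg Real.pi_pos.le]
    rw [div_le_one Real.pi_pos]
    linarith [Real.pi_gt_three]
  have e3 : ‖z ^ 3 * ∫ ξ in Dk, β (!j) ξ / (1 - z * ξ)‖ ≤ A * K := by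
    rw [norm_mul, norm_pow]
    calc _ ≤ 1 * (A * K) := mul_le_mul (pow_le_one₀ (norm_nonneg _) hnz) e2 (norm_nonneg _) zero_le_one
      _ = _ := one_mul _
  calc _ ≤ 1 * (A * K + A * K) :=
        mul_le_mul hpi ((norm_add_le _ _).trans (add_le_add e1 e3)) (norm_nonneg _) zero_le_one
    _ = _ := by ring

theorem EAC_log {z ξ : ℂ} (hC : EKC_stmt) (hz : z ∈ Dk) (hξ : ξ ∈ Dk) (hne : ξ ≠ conj z) :
    |Real.log ‖1 - z * ξ‖| ≤ 1 + |Real.log ‖conj z - ξ‖| := by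
  have h := hC.2.2.2.2.2.2.2.2.1 z hz ξ hξ
  have hp : 0 < ‖conj z - ξ‖ := norm_pos_iff.2 (sub_ne_zero.2 (Ne.symm hne))
  have hq : 0 < ‖1 - z * ξ‖ := lt_of_lt_of_le hp h
  have hnz : ‖z‖ ≤ 1 := by simpa using hz
  have hnx : ‖ξ‖ ≤ 1 := by simpa using hξ
  have h2 : ‖1 - z * ξ‖ ≤ 2 := by
    calc ‖1 - z * ξ‖ ≤ ‖(1 : ℂ)‖ + ‖z * ξ‖ := norm_sub_le _ _
      _ ≤ 1 + 1 := by
        rw [norm_one, norm_mul]
        exact add_le_add le_rfl (mul_le_one₀ hnz (norm_nonneg _) hnx)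
      _ = 2 := by norm_num
  have h3 : Real.log ‖1 - z * ξ‖ ≤ 1 := by
    calc Real.log ‖1 - z * ξ‖ ≤ ‖1 - z * ξ‖ - 1 := Real.log_le_sub_one_of_pos hq
      _ ≤ 1 := by linarith
  have h4 : Real.log ‖conj z - ξ‖ ≤ Real.log ‖1 - z * ξ‖ := Real.log_le_log hp h
  rw [abs_le]
  constructor
  · have := neg_abs_le (Real.log ‖conj z - ξ‖)
    linarith
  · have := abs_nonneg (Real.log ‖conj z - ξ‖)
    linarith

include hC h3 h4 in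
theorem EAC_TU {F : Bool → ℂ → ℝ} {A : ℝ} (hA : 0 ≤ A) (hF : ∀ j, ∀ z ∈ Dk, z ^ 8 ≠ 1 → |F j z| ≤ A * Wt 1 z) (j : Bool) {z : ℂ}
    (hz : z ∈ Dk) : |TU F j z| ≤ A * K + A * ((∫ ξ in Metric.ball (0 : ℂ) 2, Wt 1 ξ) + K) := by
  obtain ⟨a1, a2⟩ := h4 z (EAC_sub hz)
  obtain ⟨b1, b2⟩ := h4 (conj z) (EAC_sub (EAC_cmem hz))
  have e1 : |∫ ξ in Dk, Real.log ‖z - ξ‖ * F j ξ| ≤ A * K := by
    refine EAC_majR hA (fun ξ => mul_nonneg (EAC_Wnn ξ) (abs_nonneg _)) a1 a2 ?_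
    filter_upwards [EAC_ae hC z] with ξ hξ
    rw [abs_mul, mul_comm, ← mul_assoc]
    exact mul_le_mul_of_nonneg_right (hF j ξ hξ.1 hξ.2.1) (abs_nonneg _)
  have e2 : |∫ ξ in Dk, Real.log ‖1 - z * ξ‖ * F (!j) ξ| ≤ A * ((∫ ξ in Metric.ball (0 : ℂ) 2, Wt 1 ξ) + K) := by
    refine EAC_majR (k := fun ξ => Wt 1 ξ + Wt 1 ξ * |Real.log ‖conj z - ξ‖|) hA
      (fun ξ => add_nonneg (EAC_Wnn ξ) (mul_nonneg (EAC_Wnn ξ) (abs_nonneg _))) (h3.add b1) ?_ ?_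
    · rw [integral_add h3 b1]
      exact add_le_add le_rfl b2
    · filter_upwards [EAC_ae hC (conj z)] with ξ hξ
      rw [abs_mul, mul_comm]
      calc |F (!j) ξ| * |Real.log ‖1 - z * ξ‖| ≤ (A * Wt 1 ξ) * (1 + |Real.log ‖conj z - ξ‖|) :=
            mul_le_mul (hF _ ξ hξ.1 hξ.2.1) (EAC_log hC hz hξ.1 hξ.2.2) (abs_nonneg _) (mul_nonneg hA (EAC_Wnn ξ))
        _ = _ := by ring
  unfold TU
  rw [abs_mul]
  have hpi : |2 / Real.pi| ≤ 1 := by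
    rw [abs_of_nonneg (by positivity), div_le_one Real.pi_pos]
    linarith [Real.pi_gt_three]
  calc _ ≤ 1 * (A * K + A * ((∫ ξ in Metric.ball (0 : ℂ) 2, Wt 1 ξ) + K)) :=
        mul_le_mul hpi ((abs_add_le _ _).trans (add_le_add e1 e2)) (abs_nonneg _) zero_le_one
    _ = _ := by ring

end

theorem EAC_L {M : ℝ} {u : ℂ → ℝ} {z : ℂ} (hz : z ∈ Dk) (hu : |u z| ≤ M) : |Ls u z| ≤ M + 2 := by
  have hn : ‖z‖ ≤ 1 := by simpa using hz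
  have h0 : 0 ≤ Real.log (1 + ‖z‖ ^ 2) := Real.log_nonneg (by nlinarith [sq_nonneg ‖z‖])
  have h1 : Real.log (1 + ‖z‖ ^ 2) ≤ 1 := by
    calc Real.log (1 + ‖z‖ ^ 2) ≤ (1 + ‖z‖ ^ 2) - 1 := Real.log_le_sub_one_of_pos (by positivity)
      _ ≤ 1 := by nlinarith [norm_nonneg z]
  unfold Ls
  rw [abs_le] at *
  constructor <;> linarith

theorem EAC_pt {M : ℝ} (hM : 0 ≤ M) : ∃ C : ℝ, 0 ≤ C ∧ ∀ (p r b : ℂ) (L : ℝ), ‖p‖ ≤ M → ‖r‖ ≤ M → ‖b‖ ≤ M → |L| ≤ M + 2 →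
    ‖QQ p r L b‖ ≤ C ∧ |RR p r L b| ≤ C ∧ Real.exp (-L) ≤ C := by
  set X : ℝ := M + 3 / 2 * M ^ 2
  set Y : ℝ := M + 2 * M * M + M ^ 3
  set E : ℝ := Real.exp (M + 2)
  set E2 : ℝ := Real.exp (2 * (M + 2))
  have hE : 0 < E := Real.exp_pos _
  have hE2 : 0 < E2 := Real.exp_pos _
  have hX : 0 ≤ X := by positivity
  have hY : 0 ≤ Y := by positivity
  refine ⟨(3 * M + 3 * E * M * X + E2 * Y * X) + (E * X ^ 2 + E2 * Y ^ 2 + E) + E, by positivity, ?_⟩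
  intro p r b L hp hr hb hL
  have hx : ‖xx p b‖ ≤ X := by
    unfold xx
    calc ‖p - 3 / 2 * b ^ 2‖ ≤ ‖p‖ + ‖3 / 2 * b ^ 2‖ := norm_sub_le _ _
      _ = ‖p‖ + 3 / 2 * ‖b‖ ^ 2 := by rw [norm_mul, norm_pow]; norm_num
      _ ≤ X := by
        have : ‖b‖ ^ 2 ≤ M ^ 2 := pow_le_pow_left₀ (norm_nonneg _) hb 2
        simp only [X]; linarith
  have hy : ‖yy p r b‖ ≤ Y := by
    unfold yy
    calc ‖r + 2 * b * p - b ^ 3‖ ≤ ‖r + 2 * b * p‖ + ‖b ^ 3‖ := norm_sub_le _ _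
      _ ≤ (‖r‖ + ‖2 * b * p‖) + ‖b ^ 3‖ := by gcongr; exact norm_add_le _ _
      _ = ‖r‖ + 2 * ‖b‖ * ‖p‖ + ‖b‖ ^ 3 := by rw [norm_mul, norm_mul, norm_pow]; norm_num
      _ ≤ Y := by
        have h1 : ‖b‖ ^ 3 ≤ M ^ 3 := pow_le_pow_left₀ (norm_nonneg _) hb 3
        have h2 : ‖b‖ * ‖p‖ ≤ M * M := mul_le_mul hb hp (norm_nonneg _) hM
        simp only [Y]; nlinarith
  have hL' := abs_le.1 hL
  have e1 : Real.exp L ≤ E := Real.exp_le_exp.2 hL'.2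
  have e2 : Real.exp (2 * L) ≤ E2 := Real.exp_le_exp.2 (by linarith)
  have e3 : Real.exp (-L) ≤ E := Real.exp_le_exp.2 (by linarith)
  have hq : ‖QQ p r L b‖ ≤ 3 * M + 3 * E * M * X + E2 * Y * X := by
    unfold QQ
    have t1 : ‖3 * b‖ ≤ 3 * M := by rw [norm_mul]; norm_num; exact hb
    have t2 : ‖3 * (Real.exp L : ℂ) * conj b * xx p b‖ ≤ 3 * E * M * X := by
      rw [norm_mul, norm_mul, norm_mul, Complex.norm_real, Real.norm_of_nonneg (Real.exp_pos _).le, Complex.norm_conj]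
      have : ‖(3 : ℂ)‖ = 3 := by norm_num
      rw [this]
      gcongr
    have t3 : ‖(Real.exp (2 * L) : ℂ) * yy p r b * conj (xx p b)‖ ≤ E2 * Y * X := by
      rw [norm_mul, norm_mul, Complex.norm_real, Real.norm_of_nonneg (Real.exp_pos _).le, Complex.norm_conj]
      gcongr
    calc _ ≤ ‖3 * b - 3 * (Real.exp L : ℂ) * conj b * xx p b‖ + ‖(Real.exp (2 * L) : ℂ) * yy p r b * conj (xx p b)‖ :=
          norm_add_le _ _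
      _ ≤ (‖3 * b‖ + ‖3 * (Real.exp L : ℂ) * conj b * xx p b‖) + ‖(Real.exp (2 * L) : ℂ) * yy p r b * conj (xx p b)‖ := by
          gcongr; exact norm_sub_le _ _
      _ ≤ _ := by linarith
  have hR : |RR p r L b| ≤ E * X ^ 2 + E2 * Y ^ 2 + E := by
    unfold RR
    have s1 : Real.exp L * ‖xx p b‖ ^ 2 ≤ E * X ^ 2 := by gcongr
    have s2 : Real.exp (2 * L) * ‖yy p r b‖ ^ 2 ≤ E2 * Y ^ 2 := by gcongr
    have s3 : 0 ≤ Real.exp L * ‖xx p b‖ ^ 2 := by positivity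
    have s4 : 0 ≤ Real.exp (2 * L) * ‖yy p r b‖ ^ 2 := by positivity
    have s5 := (Real.exp_pos (-L)).le
    rw [abs_le]
    constructor
    · have : 0 ≤ E * X ^ 2 + E2 * Y ^ 2 := by positivity
      linarith
    · linarith
  have p1 : 0 ≤ E * X ^ 2 + E2 * Y ^ 2 + E := by positivity
  have p2 : 0 ≤ 3 * M + 3 * E * M * X + E2 * Y * X := by positivity
  exact ⟨by linarith, by linarith, by linarith⟩

theorem EAC_n8 {z : ℂ} (hz : z ∈ Dk) (h8 : z ^ 8 ≠ 1) : 0 < ‖1 - z ^ 8‖ ∧ ‖1 - z ^ 8‖ ≤ 2 ∧ 1 ≤ 2 * Wt 1 z ∧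
    (mt z)⁻¹ ^ 2 ≤ 2 * Wt 1 z := by
  have hn : ‖z‖ ≤ 1 := by simpa using hz
  have h1 : 0 < ‖1 - z ^ 8‖ := norm_pos_iff.2 (sub_ne_zero.2 (Ne.symm h8))
  have h2 : ‖1 - z ^ 8‖ ≤ 2 := by
    calc ‖1 - z ^ 8‖ ≤ ‖(1 : ℂ)‖ + ‖z ^ 8‖ := norm_sub_le _ _
      _ ≤ 1 + 1 := by
        rw [norm_one, norm_pow]
        exact add_le_add le_rfl (pow_le_one₀ (norm_nonneg _) hn)
      _ = 2 := by norm_num
  refine ⟨h1, h2, ?_, ?_⟩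
  · unfold Wt
    rw [mul_one_div, le_div_iff₀ h1]; linarith
  · have e : (mt z) ^ 2 = Real.sqrt ‖1 - z ^ 8‖ := by
      unfold mt
      rw [Real.sqrt_eq_rpow, ← Real.rpow_natCast, ← Real.rpow_mul h1.le]
      norm_num
    rw [inv_pow, e]
    unfold Wt
    have hs : 0 < Real.sqrt ‖1 - z ^ 8‖ := Real.sqrt_pos.2 h1
    have hs2 : Real.sqrt ‖1 - z ^ 8‖ ≤ 2 := by
      calc Real.sqrt ‖1 - z ^ 8‖ ≤ Real.sqrt (2 ^ 2) := Real.sqrt_le_sqrt (by linarith)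
        _ = 2 := Real.sqrt_sq (by norm_num)
    rw [mul_one_div, inv_eq_one_div, div_le_div_iff₀ hs h1]
    calc 1 * ‖1 - z ^ 8‖ = Real.sqrt ‖1 - z ^ 8‖ * Real.sqrt ‖1 - z ^ 8‖ := by rw [Real.mul_self_sqrt h1.le, one_mul]
      _ ≤ 2 * Real.sqrt ‖1 - z ^ 8‖ := by gcongr

theorem EAC (hC : EKC_stmt) (hD : EKD_stmt) : EAC_stmt := by
  intro κ M hκ
  by_cases hM : 0 ≤ M
  swap
  · refine ⟨0, fun D u b g c P hV hk hp hS hu => ?_⟩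
    exfalso
    have := (hp false 0 (by simp)).1
    have h0 := norm_nonneg (D.p false 0)
    linarith
  obtain ⟨K, hK, k1, k2, ⟨k3, -⟩, k4⟩ := hD 2 (by norm_num)
  obtain ⟨C, hC0, hpt⟩ := EAC_pt hM
  set W0 := ∫ ξ in Metric.ball (0 : ℂ) 2, Wt 1 ξ with hW0
  have hW0n : 0 ≤ W0 := setIntegral_nonneg measurableSet_ball fun ξ _ => EAC_Wnn ξ
  set A1 : ℝ := κ * C
  set G : ℝ := 2 * (A1 * K)
  set A2 : ℝ := C * G
  set A3 : ℝ := 2 * (C * G ^ 2) + κ * (C + M) + 4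
  set B1 : ℝ := M + 2 * (A2 * K)
  set B2 : ℝ := M + (A3 * K + A3 * (W0 + K))
  have hκ0 : 0 < κ := by linarith
  have hA1 : 0 ≤ A1 := by positivity
  have hG : 0 ≤ G := by positivity
  have hA2 : 0 ≤ A2 := by positivity
  have hA3 : 0 ≤ A3 := by positivity
  have hB1 : 0 ≤ B1 := by positivity
  refine ⟨max (3 * B1) B2, ?_⟩
  intro D u b g c P hV hk hp hS hu
  have hL : ∀ j, ∀ z ∈ Dk, |Ls (u j) z| ≤ M + 2 := fun j z hz => EAC_L hz (hu j z hz).1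
  have hpt' := fun j z (hz : z ∈ Dk) => hpt (D.p j z) (D.r j z) (b j z) (Ls (u j) z) (hp j z hz).1 (hp j z hz).2.1 (hu j z hz).2
    (hL j z hz)
  have hWk : ∀ z, Wt D.κ z = κ * Wt 1 z := by intro z; rw [hk]; unfold Wt; ring
  have hphi : ∀ j, ∀ z ∈ Dk, z ^ 8 ≠ 1 → ‖phi D u b j z‖ ≤ A1 * Wt 1 z := by
    intro j z hz _
    unfold phi
    rw [norm_mul, Complex.norm_real, Complex.norm_conj, hWk, Real.norm_of_nonneg (mul_nonneg hκ0.le (EAC_Wnn z))]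
    calc κ * Wt 1 z * ‖QQ (D.p j z) (D.r j z) (Ls (u j) z) (b j z)‖ ≤ κ * Wt 1 z * C :=
          mul_le_mul_of_nonneg_left (hpt' j z hz).1 (mul_nonneg hκ0.le (EAC_Wnn z))
      _ = A1 * Wt 1 z := by simp only [A1]; ring
  have hg : ∀ j, ∀ z ∈ Dk, z ^ 8 ≠ 1 → ‖g j z‖ ≤ G * (mt z)⁻¹ := by
    intro j z hz h8
    rw [hS.eg j z hz h8]
    exact EAC_TG hC k1 hA1 hphi j hz h8
  have hbet : ∀ j, ∀ z ∈ Dk, z ^ 8 ≠ 1 → ‖bet u g j z‖ ≤ A2 * (mt z)⁻¹ := by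
    intro j z hz h8
    unfold bet
    rw [norm_mul, Complex.norm_real, Complex.norm_conj, Real.norm_of_nonneg (Real.exp_pos _).le]
    calc _ ≤ C * (G * (mt z)⁻¹) := mul_le_mul (hpt' j z hz).2.2 (hg j z hz h8) (norm_nonneg _) hC0
      _ = A2 * (mt z)⁻¹ := by simp only [A2]; ring
  have hFd : ∀ j, ∀ z ∈ Dk, z ^ 8 ≠ 1 → |Fd D u b g j z| ≤ A3 * Wt 1 z := by
    intro j z hz h8
    obtain ⟨n1, n2, n3, n4⟩ := EAC_n8 hz h8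
    have t1 : Real.exp (-(Ls (u j) z)) * ‖g j z‖ ^ 2 ≤ C * G ^ 2 * (2 * Wt 1 z) := by
      have hg2 : ‖g j z‖ ^ 2 ≤ G ^ 2 * (mt z)⁻¹ ^ 2 := by
        calc ‖g j z‖ ^ 2 ≤ (G * (mt z)⁻¹) ^ 2 := pow_le_pow_left₀ (norm_nonneg _) (hg j z hz h8) 2
          _ = _ := by ring
      calc _ ≤ C * (G ^ 2 * (mt z)⁻¹ ^ 2) := mul_le_mul (hpt' j z hz).2.2 hg2 (by positivity) hC0
        _ ≤ C * (G ^ 2 * (2 * Wt 1 z)) := by gcongr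
        _ = _ := by ring
    have t1' : 0 ≤ Real.exp (-(Ls (u j) z)) * ‖g j z‖ ^ 2 := by positivity
    have t2 : |Wt D.κ z * (RR (D.p j z) (D.r j z) (Ls (u j) z) (b j z) + D.s j z)| ≤ κ * (C + M) * Wt 1 z := by
      rw [abs_mul, hWk, abs_of_nonneg (mul_nonneg hκ0.le (EAC_Wnn z))]
      calc _ ≤ κ * Wt 1 z * (C + M) := by
            refine mul_le_mul_of_nonneg_left ?_ (mul_nonneg hκ0.le (EAC_Wnn z))
            exact (abs_add_le _ _).trans (add_le_add (hpt' j z hz).2.1 (hp j z hz).2.2)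
        _ = _ := by ring
    have t3 : 2 / (1 + ‖z‖ ^ 2) ^ 2 ≤ 4 * Wt 1 z := by
      have : 2 / (1 + ‖z‖ ^ 2) ^ 2 ≤ 2 := by
        rw [div_le_iff₀ (by positivity)]
        nlinarith [sq_nonneg ‖z‖, sq_nonneg (‖z‖ ^ 2)]
      linarith
    have t3' : 0 ≤ 2 / (1 + ‖z‖ ^ 2) ^ 2 := by positivity
    unfold Fd
    have t2' := abs_le.1 t2
    rw [abs_le]
    have hw := EAC_Wnn z
    have q1 : 0 ≤ C * G ^ 2 * (2 * Wt 1 z) := by positivity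
    constructor
    · simp only [A3]; nlinarith
    · simp only [A3]; nlinarith
  have hTB : ∀ j, ∀ z ∈ Dk, ‖Pq P j z‖ ≤ B1 := by
    intro j z hz
    have h1 := hS.eb j z hz
    have h2 : Pq P j z = b j z - TB (bet u g) j z := by rw [h1]; ring
    rw [h2]
    calc _ ≤ ‖b j z‖ + ‖TB (bet u g) j z‖ := norm_sub_le _ _
      _ ≤ M + 2 * (A2 * K) := add_le_add (hu j z hz).2 (EAC_TB hC k2 hA2 hbet j hz)
  have hTU : |c| ≤ B2 := by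
    have h1 := hS.eu false 0 (by simp)
    have h2 : c = u false 0 - TU (Fd D u b g) false 0 := by rw [h1]; ring
    rw [h2]
    calc _ ≤ |u false 0| + |TU (Fd D u b g) false 0| := abs_sub _ _
      _ ≤ _ := add_le_add (hu false 0 (by simp)).1 (EAC_TU hC k3 k4 hA3 hFd false (by simp))
  refine ⟨hTU.trans (le_max_right _ _), fun k => ?_⟩
  refine le_trans ?_ (le_max_left _ _)
  have p0 : ‖P 0‖ ≤ B1 := by simpa [Pq] using hTB false 0 (by simp)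
  have p2 : ‖P 2‖ ≤ B1 := by simpa [Pq] using hTB true 0 (by simp)
  have p1 : ‖P 0 + P 1 + P 2‖ ≤ B1 := by simpa [Pq] using hTB false 1 (by simp)
  fin_cases k
  · change ‖P 0‖ ≤ _; linarith
  · change ‖P 1‖ ≤ _
    have : P 1 = (P 0 + P 1 + P 2) - P 0 - P 2 := by ring
    rw [this]
    calc _ ≤ ‖P 0 + P 1 + P 2 - P 0‖ + ‖P 2‖ := norm_sub_le _ _
      _ ≤ (‖P 0 + P 1 + P 2‖ + ‖P 0‖) + ‖P 2‖ := by gcongr; exact norm_sub_le _ _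
      _ ≤ _ := by linarith
  · change ‖P 2‖ ≤ _; linarith

end

end Pool.Agent.DL
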