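import Pool.Agent.helper22.DL.SpecE2

/-! # Project dl, stage 2, module EEV: eigenvalues of `A3` -/

namespace Pool.Agent.DL

open Matrix Complex

theorem EEV_eval (p r l : ℂ) : (A3 p r).charpoly.eval l = l ^ 3 - 2 * p * l - r := by
  rw [Matrix.charpoly, Matrix.det_fin_three]
  unfold A3
  simp only [Matrix.charmatrix_apply, Matrix.of_apply, Matrix.cons_val', Matrix.cons_val_zero,
    Matrix.cons_val_one, Matrix.cons_val, Matrix.diagonal_apply_eq, ne_eq, Fin.reduceEq,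
    not_false_eq_true, Matrix.diagonal_apply_ne, map_zero, map_one]
  simp only [Polynomial.eval_add, Polynomial.eval_sub, Polynomial.eval_mul, Polynomial.eval_X, Polynomial.eval_C,
    Polynomial.eval_zero, Polynomial.eval_one]
  ring

theorem EEV_root (p r l : ℂ) (h : l ^ 3 - 2 * p * l - r = 0) : ‖l‖ ≤ 1 + 2 * ‖p‖ + ‖r‖ := by
  by_cases h1 : ‖l‖ ≤ 1
  · nlinarith [norm_nonneg p, norm_nonneg r]
  · push Not at h1
    have h2 : l ^ 3 = 2 * p * l + r := by linear_combination h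
    have h3 : ‖l‖ ^ 3 ≤ 2 * ‖p‖ * ‖l‖ + ‖r‖ := by
      rw [← norm_pow, h2]
      refine (norm_add_le _ _).trans ?_
      rw [norm_mul, norm_mul]
      simp
    have h4 : ‖l‖ ^ 3 ≤ (2 * ‖p‖ + ‖r‖) * ‖l‖ := by
      nlinarith [norm_nonneg p, norm_nonneg r]
    have h5 : ‖l‖ ^ 2 ≤ 2 * ‖p‖ + ‖r‖ := by
      have : ‖l‖ ^ 2 * ‖l‖ ≤ (2 * ‖p‖ + ‖r‖) * ‖l‖ := by
        calc ‖l‖ ^ 2 * ‖l‖ = ‖l‖ ^ 3 := by ring
          _ ≤ _ := h4
      exact le_of_mul_le_mul_right this (by linarith)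
    nlinarith

theorem EEV : EEV_stmt := by
  intro p r
  have hm : (A3 p r).charpoly.Monic := Matrix.charpoly_monic _
  have hs : (A3 p r).charpoly.Splits := IsAlgClosed.splits _
  have hd : (A3 p r).charpoly.natDegree = 3 := by
    rw [Matrix.charpoly_natDegree_eq_dim]
    rfl
  have hc : Multiset.card (A3 p r).charpoly.roots = 3 := by
    rw [← hs.natDegree_eq_card_roots, hd]
  have hp := hs.eq_prod_roots_of_monic hm
  obtain ⟨a, b, c, habc⟩ := Multiset.card_eq_three.mp hc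
  have hr : ∀ x ∈ (A3 p r).charpoly.roots, ‖x‖ ≤ 1 + 2 * ‖p‖ + ‖r‖ := by
    intro x hx
    have := (Polynomial.mem_roots'.mp hx).2
    rw [Polynomial.IsRoot, EEV_eval] at this
    exact EEV_root p r x this
  have ha := hr a (by rw [habc]; simp)
  have hb := hr b (by rw [habc]; simp)
  have hc' := hr c (by rw [habc]; simp)
  refine ⟨![a, b, c], ?_, ?_⟩
  · rw [hp, habc, Fin.prod_univ_three]
    simp [mul_assoc]
  · rw [Fin.sum_univ_three]
    have e0 : (![a, b, c] : Fin 3 → ℂ) 0 = a := rfl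
    have e1 : (![a, b, c] : Fin 3 → ℂ) 1 = b := rfl
    have e2 : (![a, b, c] : Fin 3 → ℂ) 2 = c := rfl
    rw [e0, e1, e2]
    have f := fun (x : ℂ) (hx : ‖x‖ ≤ 1 + 2 * ‖p‖ + ‖r‖) => pow_le_pow_left₀ (norm_nonneg x) hx 2
    linarith [f a ha, f b hb, f c hc']

end Pool.Agent.DL
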