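import Pool.Agent.helper22.DL.SpecE2

/-! # Project dl, stage 2: continuity for rank three, and the scalar equation -/

namespace Pool.Agent.DL

open Matrix Complex MeasureTheory Set Filter Topology
open scoped ComplexOrder Manifold ContDiff ComplexConjugate

noncomputable section

theorem EFB_pr (z : Dk) : pr (z : ℂ) = z := by
  obtain ⟨z, hz⟩ := z
  have h : ‖z‖ ≤ 1 := by simpa using hz
  apply Subtype.ext
  simp [pr, max_eq_left h]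

theorem EFB_u (y : Y3) (j : Bool) (z : Dk) : uE y j z = y.1 j z := by rw [uE, EFB_pr]
theorem EFB_b (y : Y3) (j : Bool) (z : Dk) : bE y j z = y.2.1 j z := by rw [bE, EFB_pr]

theorem EFB_norm (y : Y3) (M : ℝ) (hM : 0 ≤ M) (h1 : ∀ j, ∀ z ∈ Dk, |uE y j z| ≤ M ∧ ‖bE y j z‖ ≤ M) (h2 : |y.2.2.1| ≤ M)
    (h3 : ∀ k, ‖y.2.2.2 k‖ ≤ M) : ‖y‖ ≤ M := by
  refine (norm_prod_le_iff).2 ⟨?_, (norm_prod_le_iff).2 ⟨?_, (norm_prod_le_iff).2 ⟨?_, ?_⟩⟩⟩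
  · refine (pi_norm_le_iff_of_nonneg hM).2 fun j => (ContinuousMap.norm_le _ hM).2 fun z => ?_
    have := (h1 j z z.2).1
    rwa [EFB_u] at this
  · refine (pi_norm_le_iff_of_nonneg hM).2 fun j => (ContinuousMap.norm_le _ hM).2 fun z => ?_
    have := (h1 j z z.2).2
    rwa [EFB_b] at this
  · simpa using h2
  · exact (pi_norm_le_iff_of_nonneg hM).2 h3

theorem EFB (hFC : EFC_stmt) (hFA : EFA_stmt) : EFB_stmt := by
  intro D hV start bd inj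
  obtain ⟨Z, i1, i2, T, N, hT, hN, hb, h1, h2⟩ := hFA D hV
  obtain ⟨M, hM⟩ := bd
  have key := hFC Y3 Z T N hT hN hb ⟨max M 0, ?_⟩ ?_ ?_
  · obtain ⟨y, hy⟩ := key
    obtain ⟨g, hg, -⟩ := h1 1 (by simp) y hy
    exact ⟨_, _, _, _, _, hg⟩
  · intro τ hτ y hy
    obtain ⟨g, hg, -⟩ := h1 τ hτ y hy
    obtain ⟨k1, k2, k3⟩ := hM τ hτ _ _ _ _ _ hg
    exact EFB_norm y _ (le_max_right _ _)
      (fun j z hz => ⟨(k1 j z hz).1.trans (le_max_left _ _), (k1 j z hz).2.trans (le_max_left _ _)⟩)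
      (k2.trans (le_max_left _ _)) (fun k => (k3 k).trans (le_max_left _ _))
  · intro τ hτ y v hy hv
    obtain ⟨g, hg, hl⟩ := h1 τ hτ y hy
    obtain ⟨g', hg'⟩ := hl v hv
    obtain ⟨k1, k2, k3⟩ := inj τ hτ _ _ _ _ _ _ _ _ _ _ hg hg'
    have : ‖v‖ ≤ 0 := EFB_norm v 0 le_rfl
      (fun j z hz => ⟨by rw [(k1 j z hz).1]; simp, by rw [(k1 j z hz).2]; simp⟩) (by rw [k2]; simp)
      (fun k => by rw [k3 k]; simp)
    simpa using this
  · obtain ⟨u, b, g, c, P, h⟩ := start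
    exact h2 0 (by simp) _ _ _ _ _ h

theorem EFB_u1 (y : Y1) (j : Bool) (z : Dk) : uE1 y j z = y.1 j z := by rw [uE1, EFB_pr]

theorem EFB_norm1 (y : Y1) (M : ℝ) (hM : 0 ≤ M) (h1 : ∀ j, ∀ z ∈ Dk, |uE1 y j z| ≤ M) (h2 : |y.2| ≤ M) : ‖y‖ ≤ M := by
  refine (norm_prod_le_iff).2 ⟨?_, ?_⟩
  · refine (pi_norm_le_iff_of_nonneg hM).2 fun j => (ContinuousMap.norm_le _ hM).2 fun z => ?_
    have := h1 j z z.2
    rwa [EFB_u1] at this
  · simpa using h2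

theorem ESX (hFC : EFC_stmt) (hSA : ESA_stmt) (hSV : ESV_stmt) (hSD : ESD_stmt) (hSI : ESI_stmt) (hSC : ESC_stmt) :
    ESX_stmt := by
  intro D hV hr hs
  obtain ⟨hV', start⟩ := hSV D hV
  have hr' : ∀ j z, D.sh.r j z = 0 := hr
  obtain ⟨Z, i1, i2, T, N, hT, hN, hb, h1, h2⟩ := hSA D.sh hV' hr'
  obtain ⟨M, hM⟩ := hSD D hV hr
  have hm : ∀ τ ∈ Icc (0 : ℝ) 1, 1 - τ ∈ Icc (0 : ℝ) 1 := fun τ hτ => ⟨by linarith [hτ.2], by linarith [hτ.1]⟩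
  have key := hFC Y1 Z T N hT hN hb ⟨max M 0, ?_⟩ ?_ ?_
  · obtain ⟨y, hy⟩ := key
    have hg := (h1 1 (by simp) y hy).1
    have he : D.sh.so (1 - 1) = D := by
      have : D.s = fun _ _ => 0 := by funext j z; exact hs j z
      cases D
      simp only [Dat.sh, Dat.so] at *
      simp [this]
    rw [he] at hg
    exact ⟨_, _, hg⟩
  · intro τ hτ y hy
    obtain ⟨k1, k2⟩ := hM (1 - τ) (hm τ hτ) _ _ (h1 τ hτ y hy).1
    exact EFB_norm1 y _ (le_max_right _ _) (fun j z hz => (k1 j z hz).trans (le_max_left _ _)) (k2.trans (le_max_left _ _))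
  · intro τ hτ y v hy hv
    obtain ⟨hg, hl⟩ := h1 τ hτ y hy
    obtain ⟨k1, k2⟩ := hSI (D.sh.so (1 - τ)) _ _ _ _ (hSC D.sh hV' (1 - τ)).2 hr' hg (hl v hv)
    have : ‖v‖ ≤ 0 := EFB_norm1 v 0 le_rfl (fun j z hz => by rw [k1 j z hz]; simp) (by rw [k2]; simp)
    simpa using this
  · have h0 := start hr
    rw [show (1 : ℝ) = 1 - 0 by ring] at h0
    exact h2 0 (by simp) _ _ h0

end

end Pool.Agent.DL
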