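import Pool.Agent.helper22.DL.SpecE2

/-! # Project dl, stage 2, module ENA: algebra of the metric -/

namespace Pool.Agent.DL

open Matrix Complex
open scoped ComplexOrder ComplexConjugate

noncomputable section

/-- The Higgs field in the frame `uu b`. -/
def ENA_Q (p r b : ℂ) : Matrix (Fin 3) (Fin 3) ℂ := !![b, xx p b, yy p r b; 1, -2 * b, xx p b; 0, 1, b]

theorem ENA_detuu (b : ℂ) : (uu b).det = 1 := by
  unfold uu
  rw [det_fin_three]
  simp

theorem ENA_UA (p r b : ℂ) : uu b * A3 p r = ENA_Q p r b * uu b := by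
  unfold uu A3 ENA_Q xx yy
  ext i j
  fin_cases i <;> fin_cases j <;>
    simp [Matrix.mul_apply, Fin.sum_univ_three] <;> ring

theorem ENA_UAU (p r b : ℂ) : uu b * A3 p r * (uu b)⁻¹ = ENA_Q p r b := by
  have h : IsUnit (uu b).det := by rw [ENA_detuu]; exact isUnit_one
  rw [ENA_UA, Matrix.mul_assoc, Matrix.mul_nonsing_inv _ h, Matrix.mul_one]

def ENA_D (L : ℝ) : Matrix (Fin 3) (Fin 3) ℂ := diagonal ![(Real.exp L : ℂ), 1, (Real.exp (-L) : ℂ)]

def ENA_D' (L : ℝ) : Matrix (Fin 3) (Fin 3) ℂ := diagonal ![(Real.exp (-L) : ℂ), 1, (Real.exp L : ℂ)]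

theorem ENA_DD (L : ℝ) : ENA_D' L * ENA_D L = 1 := by
  unfold ENA_D ENA_D'
  rw [diagonal_mul_diagonal, ← diagonal_one]
  congr 1
  funext i
  have h1 : (Real.exp (-L) : ℂ) * (Real.exp L : ℂ) = 1 := by
    rw [← Complex.ofReal_mul, ← Real.exp_add]
    simp
  fin_cases i
  · exact h1
  · simp
  · show (Real.exp L : ℂ) * (Real.exp (-L) : ℂ) = 1
    rw [mul_comm]
    exact h1

theorem ENA_H (L : ℝ) (b : ℂ) : H3 L b = (uu b)ᴴ * ENA_D L * uu b := rfl

theorem ENA_detD (L : ℝ) : (ENA_D L).det = 1 := by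
  unfold ENA_D
  rw [det_diagonal, Fin.prod_univ_three]
  simp only [Matrix.cons_val_zero, Matrix.cons_val_one, Matrix.cons_val]
  rw [mul_one, ← Complex.ofReal_mul, ← Real.exp_add, add_neg_cancel, Real.exp_zero, Complex.ofReal_one]

theorem ENA_det (L : ℝ) (b : ℂ) : (H3 L b).det = 1 := by
  rw [ENA_H, det_mul, det_mul, det_conjTranspose, ENA_detuu, ENA_detD]
  simp

theorem ENA_pos (L : ℝ) (b : ℂ) : (H3 L b).PosDef := by
  have h1 : (ENA_D L).PosDef := by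
    unfold ENA_D
    refine PosDef.diagonal ?_
    intro i
    fin_cases i
    · show (0 : ℂ) < (Real.exp L : ℂ)
      exact_mod_cast Real.exp_pos L
    · show (0 : ℂ) < 1
      exact one_pos
    · show (0 : ℂ) < (Real.exp (-L) : ℂ)
      exact_mod_cast Real.exp_pos (-L)
  rw [ENA_H]
  refine h1.conjTranspose_mul_mul_same ?_
  exact Matrix.mulVec_injective_of_isUnit ((Matrix.isUnit_iff_isUnit_det _).2 (by rw [ENA_detuu]; exact isUnit_one))

theorem ENA_inv (L : ℝ) (b : ℂ) : (H3 L b)⁻¹ = (uu b)⁻¹ * ENA_D' L * ((uu b)ᴴ)⁻¹ := by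
  have hu : IsUnit (uu b).det := by rw [ENA_detuu]; exact isUnit_one
  have hu' : IsUnit ((uu b)ᴴ).det := by rw [det_conjTranspose, ENA_detuu]; simp
  refine Matrix.inv_eq_left_inv ?_
  rw [ENA_H]
  calc (uu b)⁻¹ * ENA_D' L * ((uu b)ᴴ)⁻¹ * ((uu b)ᴴ * ENA_D L * uu b)
      = (uu b)⁻¹ * ENA_D' L * (((uu b)ᴴ)⁻¹ * (uu b)ᴴ) * ENA_D L * uu b := by simp only [Matrix.mul_assoc]
    _ = (uu b)⁻¹ * (ENA_D' L * ENA_D L) * uu b := by
        rw [Matrix.nonsing_inv_mul _ hu', Matrix.mul_one]; simp only [Matrix.mul_assoc]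
    _ = 1 := by rw [ENA_DD, Matrix.mul_one, Matrix.nonsing_inv_mul _ hu]

theorem ENA_nn (p r : ℂ) (L : ℝ) (b : ℂ) : nn (H3 L b) (A3 p r) = fA p r L b := by
  have hu : IsUnit (uu b).det := by rw [ENA_detuu]; exact isUnit_one
  unfold nn nn2
  rw [ENA_inv, ENA_H]
  have h1 : (uu b)⁻¹ * ENA_D' L * ((uu b)ᴴ)⁻¹ * (A3 p r)ᴴ * ((uu b)ᴴ * ENA_D L * uu b) * A3 p r =
      (uu b)⁻¹ * (ENA_D' L * (ENA_Q p r b)ᴴ * ENA_D L * (uu b * A3 p r)) := by
    rw [← ENA_UAU p r b, conjTranspose_mul, conjTranspose_mul, conjTranspose_nonsing_inv]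
    simp only [Matrix.mul_assoc]
  rw [h1, trace_mul_comm, Matrix.mul_assoc, ENA_UAU]
  unfold ENA_Q ENA_D ENA_D' fA
  rw [trace_fin_three]
  simp [Matrix.mul_apply, Fin.sum_univ_three, diagonal_apply, Matrix.conjTranspose_apply]
  have e1 : (cexp (-(L : ℂ))).re = Real.exp (-L) := by
    rw [← Complex.ofReal_neg, ← Complex.ofReal_exp, Complex.ofReal_re]
  have e2 : (cexp (-(L : ℂ))).im = 0 := by
    rw [← Complex.ofReal_neg, ← Complex.ofReal_exp, Complex.ofReal_im]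
  have e3 : (cexp (L : ℂ)).re = Real.exp L := by
    rw [← Complex.ofReal_exp, Complex.ofReal_re]
  have e4 : Real.exp (-L) * Real.exp L = 1 := by
    rw [← Real.exp_add]
    simp
  have e5 : Real.exp (2 * L) = Real.exp L ^ 2 := by
    rw [← Real.exp_nat_mul]
    norm_num
  have e6 : ∀ z : ℂ, ‖z‖ ^ 2 = z.re ^ 2 + z.im ^ 2 := by
    intro z
    rw [← Complex.normSq_eq_norm_sq, Complex.normSq_apply]
    ring
  rw [e1, e2, e3, e5, e6, e6, e6]
  linear_combination (2 * b.re ^ 2 + 2 * b.im ^ 2) * e4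

theorem ENA : ENA_stmt := by
  intro p r L b
  refine ⟨ENA_pos L b, ENA_det L b, ENA_nn p r L b, ?_⟩
  unfold A3
  rw [trace_fin_three]
  simp

end

end Pool.Agent.DL
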