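import Pool.Agent.helper22.DL.SpecE2

/-! # Project dl, stage 2: EPD -/

namespace Pool.Agent.DL

open Matrix Complex MeasureTheory Set Filter Topology
open scoped ComplexOrder Manifold ContDiff ComplexConjugate

noncomputable section

theorem EPD_cd : ContDiff ℝ 2 (fun z : ℂ => Real.log (1 + ‖z‖ ^ 2)) := by
  apply ContDiff.log
  · exact contDiff_const.add (contDiff_norm_sq ℝ)
  · intro z; positivity

theorem EPD_Ls (u : ℂ → ℝ) : Ls u = fun z => 1 * u z + (-2) * Real.log (1 + ‖z‖ ^ 2) := by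
  funext z; simp only [Ls]; ring

theorem EPD_lap_log (hLQ : ELQ_stmt) (z : ℂ) : lap (fun w => Real.log (1 + ‖w‖ ^ 2)) z = 1 / (1 + ‖z‖ ^ 2) ^ 2 := by
  have h := (hLQ (fun y => z + y) 1 one_pos ((differentiable_const z).add differentiable_id).differentiableOn).2
  have h2 : deriv (fun y : ℂ => z + y) 0 = 1 := by
    rw [deriv_const_add]; simp
  rw [h2] at h
  simp only [add_zero, norm_one, one_pow] at h
  rw [← h]
  simp [lap]

theorem EPD_isOpen : IsOpen Ns := isOpen_ne_fun (by fun_prop) continuous_const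

theorem EPD_dz_conj {f : ℂ → ℂ} {z : ℂ} (hf : DifferentiableAt ℝ f z) : dz (fun w => conj (f w)) z = conj (dzb f z) := by
  have h : HasFDerivAt (fun w => conj (f w)) (conjCLE.toContinuousLinearMap.comp (fderiv ℝ f z)) z := by
    exact (conjCLE.toContinuousLinearMap.hasFDerivAt).comp z hf.hasFDerivAt
  unfold dz dzb
  rw [h.fderiv]
  have h2 : conj (2 : ℂ) = 2 := Complex.conj_ofNat 2
  simp [map_div₀, h2]
  ring

theorem EPD_dz_congr {f g : ℂ → ℂ} {z : ℂ} (h : f =ᶠ[𝓝 z] g) : dz f z = dz g z := by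
  unfold dz; rw [h.fderiv_eq]

theorem EPD_cont (u : Bool → ℂ → ℝ) (hu : ∀ j, Continuous (u j)) (j : Bool) : Continuous (Ls (u j)) := by
  have := EPD_cd.continuous
  unfold Ls
  exact (hu j).sub (continuous_const.mul this)

theorem EPD_glue (u : Bool → ℂ → ℝ) (hu : ∀ j z, z ≠ 0 → u j z = u (!j) z⁻¹) (j : Bool) (z : ℂ) (hz : z ≠ 0) :
    Ls (u j) z = Ls (u (!j)) z⁻¹ - 4 * Real.log ‖z‖ := by
  have hn : 0 < ‖z‖ := norm_pos_iff.2 hz
  have h : Real.log (1 + ‖z‖ ^ 2) = Real.log (1 + ‖z⁻¹‖ ^ 2) + 2 * Real.log ‖z‖ := by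
    have : 1 + ‖z‖ ^ 2 = (1 + ‖z⁻¹‖ ^ 2) * ‖z‖ ^ 2 := by
      rw [norm_inv]; field_simp; ring
    rw [this, Real.log_mul (by positivity) (by positivity), Real.log_pow]
    norm_num
  simp only [Ls]
  rw [hu j z hz, h]; ring

/-- The system on an open set from the first order equations. -/
theorem EPD_sys (hLW : LW_stmt) (hLQ : ELQ_stmt) (hLA : LA_stmt) (D : Dat) (u : Bool → ℂ → ℝ) (b g : Bool → ℂ → ℂ)
    (j : Bool) (h1 : ContDiffOn ℝ 2 (u j) Ns) (h2 : ContDiffOn ℝ 2 (b j) Ns) (h3 : ContDiffOn ℝ 2 (g j) Ns)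
    (h : ∀ z ∈ Ns, dzb (b j) z = bet u g j z ∧ dzb (g j) z = phi D u b j z ∧
      dzb (fun w => dz (fun v => (u j v : ℂ)) w) z = (Fd D u b g j z : ℂ)) :
    SY Ns (Wt D.κ) (D.p j) (D.r j) (D.s j) (Ls (u j)) (b j) := by
  have hO := EPD_isOpen
  refine ⟨?_, h2, ?_, ?_⟩
  · unfold Ls
    exact h1.sub (contDiffOn_const.mul EPD_cd.contDiffOn)
  · intro z hz
    have hu : ContDiffAt ℝ 2 (u j) z := h1.contDiffAt (hO.mem_nhds hz)
    have hl : ContDiffAt ℝ 2 (fun w : ℂ => Real.log (1 + ‖w‖ ^ 2)) z := EPD_cd.contDiffAt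
    have e1 : lap (Ls (u j)) z = lap (u j) z - 2 / (1 + ‖z‖ ^ 2) ^ 2 := by
      rw [EPD_Ls, hLA.1 _ _ _ _ _ hu hl, EPD_lap_log hLQ]; ring
    have e2 : lap (u j) z = Fd D u b g j z := by
      have := hLW (u j) z hu
      rw [(h z hz).2.2] at this
      exact_mod_cast this
    rw [e1, e2, (h z hz).1]
    have e3 : ‖bet u g j z‖ ^ 2 = Real.exp (-(Ls (u j) z)) ^ 2 * ‖g j z‖ ^ 2 := by
      unfold bet
      rw [norm_mul, mul_pow, Complex.norm_real, Real.norm_of_nonneg (Real.exp_pos _).le]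
      simp
    rw [e3]
    have e4 : Real.exp (Ls (u j) z) * Real.exp (-(Ls (u j) z)) = 1 := by rw [← Real.exp_add]; simp
    have e5 : Real.exp (Ls (u j) z) * (Real.exp (-(Ls (u j) z)) ^ 2 * ‖g j z‖ ^ 2) = Real.exp (-(Ls (u j) z)) * ‖g j z‖ ^ 2 := by
      calc _ = (Real.exp (Ls (u j) z) * Real.exp (-(Ls (u j) z))) * (Real.exp (-(Ls (u j) z)) * ‖g j z‖ ^ 2) := by ring
        _ = _ := by rw [e4, one_mul]
    rw [e5]
    unfold Fd
    ring
  · intro z hz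
    have e1 : (fun w => (Real.exp (Ls (u j) w) : ℂ) * dzb (b j) w) =ᶠ[𝓝 z] fun w => conj (g j w) := by
      filter_upwards [hO.mem_nhds hz] with w hw
      rw [(h w hw).1]
      unfold bet
      rw [← mul_assoc, ← Complex.ofReal_mul, ← Real.exp_add]
      simp
    rw [EPD_dz_congr e1, EPD_dz_conj ((h3.contDiffAt (hO.mem_nhds hz)).differentiableAt (by norm_num)), (h z hz).2.1]
    unfold phi
    simp

theorem EPD_lsys (hLW : LW_stmt) (D : Dat) (u : Bool → ℂ → ℝ) (b g : Bool → ℂ → ℂ) (u' : Bool → ℂ → ℝ) (b' g' : Bool → ℂ → ℂ)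
    (j : Bool) (h1 : ContDiffOn ℝ 2 (u' j) Ns) (h2 : ContDiffOn ℝ 2 (b' j) Ns) (h3 : ContDiffOn ℝ 2 (g' j) Ns)
    (h0 : ∀ z ∈ Ns, dzb (b j) z = bet u g j z)
    (h : ∀ z ∈ Ns, dzb (b' j) z = bet' u g u' g' j z ∧ dzb (g' j) z = phi' D u b u' b' j z ∧
      dzb (fun w => dz (fun v => (u' j v : ℂ)) w) z = (Fd' D u b g u' b' g' j z : ℂ)) :
    LSY Ns (Wt D.κ) (D.p j) (D.r j) (Ls (u j)) (b j) (u' j) (b' j) := by
  have hO := EPD_isOpen
  refine ⟨h1, h2, ?_, ?_⟩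
  · intro z hz
    have hu : ContDiffAt ℝ 2 (u' j) z := h1.contDiffAt (hO.mem_nhds hz)
    have e2 : lap (u' j) z = Fd' D u b g u' b' g' j z := by
      have := hLW (u' j) z hu
      rw [(h z hz).2.2] at this
      exact_mod_cast this
    rw [e2, h0 z hz, (h z hz).1]
    have e3 : ‖bet u g j z‖ ^ 2 = Real.exp (-(Ls (u j) z)) ^ 2 * ‖g j z‖ ^ 2 := by
      unfold bet
      rw [norm_mul, mul_pow, Complex.norm_real, Real.norm_of_nonneg (Real.exp_pos _).le]
      simp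
    have e4 : Real.exp (Ls (u j) z) * Real.exp (-(Ls (u j) z)) = 1 := by rw [← Real.exp_add]; simp
    have e6 : (conj (bet u g j z) * bet' u g u' g' j z).re =
        Real.exp (-(Ls (u j) z)) ^ 2 * ((conj (g j z) * g' j z).re - u' j z * ‖g j z‖ ^ 2) := by
      unfold bet bet'
      generalize Real.exp (-(Ls (u j) z)) = E
      rw [← Complex.normSq_eq_norm_sq, Complex.normSq_apply]
      simp [Complex.mul_re, Complex.mul_im]
      ring
    rw [e3, e6]
    unfold Fd'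
    have e5 : ∀ X : ℝ, Real.exp (Ls (u j) z) * (Real.exp (-(Ls (u j) z)) ^ 2 * X) = Real.exp (-(Ls (u j) z)) * X := by
      intro X
      calc _ = (Real.exp (Ls (u j) z) * Real.exp (-(Ls (u j) z))) * (Real.exp (-(Ls (u j) z)) * X) := by ring
        _ = _ := by rw [e4, one_mul]
    have e7 : Real.exp (Ls (u j) z) * (2 * (Real.exp (-(Ls (u j) z)) ^ 2 * ((conj (g j z) * g' j z).re - u' j z * ‖g j z‖ ^ 2)) +
        u' j z * (Real.exp (-(Ls (u j) z)) ^ 2 * ‖g j z‖ ^ 2)) =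
        Real.exp (-(Ls (u j) z)) * (2 * (conj (g j z) * g' j z).re - u' j z * ‖g j z‖ ^ 2) := by
      rw [← e5]; ring
    rw [e7]
  · intro z hz
    have e1 : (fun w => (Real.exp (Ls (u j) w) : ℂ) * (dzb (b' j) w + u' j w * dzb (b j) w)) =ᶠ[𝓝 z] fun w => conj (g' j w) := by
      filter_upwards [hO.mem_nhds hz] with w hw
      rw [(h w hw).1, h0 w hw]
      unfold bet bet'
      have e4 : (Real.exp (Ls (u j) w) : ℂ) * (Real.exp (-(Ls (u j) w)) : ℂ) = 1 := by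
        rw [← Complex.ofReal_mul, ← Real.exp_add]; simp
      linear_combination (conj (g' j w)) * e4
    rw [EPD_dz_congr e1, EPD_dz_conj ((h3.contDiffAt (hO.mem_nhds hz)).differentiableAt (by norm_num)), (h z hz).2.1]
    unfold phi'
    simp

theorem EPD (hLW : LW_stmt) (hLA : LA_stmt) (hLQ : ELQ_stmt) (hPA : EPA_stmt) (hPC : EPC_stmt) (hPS : EPS_stmt) (hCH : ECH_stmt)
    (hCL : ECL_stmt) : EPD_stmt := by
  intro D u b g u' b' g' hV hG hL
  have hA := hPA D u b g u' b' g' hV hG hL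
  have hC := hPC D u b g u' b' g' hV hG hL
  have sy : ∀ j, SY Ns (Wt D.κ) (D.p j) (D.r j) (D.s j) (Ls (u j)) (b j) := fun j =>
    EPD_sys hLW hLQ hLA D u b g j (hA j).1.1 (hA j).1.2.1 (hA j).1.2.2.1 (hA j).2.1
  have lsy : ∀ j, LSY Ns (Wt D.κ) (D.p j) (D.r j) (Ls (u j)) (b j) (u' j) (b' j) := fun j =>
    EPD_lsys hLW D u b g u' b' g' j (hA j).2.2.1.1 (hA j).2.2.1.2.1 (hA j).2.2.1.2.2.1 (fun z hz => ((hA j).2.1 z hz).1)
      (hA j).2.2.2
  have hκ : 0 < D.κ := by linarith [hV.hκ]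
  have hB : IsOpen (Metric.ball (0 : ℂ) 1 \ {0}) := Metric.isOpen_ball.sdiff isClosed_singleton
  have hroots : ∀ j d, d ^ 8 = 1 → (SY (Metric.ball 0 1) (Wr D.κ) (fun y => D.p j (psi d y)) (fun y => D.r j (psi d y))
      (fun y => D.s j (psi d y)) (fun y => Ls (u j) (psi d y)) (fun y => b j (psi d y)) ∧
      LSY (Metric.ball 0 1) (Wr D.κ) (fun y => D.p j (psi d y)) (fun y => D.r j (psi d y))
      (fun y => Ls (u j) (psi d y)) (fun y => b j (psi d y)) (fun y => u' j (psi d y)) (fun y => b' j (psi d y))) := by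
    intro j d hd
    obtain ⟨hp0, hpd, hp1, hp2⟩ := hPS d hd
    obtain ⟨hW1, -, hW2⟩ := hp2 D.κ hκ
    obtain ⟨c1, c2, c3, c4⟩ := hC j d hd
    have hpc : ContinuousOn (psi d) (Metric.ball 0 1) := hpd.continuousOn
    have hch := hCH (Metric.ball 0 1 \ {0}) Ns (psi d) (Wt D.κ) (Wr D.κ) (D.p j) (D.r j) (D.s j) (Ls (u j)) (b j) (u' j) (b' j) hB
      EPD_isOpen (hpd.mono sdiff_subset) (fun y hy => (hp1 y hy.1).2.2.2 hy.2) (fun y hy => (hW2 y hy.1).2.2 hy.2) (sy j)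
    have hpr : ContDiffOn ℝ 2 (psi d) (Metric.ball 0 1) := by
      have : ContDiffOn ℂ 2 (psi d) (Metric.ball 0 1) :=
        (hpd.analyticOnNhd Metric.isOpen_ball).contDiffOn_of_completeSpace
      exact this.restrict_scalars ℝ
    have hLc : ContDiffOn ℝ 2 (fun y => Ls (u j) (psi d y)) (Metric.ball 0 1) := by
      unfold Ls
      exact c1.sub (contDiffOn_const.mul (EPD_cd.comp_contDiffOn hpr))
    have hcl := hCL (Wr D.κ) (fun y => D.p j (psi d y)) (fun y => D.r j (psi d y)) (fun y => D.s j (psi d y))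
      (fun y => Ls (u j) (psi d y)) (fun y => b j (psi d y)) (fun y => u' j (psi d y)) (fun y => b' j (psi d y))
      hW1.continuousOn ((hV.hp j).continuous.comp_continuousOn hpc) ((hV.hr j).continuous.comp_continuousOn hpc)
      ((hV.cs j).comp_continuousOn hpc) hLc c2 hch.1
    exact ⟨hcl.1, hcl.2 c3 c4 (hch.2 (lsy j))⟩
  refine ⟨⟨EPD_cont u hG.cu, hG.cb, EPD_glue u hG.gu, hG.gb, sy, fun j d hd => (hroots j d hd).1⟩,
    ⟨hL.cu, hL.cb, hL.gu, hL.gb, lsy, fun j d hd => (hroots j d hd).2⟩⟩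

end

end Pool.Agent.DL
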