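import Pool.Agent.helper22.DL.SpecE2

/-! # Project dl, stage 2: ESC, EPE -/

namespace Pool.Agent.DL

open Matrix Complex MeasureTheory Set Filter Topology
open scoped ComplexOrder Manifold ContDiff ComplexConjugate

noncomputable section

theorem ESC : ESC_stmt := by
  intro D hV τ
  constructor
  · refine ⟨hV.hκ, fun j => (hV.hp j).const_mul _, fun j => (hV.hr j).const_mul _, ?_, ?_, hV.cs, hV.gs, hV.ss, hV.sr⟩
    · intro j z hz
      simp only [Dat.sc]
      rw [hV.gp j z hz]; ring
    · intro j z hz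
      simp only [Dat.sc]
      rw [hV.gr j z hz]; ring
  · refine ⟨hV.hκ, hV.hp, hV.hr, hV.gp, hV.gr, fun j => continuous_const.mul (hV.cs j), ?_,
      fun j => contDiffOn_const.mul (hV.ss j), fun j d hd => contDiffOn_const.mul (hV.sr j d hd)⟩
    intro j z hz
    simp only [Dat.so]
    rw [hV.gs j z hz]; ring

theorem EPE_bet (u : Bool → ℂ → ℝ) (g : Bool → ℂ → ℂ) (j : Bool) : bet' u g (fun _ _ => 0) (fun _ _ => 0) j = fun _ => 0 := by
  funext z; simp [bet']

theorem EPE_phi (D : Dat) (u : Bool → ℂ → ℝ) (b : Bool → ℂ → ℂ) (j : Bool) :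
    phi' D u b (fun _ _ => 0) (fun _ _ => 0) j = fun _ => 0 := by
  funext z; simp [phi', QQ']

theorem EPE_Fd (D : Dat) (u : Bool → ℂ → ℝ) (b g : Bool → ℂ → ℂ) (j : Bool) :
    Fd' D u b g (fun _ _ => 0) (fun _ _ => 0) (fun _ _ => 0) j = fun _ => 0 := by
  funext z; simp [Fd', RR']

theorem EPE : EPE_stmt := by
  intro D u b g hV hG
  refine ⟨fun j => continuous_const, fun j => continuous_const, fun j => continuousOn_const, fun R => ⟨0, ?_⟩, ?_, ?_, ?_, ?_, ?_, ?_⟩
  · intro j z _ _; simp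
  · intro j z _; rfl
  · intro j z _; simp
  · intro j z _ _; simp
  · intro j R _
    rw [EPE_bet]
    refine ⟨integrableOn_zero, fun _ => 0, differentiableOn_const 0, fun z _ _ => ?_⟩
    simp [TC]
  · intro j R _
    rw [EPE_phi]
    refine ⟨integrableOn_zero, fun _ => 0, differentiableOn_const 0, fun z _ _ => ?_⟩
    simp [TC]
  · intro j R _
    rw [EPE_Fd]
    refine ⟨integrableOn_zero, fun _ => 0, differentiableOn_const 0, fun z _ _ => ?_⟩
    simp [TL]

end

end Pool.Agent.DL
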