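import Pool.Agent.helper22.DL.SpecE1

/-! # Project dl, module ERG: `C¹` functions with Hölder continuous `∂̄` derivative -/

namespace Pool.Agent.DL

open Matrix Complex MeasureTheory Set Filter Topology
open scoped ComplexOrder Manifold ContDiff ComplexConjugate

theorem ERG_hol {f : ℂ → ℂ} {z : ℂ} (hf : DifferentiableAt ℝ f z) (h0 : dzb f z = 0) :
    DifferentiableAt ℂ f z := by
  rw [differentiableAt_complex_iff_differentiableAt_real]
  refine ⟨hf, ?_⟩
  unfold dzb at h0
  have h1 : fderiv ℝ f z 1 + I * fderiv ℝ f z I = 0 := by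
    have h2 := congrArg (fun x : ℂ => x * 2) h0
    simpa using h2
  have h2 : I * (fderiv ℝ f z 1 + I * fderiv ℝ f z I) = 0 := by rw [h1, mul_zero]
  rw [mul_add, ← mul_assoc, Complex.I_mul_I] at h2
  rw [smul_eq_mul]
  linear_combination -h2

theorem ERG (hERD : ERD_stmt) : ERG_stmt := by
  intro V φ z₀ ρ M α hρ hα hα1 hV hdV hM hH
  obtain ⟨h1, h2⟩ := hERD φ z₀ ρ M α hρ hα hα1 hM hH
  have hopen : IsOpen (Metric.ball z₀ ρ) := Metric.isOpen_ball
  refine ⟨?_, fun z => V z - TC φ (Metric.ball z₀ ρ) z, ?_, ?_⟩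
  · have hc : ContinuousOn φ (Metric.ball z₀ ρ) := by
      have h3 : ContinuousOn (fderiv ℝ V) (Metric.ball z₀ ρ) :=
        hV.continuousOn_fderiv_of_isOpen hopen le_rfl
      have h4 : ContinuousOn (fun z => dzb V z) (Metric.ball z₀ ρ) := by
        unfold dzb
        apply ContinuousOn.div_const
        apply ContinuousOn.add
        · exact h3.clm_apply continuousOn_const
        · exact continuousOn_const.mul (h3.clm_apply continuousOn_const)
      exact h4.congr fun z hz => (hdV z hz).symm
    have hm : AEStronglyMeasurable φ (volume.restrict (Metric.ball z₀ ρ)) :=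
      hc.aestronglyMeasurable hopen.measurableSet
    have h5 : IntegrableOn (fun _ : ℂ => M) (Metric.ball z₀ ρ) :=
      integrableOn_const (measure_ball_lt_top.ne) (enorm_ne_top)
    refine h5.mono' hm ?_
    filter_upwards [ae_restrict_mem hopen.measurableSet] with z hz
    exact hM z hz
  · intro z hz
    apply DifferentiableAt.differentiableWithinAt
    have hnz : Metric.ball z₀ ρ ∈ 𝓝 z := hopen.mem_nhds hz
    have d1 : DifferentiableAt ℝ V z := (hV.differentiableOn (by norm_num)).differentiableAt hnz
    have d2 : DifferentiableAt ℝ (TC φ (Metric.ball z₀ ρ)) z :=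
      (h1.differentiableOn (by norm_num)).differentiableAt hnz
    apply ERG_hol (d1.sub d2)
    have h3 : dzb (fun z => V z - TC φ (Metric.ball z₀ ρ) z) z =
        dzb V z - dzb (TC φ (Metric.ball z₀ ρ)) z := by
      unfold dzb
      have h4 : fderiv ℝ (fun z => V z - TC φ (Metric.ball z₀ ρ) z) z =
          fderiv ℝ V z - fderiv ℝ (TC φ (Metric.ball z₀ ρ)) z := fderiv_sub d1 d2
      rw [h4]
      simp only [_root_.sub_apply]
      ring
    have h5 : dzb (V - TC φ (Metric.ball z₀ ρ)) z = 0 := by
      show dzb (fun z => V z - TC φ (Metric.ball z₀ ρ) z) z = 0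
      rw [h3, hdV z hz, h2 z hz, sub_self]
    exact h5
  · intro z _
    ring

end Pool.Agent.DL
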