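import Pool.Agent.helper22.DL.SpecE1

/-! # Project dl, module ERI: restriction of a representation by a logarithmic potential -/

namespace Pool.Agent.DL

open Matrix Complex MeasureTheory Set Filter Topology
open scoped ComplexOrder Manifold ContDiff ComplexConjugate

theorem ERI_log (x : ℝ) (hx : 0 ≤ x) : |Real.log x| ≤ x ^ (-1 : ℝ) + x := by
  rw [Real.rpow_neg_one]
  rcases hx.eq_or_lt with h | h
  · rw [← h]
    simp
  · rw [abs_le]
    have h1 : 0 < x⁻¹ := inv_pos.2 h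
    constructor
    · have h2 := Real.log_le_sub_one_of_pos h1
      rw [Real.log_inv] at h2
      linarith
    · have h2 := Real.log_le_sub_one_of_pos h
      linarith

/-- translated version of EKA -/
theorem ERI_trans (hEKA : EKA_stmt) (R : ℝ) (hR : 0 < R) (a z₀ : ℂ) :
    IntegrableOn (fun ξ : ℂ => ‖a - ξ‖ ^ (-1 : ℝ)) (Metric.ball z₀ R) := by
  obtain ⟨C, hC⟩ := hEKA 1 R (by norm_num) (by norm_num) hR
  obtain ⟨h1, -⟩ := hC (a - z₀)
  have hmp : MeasurePreserving (fun ξ : ℂ => ξ - z₀) volume volume :=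
    measurePreserving_sub_right volume z₀
  have hemb : MeasurableEmbedding (fun ξ : ℂ => ξ - z₀) :=
    (Homeomorph.subRight z₀).measurableEmbedding
  have hpre : (fun ξ : ℂ => ξ - z₀) ⁻¹' Metric.ball 0 R = Metric.ball z₀ R := by
    ext ξ
    simp [Metric.mem_ball, dist_eq_norm]
  have hcomp : ((fun ξ : ℂ => ‖a - z₀ - ξ‖ ^ (-1 : ℝ)) ∘ fun ξ : ℂ => ξ - z₀) =
      fun ξ : ℂ => ‖a - ξ‖ ^ (-1 : ℝ) := by
    funext ξ
    simp only [Function.comp_apply]
    rw [sub_sub_sub_cancel_right]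
  have h3 := (hmp.integrableOn_comp_preimage hemb (f := fun ξ : ℂ => ‖a - z₀ - ξ‖ ^ (-1 : ℝ))
    (s := Metric.ball 0 R)).2 h1
  rw [hpre, hcomp] at h3
  exact h3

/-- the logarithmic potential is well defined -/
theorem ERI_int (hEKA : EKA_stmt) (F : ℂ → ℝ) (c z₁ : ℂ) (R ρ ρ' M : ℝ) (hρ' : 0 < ρ')
    (hρ : ρ' < ρ) (hF : IntegrableOn F (Metric.ball c R))
    (hsub : Metric.ball z₁ ρ ⊆ Metric.ball c R)
    (hM : ∀ z ∈ Metric.ball z₁ ρ, |F z| ≤ M) (z : ℂ) (hz : z ∈ Metric.ball z₁ ρ') :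
    IntegrableOn (fun ξ : ℂ => Real.log ‖z - ξ‖ * F ξ) (Metric.ball c R) := by
  have hmlog : Measurable fun ξ : ℂ => Real.log ‖z - ξ‖ := by fun_prop
  have hzn : ‖z - z₁‖ < ρ' := by rwa [Metric.mem_ball, dist_eq_norm] at hz
  have hM0 : 0 ≤ M := (abs_nonneg _).trans (hM z₁ (Metric.mem_ball_self (by linarith)))
  have hsplit : Metric.ball c R = Metric.ball z₁ ρ ∪ (Metric.ball c R \ Metric.ball z₁ ρ) :=
    (Set.union_sdiff_cancel hsub).symm
  have hm1 : MeasurableSet (Metric.ball z₁ ρ) := Metric.isOpen_ball.measurableSet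
  have hm2 : MeasurableSet (Metric.ball c R \ Metric.ball z₁ ρ) :=
    Metric.isOpen_ball.measurableSet.diff hm1
  rw [hsplit]
  apply IntegrableOn.union
  · have h1 : IntegrableOn (fun ξ : ℂ => M * (‖z - ξ‖ ^ (-1 : ℝ) + (ρ + ρ')))
        (Metric.ball z₁ ρ) := by
      apply Integrable.const_mul
      exact (ERI_trans hEKA ρ (by linarith) z z₁).add
        (integrableOn_const (measure_ball_lt_top.ne) (enorm_ne_top))
    refine h1.mono' (hmlog.aestronglyMeasurable.mul (hF.mono_set hsub).aestronglyMeasurable) ?_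
    filter_upwards [ae_restrict_mem hm1] with ξ hξ
    rw [Real.norm_eq_abs, abs_mul]
    have h2 := ERI_log ‖z - ξ‖ (norm_nonneg _)
    have h3 : ‖z - ξ‖ ≤ ρ + ρ' := by
      rw [Metric.mem_ball, dist_eq_norm] at hξ
      have h4 : z - ξ = (z - z₁) - (ξ - z₁) := by ring
      rw [h4]
      refine (norm_sub_le _ _).trans ?_
      linarith
    calc |Real.log ‖z - ξ‖| * |F ξ| ≤ (‖z - ξ‖ ^ (-1 : ℝ) + (ρ + ρ')) * M := by
          apply mul_le_mul (h2.trans (by linarith)) (hM ξ hξ) (abs_nonneg _)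
          have : 0 ≤ ‖z - ξ‖ ^ (-1 : ℝ) := by positivity
          linarith
      _ = _ := by ring
  · set L : ℝ := ‖z - c‖ + R with hL
    have h1 : IntegrableOn (fun ξ : ℂ => ((ρ - ρ') ^ (-1 : ℝ) + L) * |F ξ|)
        (Metric.ball c R \ Metric.ball z₁ ρ) :=
      (hF.mono_set Set.sdiff_subset).abs.const_mul _
    refine h1.mono' (hmlog.aestronglyMeasurable.mul
      (hF.mono_set Set.sdiff_subset).aestronglyMeasurable) ?_
    filter_upwards [ae_restrict_mem hm2] with ξ hξ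
    rw [Real.norm_eq_abs, abs_mul]
    have h2 := ERI_log ‖z - ξ‖ (norm_nonneg _)
    have h3 : ‖z - ξ‖ ≤ L := by
      have h5 := hξ.1
      rw [Metric.mem_ball, dist_eq_norm] at h5
      have h4 : z - ξ = (z - c) - (ξ - c) := by ring
      rw [h4]
      refine (norm_sub_le _ _).trans ?_
      linarith
    have h4 : ρ - ρ' ≤ ‖z - ξ‖ := by
      have h5 := hξ.2
      rw [Metric.mem_ball, dist_eq_norm, not_lt] at h5
      have h6 : ξ - z₁ = (z - z₁) - (z - ξ) := by ring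
      rw [h6] at h5
      have h7 := norm_sub_le (z - z₁) (z - ξ)
      linarith
    have h5 : ‖z - ξ‖ ^ (-1 : ℝ) ≤ (ρ - ρ') ^ (-1 : ℝ) :=
      Real.rpow_le_rpow_of_nonpos (by linarith) h4 (by norm_num)
    exact mul_le_mul_of_nonneg_right (by linarith) (abs_nonneg _)

theorem ERI_q {z z₁ ξ : ℂ} {ρ' : ℝ} (hρ' : 0 < ρ') (hξ : ρ' ≤ ‖z₁ - ξ‖)
    (hz : ‖z - z₁‖ < ρ') : ‖(z - z₁) / (z₁ - ξ)‖ ≤ ‖z - z₁‖ / ρ' ∧ ‖z - z₁‖ / ρ' < 1 := by
  constructor
  · rw [norm_div]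
    exact div_le_div_of_nonneg_left (norm_nonneg _) hρ' hξ
  · rwa [div_lt_one hρ']

/-- the holomorphic part -/
theorem ERI_hol (F : ℂ → ℝ) (S : Set ℂ) (z₁ : ℂ) (ρ' : ℝ) (hρ' : 0 < ρ')
    (hS : ∀ ξ ∈ S, ρ' ≤ ‖z₁ - ξ‖) (hSm : MeasurableSet S) (hF : IntegrableOn F S) :
    (∀ z ∈ Metric.ball z₁ ρ', IntegrableOn
      (fun ξ : ℂ => Complex.log (1 + (z - z₁) / (z₁ - ξ)) * (F ξ : ℂ)) S) ∧
    DifferentiableOn ℂ (fun z => ∫ ξ in S, Complex.log (1 + (z - z₁) / (z₁ - ξ)) * (F ξ : ℂ))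
      (Metric.ball z₁ ρ') := by
  have hFc : AEStronglyMeasurable (fun ξ => (F ξ : ℂ)) (volume.restrict S) :=
    Complex.continuous_ofReal.comp_aestronglyMeasurable hF.aestronglyMeasurable
  have hmeas : ∀ z : ℂ, AEStronglyMeasurable
      (fun ξ : ℂ => Complex.log (1 + (z - z₁) / (z₁ - ξ)) * (F ξ : ℂ)) (volume.restrict S) := by
    intro z
    have h1 : Measurable fun ξ : ℂ => Complex.log (1 + (z - z₁) / (z₁ - ξ)) := by fun_prop
    exact h1.aestronglyMeasurable.mul hFc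
  have hint : ∀ z ∈ Metric.ball z₁ ρ', IntegrableOn
      (fun ξ : ℂ => Complex.log (1 + (z - z₁) / (z₁ - ξ)) * (F ξ : ℂ)) S := by
    intro z hz
    rw [Metric.mem_ball, dist_eq_norm] at hz
    set q := ‖z - z₁‖ / ρ' with hq
    have hq0 : 0 ≤ q := by positivity
    have h1 : IntegrableOn (fun ξ : ℂ => (q ^ 2 * (1 - q)⁻¹ / 2 + q) * |F ξ|) S :=
      hF.abs.const_mul _
    refine h1.mono' (hmeas z) ?_
    filter_upwards [ae_restrict_mem hSm] with ξ hξ
    obtain ⟨h2, h3⟩ := ERI_q hρ' (hS ξ hξ) hz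
    rw [norm_mul, Complex.norm_real, Real.norm_eq_abs]
    apply mul_le_mul_of_nonneg_right _ (abs_nonneg _)
    have h4 := Complex.norm_log_one_add_le (lt_of_le_of_lt h2 h3)
    refine h4.trans ?_
    have h5 : (1 - ‖(z - z₁) / (z₁ - ξ)‖)⁻¹ ≤ (1 - q)⁻¹ := by
      apply inv_anti₀ (by linarith)
      linarith
    have h6 : ‖(z - z₁) / (z₁ - ξ)‖ ^ 2 ≤ q ^ 2 := pow_le_pow_left₀ (norm_nonneg _) h2 2
    have h7 : 0 ≤ (1 - ‖(z - z₁) / (z₁ - ξ)‖)⁻¹ := inv_nonneg.2 (by linarith)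
    have h8 : ‖(z - z₁) / (z₁ - ξ)‖ ^ 2 * (1 - ‖(z - z₁) / (z₁ - ξ)‖)⁻¹ ≤ q ^ 2 * (1 - q)⁻¹ :=
      mul_le_mul h6 h5 h7 (by positivity)
    linarith
  refine ⟨hint, ?_⟩
  intro z hz
  have hzn := hz
  rw [Metric.mem_ball, dist_eq_norm] at hzn
  set r := (‖z - z₁‖ + ρ') / 2 with hr
  have hr1 : ‖z - z₁‖ < r := by rw [hr]; linarith
  have hr2 : r < ρ' := by rw [hr]; linarith
  have hnear : ∀ w ∈ Metric.ball z (r - ‖z - z₁‖), ‖w - z₁‖ < r := by
    intro w hw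
    rw [Metric.mem_ball, dist_eq_norm] at hw
    have h1 : w - z₁ = (w - z) + (z - z₁) := by ring
    rw [h1]
    refine (norm_add_le _ _).trans_lt ?_
    linarith
  have hkey := hasDerivAt_integral_of_dominated_loc_of_deriv_le
    (μ := volume.restrict S) (𝕜 := ℂ) (x₀ := z) (s := Metric.ball z (r - ‖z - z₁‖))
    (F := fun z ξ => Complex.log (1 + (z - z₁) / (z₁ - ξ)) * (F ξ : ℂ))
    (F' := fun z ξ => ((z₁ - ξ)⁻¹ / (1 + (z - z₁) / (z₁ - ξ))) * (F ξ : ℂ))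
    (bound := fun ξ => (ρ' - r)⁻¹ * |F ξ|)
    (Metric.ball_mem_nhds z (by linarith))
    (Eventually.of_forall hmeas) (hint z hz) ?_ ?_ (hF.abs.const_mul _) ?_
  · exact hkey.2.differentiableAt.differentiableWithinAt
  · have h1 : Measurable fun ξ : ℂ => (z₁ - ξ)⁻¹ / (1 + (z - z₁) / (z₁ - ξ)) := by fun_prop
    exact h1.aestronglyMeasurable.mul hFc
  · filter_upwards [ae_restrict_mem hSm] with ξ hξ w hw
    have hw' := hnear w hw
    have h1 : z₁ - ξ ≠ 0 := norm_pos_iff.1 (hρ'.trans_le (hS ξ hξ))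
    have h2 : (z₁ - ξ)⁻¹ / (1 + (w - z₁) / (z₁ - ξ)) = (w - ξ)⁻¹ := by
      have h3 : 1 + (w - z₁) / (z₁ - ξ) = (w - ξ) / (z₁ - ξ) := by
        field_simp
        ring
      rw [h3, div_div_eq_mul_div, inv_mul_cancel₀ h1, one_div]
    rw [h2, norm_mul, Complex.norm_real, Real.norm_eq_abs, norm_inv]
    apply mul_le_mul_of_nonneg_right _ (abs_nonneg _)
    apply inv_anti₀ (by linarith)
    have h3 : z₁ - ξ = (w - ξ) - (w - z₁) := by ring
    have h4 := norm_sub_le (w - ξ) (w - z₁)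
    rw [← h3] at h4
    have h5 := hS ξ hξ
    linarith
  · filter_upwards [ae_restrict_mem hSm] with ξ hξ w hw
    have hw' := hnear w hw
    have h1 : z₁ - ξ ≠ 0 := norm_pos_iff.1 (hρ'.trans_le (hS ξ hξ))
    obtain ⟨h2, h3⟩ := ERI_q hρ' (hS ξ hξ) (hw'.trans hr2)
    have h4 : 1 + (w - z₁) / (z₁ - ξ) ∈ Complex.slitPlane :=
      Complex.mem_slitPlane_of_norm_lt_one (lt_of_le_of_lt h2 h3)
    have h5 : HasDerivAt (fun w : ℂ => 1 + (w - z₁) / (z₁ - ξ)) ((z₁ - ξ)⁻¹) w := by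
      have h6 := (((hasDerivAt_id w).sub_const z₁).div_const (z₁ - ξ)).const_add 1
      simpa [one_div] using h6
    exact (h5.clog h4).mul_const _

theorem ERI (hEKA : EKA_stmt) : ERI_stmt := by
  intro u F c z₁ R ρ ρ' M h hρ' hρ hsub hF hM hh hu
  set S : Set ℂ := Metric.ball c R \ Metric.ball z₁ ρ' with hSdef
  have hsub' : Metric.ball z₁ ρ' ⊆ Metric.ball c R :=
    (Metric.ball_subset_ball hρ.le).trans hsub
  have hSm : MeasurableSet S :=
    Metric.isOpen_ball.measurableSet.diff Metric.isOpen_ball.measurableSet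
  have hS : ∀ ξ ∈ S, ρ' ≤ ‖z₁ - ξ‖ := by
    intro ξ hξ
    have h1 := hξ.2
    rw [Metric.mem_ball, dist_eq_norm, not_lt, norm_sub_rev] at h1
    exact h1
  have hFS : IntegrableOn F S := hF.mono_set Set.sdiff_subset
  obtain ⟨hint, hhol⟩ := ERI_hol F S z₁ ρ' hρ' hS hSm hFS
  refine ⟨fun z => h z + (2 / Real.pi : ℂ) *
    (((∫ ξ in S, Real.log ‖z₁ - ξ‖ * F ξ : ℝ) : ℂ) +
      ∫ ξ in S, Complex.log (1 + (z - z₁) / (z₁ - ξ)) * (F ξ : ℂ)), ?_, ?_⟩
  · exact (hh.mono hsub').add ((hhol.const_add _).const_mul _)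
  · intro z hz
    have hi := ERI_int hEKA F c z₁ R ρ ρ' M hρ' hρ hF hsub hM z hz
    have hi1 := ERI_int hEKA F c z₁ R ρ ρ' M hρ' hρ hF hsub hM z₁ (Metric.mem_ball_self hρ')
    rw [hu z (Metric.ball_subset_ball hρ.le hz)]
    have hsplit : Metric.ball c R = Metric.ball z₁ ρ' ∪ S := (Set.union_sdiff_cancel hsub').symm
    have h1 : TL F (Metric.ball c R) z = TL F (Metric.ball z₁ ρ') z +
        (2 / Real.pi) * ∫ ξ in S, Real.log ‖z - ξ‖ * F ξ := by
      unfold TL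
      rw [← mul_add]
      congr 1
      rw [hsplit] at hi ⊢
      rw [setIntegral_union Set.disjoint_sdiff_right hSm (hi.mono_set Set.subset_union_left)
        (hi.mono_set Set.subset_union_right)]
    have h2 : ∫ ξ in S, Real.log ‖z - ξ‖ * F ξ = (∫ ξ in S, Real.log ‖z₁ - ξ‖ * F ξ) +
        (∫ ξ in S, Complex.log (1 + (z - z₁) / (z₁ - ξ)) * (F ξ : ℂ)).re := by
      have h3 : (∫ ξ in S, Complex.log (1 + (z - z₁) / (z₁ - ξ)) * (F ξ : ℂ)).re =
          ∫ ξ in S, (Complex.log (1 + (z - z₁) / (z₁ - ξ)) * (F ξ : ℂ)).re := by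
        have := integral_re (hint z hz)
        exact this.symm
      have h7 : ∫ ξ in S, (Real.log ‖z₁ - ξ‖ * F ξ +
          (Complex.log (1 + (z - z₁) / (z₁ - ξ)) * (F ξ : ℂ)).re) =
          (∫ ξ in S, Real.log ‖z₁ - ξ‖ * F ξ) +
          ∫ ξ in S, (Complex.log (1 + (z - z₁) / (z₁ - ξ)) * (F ξ : ℂ)).re :=
        integral_add (hi1.mono_set Set.sdiff_subset) (hint z hz).re
      rw [h3, ← h7]
      apply setIntegral_congr_fun hSm
      intro ξ hξ
      have hz1 : z₁ - ξ ≠ 0 := norm_pos_iff.1 (hρ'.trans_le (hS ξ hξ))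
      have hzn := hz
      rw [Metric.mem_ball, dist_eq_norm] at hzn
      have hz2 : z - ξ ≠ 0 := by
        intro h0
        have h4 : z₁ - ξ = -(z - z₁) := by
          have : z = ξ := sub_eq_zero.1 h0
          rw [this]
          ring
        have h5 := hS ξ hξ
        rw [h4, norm_neg] at h5
        linarith
      have h4 : 1 + (z - z₁) / (z₁ - ξ) = (z - ξ) / (z₁ - ξ) := by
        field_simp
        ring
      show Real.log ‖z - ξ‖ * F ξ = Real.log ‖z₁ - ξ‖ * F ξ +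
        (Complex.log (1 + (z - z₁) / (z₁ - ξ)) * (F ξ : ℂ)).re
      rw [Complex.re_mul_ofReal, Complex.log_re, h4, norm_div,
        Real.log_div (norm_ne_zero_iff.2 hz2) (norm_ne_zero_iff.2 hz1)]
      ring
    rw [h1, h2]
    have h5 : ((2 / Real.pi : ℂ) * (((∫ ξ in S, Real.log ‖z₁ - ξ‖ * F ξ : ℝ) : ℂ) +
        ∫ ξ in S, Complex.log (1 + (z - z₁) / (z₁ - ξ)) * (F ξ : ℂ))).re =
        (2 / Real.pi) * ((∫ ξ in S, Real.log ‖z₁ - ξ‖ * F ξ) +
        (∫ ξ in S, Complex.log (1 + (z - z₁) / (z₁ - ξ)) * (F ξ : ℂ)).re) := by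
      have h6 : (2 / Real.pi : ℂ) = ((2 / Real.pi : ℝ) : ℂ) := by push_cast; rfl
      rw [h6, Complex.re_ofReal_mul, Complex.add_re, Complex.ofReal_re]
    rw [Complex.add_re, h5]
    ring

end Pool.Agent.DL
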