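import Pool.Agent.helper22.DL.SpecE2

/-! # Project dl, stage 2: ESA, functional form of the scalar equation -/

namespace Pool.Agent.DL

open Matrix Complex MeasureTheory Set Filter Topology
open scoped ComplexOrder Manifold ContDiff ComplexConjugate

noncomputable section

theorem ESA_prc : Continuous pr := by
  apply Continuous.subtype_mk
  refine continuous_id.div (by fun_prop) fun z => ?_
  have : 0 < max 1 ‖z‖ := lt_of_lt_of_le one_pos (le_max_left _ _)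
  exact_mod_cast this.ne'

theorem ESA_pr {z : ℂ} (hz : z ∈ Dk) : ((pr z : Dk) : ℂ) = z := by
  have h : ‖z‖ ≤ 1 := by simpa using hz
  simp [pr, max_eq_left h]

theorem ESA_prD (z : Dk) : pr (z : ℂ) = z := Subtype.ext (ESA_pr z.2)

theorem ESA_W (hD : EKD_stmt) (κ : ℝ) : IntegrableOn (Wt κ) Dk := by
  obtain ⟨C, hC, -, -, ⟨h, -⟩, -⟩ := hD 2 (by norm_num)
  have h1 : IntegrableOn (fun ξ : ℂ => Wt 1 ξ) Dk :=
    h.mono_set (Metric.closedBall_subset_ball (by norm_num))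
  have h2 : Wt κ = fun ξ => κ * Wt 1 ξ := by
    funext ξ; simp only [Wt]; ring
  rw [h2]
  exact h1.const_mul κ

theorem ESA_fun (hD : EKD_stmt) (κ : ℝ) : ∃ M0 : C(Dk, ℝ) →L[ℝ] ℝ, ∀ f, M0 f = ∫ ξ in Dk, Wt κ ξ * f (pr ξ) := by
  have hW := ESA_W hD κ
  have hi : ∀ f : C(Dk, ℝ), IntegrableOn (fun ξ => Wt κ ξ * f (pr ξ)) Dk := by
    intro f
    refine Integrable.mul_bdd (c := ‖f‖) hW ((f.continuous.comp ESA_prc).aestronglyMeasurable) ?_
    exact Eventually.of_forall fun ξ => f.norm_coe_le_norm (pr ξ)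
  let L : C(Dk, ℝ) →ₗ[ℝ] ℝ :=
    { toFun := fun f => ∫ ξ in Dk, Wt κ ξ * f (pr ξ)
      map_add' := by
        intro f g
        rw [← integral_add (hi f) (hi g)]
        refine integral_congr_ae (Eventually.of_forall fun ξ => ?_)
        simp only [ContinuousMap.add_apply]; ring
      map_smul' := by
        intro c f
        simp only [RingHom.id_apply, smul_eq_mul]
        rw [← integral_const_mul]
        refine integral_congr_ae (Eventually.of_forall fun ξ => ?_)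
        simp only [ContinuousMap.smul_apply, smul_eq_mul]; ring }
  refine ⟨L.mkContinuous (∫ ξ in Dk, ‖Wt κ ξ‖) ?_, fun f => rfl⟩
  intro f
  change ‖∫ ξ in Dk, Wt κ ξ * f (pr ξ)‖ ≤ _
  calc ‖∫ ξ in Dk, Wt κ ξ * f (pr ξ)‖ ≤ ∫ ξ in Dk, ‖Wt κ ξ * f (pr ξ)‖ := norm_integral_le_integral_norm _
    _ ≤ ∫ ξ in Dk, ‖Wt κ ξ‖ * ‖f‖ := by
        refine integral_mono (hi f).norm (hW.norm.mul_const _) fun ξ => ?_
        rw [norm_mul]
        exact mul_le_mul_of_nonneg_left (f.norm_coe_le_norm (pr ξ)) (norm_nonneg _)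
    _ = _ := by rw [integral_mul_const]

/-- constants -/
def ESA_cst : ℝ →L[ℝ] (Bool → C(Dk, ℝ)) :=
  ContinuousLinearMap.pi fun _ => (ContinuousLinearMap.id ℝ ℝ).smulRight (1 : C(Dk, ℝ))

theorem ESA_cst_apply (c : ℝ) (j : Bool) (z : Dk) : ESA_cst c j z = c := by
  simp [ESA_cst]

/-- the pair `(τ, u_j)` -/
def ESA_P (j : Bool) : (ℝ × Y1) →L[ℝ] C(Dk, ℝ × ℝ) :=
  ((ContinuousLinearMap.inl ℝ ℝ ℝ).compLeftContinuous ℝ Dk).comp
    (((ContinuousLinearMap.id ℝ ℝ).smulRight (1 : C(Dk, ℝ))).comp (ContinuousLinearMap.fst ℝ ℝ Y1)) +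
  ((ContinuousLinearMap.inr ℝ ℝ ℝ).compLeftContinuous ℝ Dk).comp
    ((ContinuousLinearMap.proj (R := ℝ) (φ := fun _ : Bool => C(Dk, ℝ)) j).comp
      ((ContinuousLinearMap.fst ℝ (Bool → C(Dk, ℝ)) ℝ).comp (ContinuousLinearMap.snd ℝ ℝ Y1)))

theorem ESA_P_apply (j : Bool) (x : ℝ × Y1) (z : Dk) : ESA_P j x z = (x.1, x.2.1 j z) := by
  simp [ESA_P]

/-- the nonlinearity -/
def ESA_G (D : Dat) (j : Bool) (z : Dk) (e : ℝ × ℝ) : ℝ :=
  Real.exp (e.2 - 2 * Real.log (1 + ‖(z : ℂ)‖ ^ 2)) * ‖D.p j z‖ ^ 2 - Real.exp (-(e.2 - 2 * Real.log (1 + ‖(z : ℂ)‖ ^ 2))) +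
    (1 - e.1) * D.s j z + 2 * ‖1 - (z : ℂ) ^ 8‖ / (D.κ * (1 + ‖(z : ℂ)‖ ^ 2) ^ 2)

/-- its derivative -/
def ESA_G' (D : Dat) (j : Bool) (z : Dk) (e : ℝ × ℝ) : ℝ × ℝ →L[ℝ] ℝ :=
  (Real.exp (e.2 - 2 * Real.log (1 + ‖(z : ℂ)‖ ^ 2)) * ‖D.p j z‖ ^ 2 +
    Real.exp (-(e.2 - 2 * Real.log (1 + ‖(z : ℂ)‖ ^ 2)))) • ContinuousLinearMap.snd ℝ ℝ ℝ -
  (D.s j z) • ContinuousLinearMap.fst ℝ ℝ ℝ

theorem ESA_logc : Continuous fun z : ℂ => Real.log (1 + ‖z‖ ^ 2) := by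
  apply Continuous.log (by fun_prop)
  intro z; positivity

theorem ESA_Gc (D : Dat) (hV : D.Valid) (j : Bool) : Continuous (fun x : Dk × (ℝ × ℝ) => ESA_G D j x.1 x.2) := by
  have h1 : Continuous fun x : Dk × (ℝ × ℝ) => Real.log (1 + ‖((x.1 : Dk) : ℂ)‖ ^ 2) :=
    ESA_logc.comp (continuous_subtype_val.comp continuous_fst)
  have h2 : Continuous fun x : Dk × (ℝ × ℝ) => D.p j (x.1 : ℂ) :=
    (hV.hp j).continuous.comp (continuous_subtype_val.comp continuous_fst)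
  have h3 : Continuous fun x : Dk × (ℝ × ℝ) => D.s j (x.1 : ℂ) :=
    (hV.cs j).comp (continuous_subtype_val.comp continuous_fst)
  have hκ : 0 < D.κ := by linarith [hV.hκ]
  have h4 : Continuous fun x : Dk × (ℝ × ℝ) =>
      2 * ‖1 - ((x.1 : Dk) : ℂ) ^ 8‖ / (D.κ * (1 + ‖((x.1 : Dk) : ℂ)‖ ^ 2) ^ 2) := by
    refine Continuous.div (by fun_prop) (by fun_prop) fun x => ?_
    positivity
  unfold ESA_G
  exact (((((Real.continuous_exp.comp ((continuous_snd.comp continuous_snd).sub (continuous_const.mul h1))).mul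
    (h2.norm.pow 2))).sub (Real.continuous_exp.comp ((continuous_snd.comp continuous_snd).sub (continuous_const.mul h1)).neg)).add
    ((continuous_const.sub (continuous_fst.comp continuous_snd)).mul h3)).add h4

theorem ESA_Gc' (D : Dat) (hV : D.Valid) (j : Bool) : Continuous (fun x : Dk × (ℝ × ℝ) => ESA_G' D j x.1 x.2) := by
  have h1 : Continuous fun x : Dk × (ℝ × ℝ) => Real.log (1 + ‖((x.1 : Dk) : ℂ)‖ ^ 2) :=
    ESA_logc.comp (continuous_subtype_val.comp continuous_fst)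
  have h2 : Continuous fun x : Dk × (ℝ × ℝ) => D.p j (x.1 : ℂ) :=
    (hV.hp j).continuous.comp (continuous_subtype_val.comp continuous_fst)
  have h3 : Continuous fun x : Dk × (ℝ × ℝ) => D.s j (x.1 : ℂ) :=
    (hV.cs j).comp (continuous_subtype_val.comp continuous_fst)
  unfold ESA_G'
  exact (((Real.continuous_exp.comp ((continuous_snd.comp continuous_snd).sub (continuous_const.mul h1))).mul
    (h2.norm.pow 2)).add (Real.continuous_exp.comp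
      ((continuous_snd.comp continuous_snd).sub (continuous_const.mul h1)).neg)).smul continuous_const |>.sub
    (h3.smul continuous_const)

theorem ESA_Gd (D : Dat) (j : Bool) (z : Dk) (e : ℝ × ℝ) : HasFDerivAt (ESA_G D j z) (ESA_G' D j z e) e := by
  have h0 : HasFDerivAt (fun e : ℝ × ℝ => e.2 - 2 * Real.log (1 + ‖(z : ℂ)‖ ^ 2)) (ContinuousLinearMap.snd ℝ ℝ ℝ) e :=
    hasFDerivAt_snd.sub_const _
  have h1 := h0.exp.mul_const (‖D.p j z‖ ^ 2)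
  have h2 := h0.neg.exp
  have h3 : HasFDerivAt (fun e : ℝ × ℝ => (1 - e.1) * D.s j z) (-(D.s j z) • ContinuousLinearMap.fst ℝ ℝ ℝ) e := by
    have := (hasFDerivAt_fst (𝕜 := ℝ) (p := e)).const_sub (1 : ℝ) |>.mul_const (D.s j z)
    refine this.congr_fderiv ?_
    ext <;> simp
  have h4 := ((h1.sub h2).add h3).add_const (2 * ‖1 - (z : ℂ) ^ 8‖ / (D.κ * (1 + ‖(z : ℂ)‖ ^ 2) ^ 2))
  refine (h4.congr_of_eventuallyEq (Eventually.of_forall fun e => rfl)).congr_fderiv ?_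
  ext <;> simp [ESA_G'] <;> ring

theorem ESA_ae (hC : EKC_stmt) : ∀ᵐ ξ ∂(volume.restrict Dk), ξ ∈ Dk ∧ ξ ^ 8 ≠ 1 := by
  have h1 : ∀ᵐ ξ ∂(volume.restrict Dk), ξ ∈ Dk := ae_restrict_mem measurableSet_closedBall
  have h2 : ∀ᵐ ξ ∂(volume.restrict Dk), ¬ (ξ ^ 8 = 1) := by
    refine ae_restrict_of_ae ?_
    rw [ae_iff]
    simpa using hC.2.2.1
  filter_upwards [h1, h2] with ξ a b using ⟨a, b⟩

theorem ESA_RR (p : ℂ) (L : ℝ) : RR p 0 L 0 = Real.exp L * ‖p‖ ^ 2 - Real.exp (-L) := by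
  simp [RR, xx, yy]

theorem ESA_QQ (p : ℂ) (L : ℝ) : QQ p 0 L 0 = 0 := by
  simp [QQ, yy]

theorem ESA_RR' (p : ℂ) (L L' : ℝ) : RR' p 0 L 0 L' 0 = (Real.exp L * ‖p‖ ^ 2 + Real.exp (-L)) * L' := by
  simp [RR', xx, yy]; ring

theorem ESA_QQ' (p : ℂ) (L L' : ℝ) : QQ' p 0 L 0 L' 0 = 0 := by
  simp [QQ', yy]

theorem ESA_phi (D : Dat) (hr : ∀ j z, D.r j z = 0) (u : Bool → ℂ → ℝ) : phi D u zf = zf := by
  funext j z
  simp [phi, hr, ESA_QQ, zf]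

theorem ESA_phi' (D : Dat) (hr : ∀ j z, D.r j z = 0) (u u' : Bool → ℂ → ℝ) : phi' D u zf u' zf = zf := by
  funext j z
  simp [phi', hr, ESA_QQ', zf]

theorem ESA_bet (u : Bool → ℂ → ℝ) : bet u zf = zf := by
  funext j z
  simp [bet, zf]

theorem ESA_bet' (u u' : Bool → ℂ → ℝ) : bet' u zf u' zf = zf := by
  funext j z
  simp [bet', zf]

theorem ESA_TG (j : Bool) (z : ℂ) : TG zf j z = 0 := by simp [TG, zf]
theorem ESA_TB (j : Bool) (z : ℂ) : TB zf j z = 0 := by simp [TB, zf]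
theorem ESA_Pq (j : Bool) (z : ℂ) : Pq 0 j z = 0 := by cases j <;> simp [Pq]

theorem ESA_dens (D : Dat) (hV : D.Valid) (hr : ∀ j z, D.r j z = 0) (σ : ℝ) (u : Bool → ℂ → ℝ) (j : Bool) (ξ : ℂ) (hξ : ξ ^ 8 ≠ 1) :
    Fd (D.so σ) u zf zf j ξ = Wt D.κ ξ * (Real.exp (Ls (u j) ξ) * ‖D.p j ξ‖ ^ 2 - Real.exp (-(Ls (u j) ξ)) +
      σ * D.s j ξ + 2 * ‖1 - ξ ^ 8‖ / (D.κ * (1 + ‖ξ‖ ^ 2) ^ 2)) := by
  have hκ : D.κ ≠ 0 := by linarith [hV.hκ]
  have hn : ‖1 - ξ ^ 8‖ ≠ 0 := by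
    rw [norm_ne_zero_iff, sub_ne_zero]; exact fun h => hξ h.symm
  have hp : (1 + ‖ξ‖ ^ 2) ^ 2 ≠ 0 := by positivity
  have e1 : Fd (D.so σ) u zf zf j ξ = Wt D.κ ξ * (RR (D.p j ξ) 0 (Ls (u j) ξ) 0 + σ * D.s j ξ) + 2 / (1 + ‖ξ‖ ^ 2) ^ 2 := by
    simp only [Fd, Dat.so, zf, norm_zero, hr]
    ring
  rw [e1, ESA_RR, mul_add (Wt D.κ ξ) _ (2 * ‖1 - ξ ^ 8‖ / (D.κ * (1 + ‖ξ‖ ^ 2) ^ 2))]
  congr 1
  unfold Wt
  field_simp

theorem ESA_dens' (D : Dat) (hr : ∀ j z, D.r j z = 0) (σ : ℝ) (u u' : Bool → ℂ → ℝ) (j : Bool) (ξ : ℂ) :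
    Fd' (D.so σ) u zf zf u' zf zf j ξ = Wt D.κ ξ * ((Real.exp (Ls (u j) ξ) * ‖D.p j ξ‖ ^ 2 + Real.exp (-(Ls (u j) ξ))) *
      u' j ξ) := by
  simp only [Fd', Dat.so, zf, norm_zero, hr]
  rw [ESA_RR']
  simp

theorem ESA_TU (hC : EKC_stmt) {F G : Bool → ℂ → ℝ} (h : ∀ j, ∀ ξ ∈ Dk, ξ ^ 8 ≠ 1 → F j ξ = G j ξ) (j : Bool) (z : ℂ) :
    TU F j z = TU G j z := by
  unfold TU
  congr 2
  · refine integral_congr_ae ?_
    filter_upwards [ESA_ae hC] with ξ hξ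
    rw [h j ξ hξ.1 hξ.2]
  · refine integral_congr_ae ?_
    filter_upwards [ESA_ae hC] with ξ hξ
    rw [h (!j) ξ hξ.1 hξ.2]

theorem ESA_int (hC : EKC_stmt) {F G : ℂ → ℝ} (h : ∀ ξ ∈ Dk, ξ ^ 8 ≠ 1 → F ξ = G ξ) : ∫ ξ in Dk, F ξ = ∫ ξ in Dk, G ξ := by
  refine integral_congr_ae ?_
  filter_upwards [ESA_ae hC] with ξ hξ
  rw [h ξ hξ.1 hξ.2]

theorem ESA (hKT : EKT_stmt) (hD : EKD_stmt) (hC : EKC_stmt) (hN : EFN_stmt) : ESA_stmt := by
  intro D hV hr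
  obtain ⟨-, -, TUo, -, hTc, -, -, hTU⟩ := hKT D.κ
  obtain ⟨M0, hM0⟩ := ESA_fun hD D.κ
  choose S hS1 hS2 hS3 hS4 using fun j => hN Dk (ℝ × ℝ) ℝ (ESA_G D j) (ESA_G' D j) (ESA_Gc D hV j) (ESA_Gc' D hV j)
    (ESA_Gd D j)
  set Fh : ℝ × Y1 → (Bool → C(Dk, ℝ)) := fun x j => S j (ESA_P j x) with hFh
  set ML : (Bool → C(Dk, ℝ)) →L[ℝ] ℝ := M0.comp (ContinuousLinearMap.proj (R := ℝ) (φ := fun _ : Bool => C(Dk, ℝ)) false) +
    M0.comp (ContinuousLinearMap.proj (R := ℝ) (φ := fun _ : Bool => C(Dk, ℝ)) true) with hML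
  have hMLa : ∀ F, ML F = M0 (F false) + M0 (F true) := fun F => by simp [hML]
  set N : ℝ × Y1 → (Bool → C(Dk, ℝ)) × ℝ := fun x => (Fh x, x.2.2 + ML (Fh x)) with hNd
  set T : ((Bool → C(Dk, ℝ)) × ℝ) →L[ℝ] Y1 :=
    (TUo.comp (ContinuousLinearMap.fst ℝ (Bool → C(Dk, ℝ)) ℝ) + ESA_cst.comp (ContinuousLinearMap.snd ℝ (Bool → C(Dk, ℝ)) ℝ)).prod
      (ContinuousLinearMap.snd ℝ (Bool → C(Dk, ℝ)) ℝ) with hT
  have hTa : ∀ F c, T (F, c) = (TUo F + ESA_cst c, c) := fun F c => by simp [hT]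
  -- value of `Fh`
  have hFv : ∀ x j (z : Dk), Fh x j z = ESA_G D j z (x.1, x.2.1 j z) := by
    intro x j z
    simp only [hFh]
    rw [hS2, ESA_P_apply]
  have hFcd : ContDiff ℝ 1 Fh := contDiff_pi.2 fun j => (hS1 j).comp (ESA_P j).contDiff
  have hFd : ∀ x v j (z : Dk), (fderiv ℝ Fh x v) j z = ESA_G' D j z (x.1, x.2.1 j z) (v.1, v.2.1 j z) := by
    intro x v j z
    have h1 : HasFDerivAt (fun x => Fh x j) ((fderiv ℝ (S j) (ESA_P j x)).comp (ESA_P j)) x :=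
      (((hS1 j).differentiable one_ne_zero) (ESA_P j x)).hasFDerivAt.comp x (ESA_P j).hasFDerivAt
    have h2 : HasFDerivAt Fh (fderiv ℝ Fh x) x := ((hFcd.differentiable one_ne_zero) x).hasFDerivAt
    have h3 := (hasFDerivAt_pi'.1 h2) j
    have h4 := h3.unique h1
    have h5 : (fderiv ℝ Fh x v) j = (fderiv ℝ (S j) (ESA_P j x)) (ESA_P j v) := by
      have := congrArg (fun A => A v) h4
      simpa using this
    rw [h5, hS3, ESA_P_apply, ESA_P_apply]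
  have hNcd : ContDiff ℝ 1 N := hFcd.prodMk ((contDiff_snd.comp contDiff_snd).add (ML.contDiff.comp hFcd))
  have hNf : ∀ x v, fderiv ℝ N x v = (fderiv ℝ Fh x v, v.2.2 + ML (fderiv ℝ Fh x v)) := by
    intro x v
    have h2 : HasFDerivAt Fh (fderiv ℝ Fh x) x := ((hFcd.differentiable one_ne_zero) x).hasFDerivAt
    have h3 : HasFDerivAt (fun x : ℝ × Y1 => x.2.2) ((ContinuousLinearMap.snd ℝ (Bool → C(Dk, ℝ)) ℝ).comp
      (ContinuousLinearMap.snd ℝ ℝ Y1)) x :=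
      ((ContinuousLinearMap.snd ℝ (Bool → C(Dk, ℝ)) ℝ).comp (ContinuousLinearMap.snd ℝ ℝ Y1)).hasFDerivAt
    have h4 : HasFDerivAt N _ x := h2.prodMk (h3.add (ML.hasFDerivAt.comp x h2))
    rw [h4.fderiv]
    simp
  -- the density of a fixed point
  have hdens : ∀ (τ : ℝ) (y : Y1) (u : Bool → ℂ → ℝ), (∀ j (z : Dk), y.1 j z = u j z) → ∀ j, ∀ ξ ∈ Dk, ξ ^ 8 ≠ 1 →
      Fd (D.so (1 - τ)) u zf zf j ξ = Wt D.κ ξ * Fh (τ, y) j (pr ξ) := by
    intro τ y u hu j ξ hξ h8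
    rw [ESA_dens D hV hr (1 - τ) u j ξ h8, hFv]
    have : y.1 j (pr ξ) = u j ξ := by rw [hu, ESA_pr hξ]
    simp only [ESA_G, this, ESA_pr hξ, Ls]
  refine ⟨(Bool → C(Dk, ℝ)) × ℝ, inferInstance, inferInstance, T, N, ?_, hNcd, ?_, ?_, ?_⟩
  · -- compact
    have c1 : IsCompactOperator (TUo.comp (ContinuousLinearMap.fst ℝ (Bool → C(Dk, ℝ)) ℝ)) := hTc.comp_clm _
    have cid : IsCompactOperator (ContinuousLinearMap.id ℝ ℝ) := by
      exact isCompactOperator_id_iff_locallyCompactSpace.2 inferInstance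
    have c2 : IsCompactOperator (ESA_cst.comp (ContinuousLinearMap.snd ℝ (Bool → C(Dk, ℝ)) ℝ)) :=
      (cid.comp_clm (ContinuousLinearMap.snd ℝ (Bool → C(Dk, ℝ)) ℝ)).clm_comp ESA_cst
    have c3 : IsCompactOperator (ContinuousLinearMap.snd ℝ (Bool → C(Dk, ℝ)) ℝ) :=
      cid.comp_clm (ContinuousLinearMap.snd ℝ (Bool → C(Dk, ℝ)) ℝ)
    have e : (T : ((Bool → C(Dk, ℝ)) × ℝ) → Y1) = fun x => (ContinuousLinearMap.inl ℝ (Bool → C(Dk, ℝ)) ℝ)
        ((TUo.comp (ContinuousLinearMap.fst ℝ (Bool → C(Dk, ℝ)) ℝ) +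
          ESA_cst.comp (ContinuousLinearMap.snd ℝ (Bool → C(Dk, ℝ)) ℝ)) x) +
        (ContinuousLinearMap.inr ℝ (Bool → C(Dk, ℝ)) ℝ) ((ContinuousLinearMap.snd ℝ (Bool → C(Dk, ℝ)) ℝ) x) := by
      funext x
      simp [hT]
    rw [e]
    exact ((c1.add c2).clm_comp (ContinuousLinearMap.inl ℝ (Bool → C(Dk, ℝ)) ℝ)).add
      (c3.clm_comp (ContinuousLinearMap.inr ℝ (Bool → C(Dk, ℝ)) ℝ))
  · -- bounded
    intro M
    choose B hB using fun j => hS4 j (‖ESA_P j‖ * max 1 M)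
    have hPb : ∀ τ ∈ Icc (0 : ℝ) 1, ∀ y : Y1, ‖y‖ ≤ M → ∀ j, ‖ESA_P j (τ, y)‖ ≤ ‖ESA_P j‖ * max 1 M := by
      intro τ hτ y hy j
      refine ((ESA_P j).le_opNorm _).trans (mul_le_mul_of_nonneg_left ?_ (norm_nonneg _))
      refine norm_prod_le_iff.2 ⟨?_, hy.trans (le_max_right _ _)⟩
      rw [Real.norm_of_nonneg hτ.1]
      exact hτ.2.trans (le_max_left _ _)
    have hFb : ∀ τ ∈ Icc (0 : ℝ) 1, ∀ y : Y1, ‖y‖ ≤ M → ‖Fh (τ, y)‖ ≤ max (max (B false) (B true)) 0 := by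
      intro τ hτ y hy
      refine (pi_norm_le_iff_of_nonneg (le_max_right _ _)).2 fun j => ?_
      refine (hB j _ (hPb τ hτ y hy j)).trans ?_
      cases j
      · exact (le_max_left _ _).trans (le_max_left _ _)
      · exact (le_max_right _ _).trans (le_max_left _ _)
    refine ⟨max (max (max (B false) (B true)) 0) (M + ‖ML‖ * max (max (B false) (B true)) 0), fun τ hτ y hy => ?_⟩
    refine norm_prod_le_iff.2 ⟨(hFb τ hτ y hy).trans (le_max_left _ _), ?_⟩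
    refine le_trans ?_ (le_max_right _ _)
    change ‖y.2 + ML (Fh (τ, y))‖ ≤ _
    refine (norm_add_le _ _).trans (add_le_add ((norm_prod_le_iff.1 (le_refl ‖y‖)).2.trans hy) ?_)
    exact (ML.le_opNorm _).trans (mul_le_mul_of_nonneg_left (hFb τ hτ y hy) (norm_nonneg _))
  · -- fixed points
    intro τ hτ y hy
    have hy' : TUo (Fh (τ, y)) + ESA_cst (y.2 + ML (Fh (τ, y))) = y.1 ∧ y.2 + ML (Fh (τ, y)) = y.2 := by
      have := hTa (Fh (τ, y)) (y.2 + ML (Fh (τ, y)))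
      change T (Fh (τ, y), y.2 + ML (Fh (τ, y))) = y at hy
      rw [this] at hy
      exact ⟨congrArg Prod.fst hy, congrArg Prod.snd hy⟩
    obtain ⟨hy1, hy2⟩ := hy'
    have hm : ML (Fh (τ, y)) = 0 := by linarith
    rw [hy2] at hy1
    have hu : ∀ j (z : Dk), y.1 j z = uE1 y j z := fun j z => by rw [uE1, ESA_prD]
    have hd := hdens τ y (uE1 y) hu
    have hmass : (∫ ξ in Dk, Fd (D.so (1 - τ)) (uE1 y) zf zf false ξ) + ∫ ξ in Dk, Fd (D.so (1 - τ)) (uE1 y) zf zf true ξ = 0 := by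
      rw [ESA_int hC (hd false), ESA_int hC (hd true), ← hM0, ← hM0, ← hMLa, hm]
    refine ⟨⟨?_, ?_, ?_, ?_, ?_, hmass, ?_⟩, ?_⟩
    · intro j
      exact ((y.1 j).continuous.comp ESA_prc).continuousOn
    · intro j; exact continuousOn_const
    · intro j z _ _
      rw [ESA_phi (D.so (1 - τ)) hr, ESA_TG]
    · intro j z _
      rw [ESA_bet, ESA_TB, ESA_Pq]; simp [zf]
    · intro j z hz
      rw [ESA_TU hC hd, ← hTU (Fh (τ, y)) j ⟨z, hz⟩]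
      have := congrArg (fun f : Bool → C(Dk, ℝ) => f j ⟨z, hz⟩) hy1
      simp only [Pi.add_apply, ContinuousMap.add_apply, ESA_cst_apply] at this
      rw [this, hu]
    · intro k
      rw [ESA_phi (D.so (1 - τ)) hr]; simp [zf]
    · intro v hv
      rw [hNf] at hv
      rw [hTa] at hv
      have hv1 := congrArg Prod.fst hv
      have hv2 : v.2 + ML (fderiv ℝ Fh (τ, y) (0, v)) = v.2 := congrArg Prod.snd hv
      have hm' : ML (fderiv ℝ Fh (τ, y) (0, v)) = 0 := by linarith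
      have hv1' : TUo (fderiv ℝ Fh (τ, y) (0, v)) + ESA_cst v.2 = v.1 := by
        have h : TUo (fderiv ℝ Fh (τ, y) (0, v)) + ESA_cst (v.2 + ML (fderiv ℝ Fh (τ, y) (0, v))) = v.1 := hv1
        rwa [hv2] at h
      have hd' : ∀ j, ∀ ξ ∈ Dk, ξ ^ 8 ≠ 1 → Fd' (D.so (1 - τ)) (uE1 y) zf zf (uE1 v) zf zf j ξ =
          Wt D.κ ξ * (fderiv ℝ Fh (τ, y) (0, v)) j (pr ξ) := by
        intro j ξ hξ _
        rw [ESA_dens' D hr, hFd]
        have h5 : y.1 j (pr ξ) = uE1 y j ξ := rfl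
        have h6 : v.1 j (pr ξ) = uE1 v j ξ := rfl
        simp only [ESA_G', h5, h6, ESA_pr hξ, Ls]
        simp
      refine ⟨?_, ?_, ?_, ?_, ?_, ?_, ?_⟩
      · intro j
        exact ((v.1 j).continuous.comp ESA_prc).continuousOn
      · intro j; exact continuousOn_const
      · intro j z _ _
        rw [ESA_phi' (D.so (1 - τ)) hr, ESA_TG]
      · intro j z _
        rw [ESA_bet', ESA_TB, ESA_Pq]; simp [zf]
      · intro j z hz
        rw [ESA_TU hC hd', ← hTU (fderiv ℝ Fh (τ, y) (0, v)) j ⟨z, hz⟩]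
        have := congrArg (fun f : Bool → C(Dk, ℝ) => f j ⟨z, hz⟩) hv1'
        simp only [Pi.add_apply, ContinuousMap.add_apply, ESA_cst_apply] at this
        rw [this]
        change uE1 v j z = v.1 j ⟨z, hz⟩
        rw [uE1, ← ESA_prD ⟨z, hz⟩]
      · rw [ESA_int hC (hd' false), ESA_int hC (hd' true), ← hM0, ← hM0, ← hMLa, hm']
      · intro k
        rw [ESA_phi' (D.so (1 - τ)) hr]; simp [zf]
  · -- solutions give fixed points
    intro τ hτ u c h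
    set y : Y1 := (fun j => ⟨fun z : Dk => u j z, (h.cu j).restrict⟩, c) with hyd
    have hu : ∀ j (z : Dk), y.1 j z = u j z := fun j z => rfl
    have hd := hdens τ y u hu
    have hm : ML (Fh (τ, y)) = 0 := by
      have := h.mass
      rw [ESA_int hC (hd false), ESA_int hC (hd true), ← hM0, ← hM0, ← hMLa] at this
      exact this
    refine ⟨y, ?_⟩
    change T (Fh (τ, y), y.2 + ML (Fh (τ, y))) = y
    rw [hTa, hm, add_zero]
    refine Prod.ext ?_ rfl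
    funext j
    ext z
    have h1 := h.eu j z z.2
    rw [ESA_TU hC hd, ← hTU (Fh (τ, y)) j z] at h1
    simp only [Pi.add_apply, ContinuousMap.add_apply, ESA_cst_apply]
    rw [hu, h1]

end

end Pool.Agent.DL
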