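import Pool.Agent.helper22.DL.SpecE3
import Pool.Agent.helper46.DL.HS

/-! # Project dl, stage 2, module ETC: transfer of Hitchin's equation to the surface -/

namespace Pool.Agent.DL

open Matrix Complex MeasureTheory Set Filter Topology
open scoped ComplexOrder Manifold ContDiff ComplexConjugate

noncomputable section

/-- `LH` is a local property. -/
theorem ETC_loc {n : ℕ} {Ω : Set ℂ} {A H : ℂ → Matrix (Fin n) (Fin n) ℂ} {W : ℂ → ℝ}
    (h : ∀ z ∈ Ω, ∃ N, IsOpen N ∧ z ∈ N ∧ LH n N A W H) : LH n Ω A W H := by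
  refine ⟨?_, ?_, ?_⟩
  · intro z hz
    obtain ⟨N, -, hzN, hN⟩ := h z hz
    exact hN.pos z hzN
  · intro a b z hz
    obtain ⟨N, hNo, hzN, hN⟩ := h z hz
    exact ((hN.smooth a b).contDiffAt (hNo.mem_nhds hzN)).contDiffWithinAt
  · intro z hz
    obtain ⟨N, hNo, hzN, hN⟩ := h z hz
    exact hN.eq z hzN

/-- Change of the functions on an open set. -/
theorem ETC_congr {n : ℕ} {Ω : Set ℂ} {A A' H H' : ℂ → Matrix (Fin n) (Fin n) ℂ} {W W' : ℂ → ℝ} (hΩ : IsOpen Ω)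
    (h : LH n Ω A W H) (hA : ∀ z ∈ Ω, A' z = A z) (hW : ∀ z ∈ Ω, W' z = W z) (hH : ∀ z ∈ Ω, H' z = H z) :
    LH n Ω A' W' H' := by
  refine ⟨?_, ?_, ?_⟩
  · intro z hz
    rw [hH z hz]
    exact h.pos z hz
  · intro a b
    exact (h.smooth a b).congr fun z hz => by rw [hH z hz]
  · intro z hz
    have h1 : ∀ w ∈ Ω, H' =ᶠ[𝓝 w] H := fun w hw => by
      filter_upwards [hΩ.mem_nhds hw] with v hv
      exact hH v hv
    have h2 : (fun w => (H' w)⁻¹ * mdz H' w) =ᶠ[𝓝 z] fun w => (H w)⁻¹ * mdz H w := by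
      filter_upwards [hΩ.mem_nhds hz] with w hw
      rw [hH w hw, HS_mdz_congr (h1 w hw) |>.self_of_nhds]
    rw [HS_mdzb_congr h2, h.eq z hz, hA z hz, hW z hz, hH z hz]

theorem ETC_Wt (κ : ℝ) (z : ℂ) : Wt κ z = κ * Wt 1 z := by
  unfold Wt
  ring

theorem ETC_Wr (κ : ℝ) (z : ℂ) : Wr κ z = κ * Wr 1 z := by
  unfold Wr
  ring

theorem ETC (hGC : GC_stmt) (hA : ETA_stmt) (hB : ETB_stmt) : ETC_stmt := by
  intro cs ch hG hX n κ A H hNs hR e he
  have hNo : IsOpen Ns := isOpen_ne_fun (by fun_prop) continuous_const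
  constructor
  · refine ETC_loc ?_
    intro z hz
    obtain ⟨N, χ, hN, hzN, hNs', hχ, hor⟩ := hA cs ch hG hX e he (e.symm z) hz.2 (e.map_target hz.1)
    rw [e.right_inv hz.1] at hzN
    refine ⟨N, hN, hzN, ?_⟩
    rcases hor with h1 | ⟨d, hd, h1⟩
    · have h2 := hGC n N Ns χ A H (Wt κ) (fun w => Wt κ (χ w) * ‖deriv χ w‖ ^ 2) hN hNo hχ (fun w hw => (h1 w hw).1) hNs
        (fun w _ => rfl)
      refine ETC_congr hN h2 ?_ ?_ ?_
      · intro w hw
        rw [(h1 w hw).2.1]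
      · intro w hw
        show κ * ‖eta0 e (e.symm w)‖ ^ 2 = _
        rw [(h1 w hw).2.2, ETC_Wt κ]
        ring
      · intro w hw
        rw [(h1 w hw).2.1]
    · have h2 := hGC n N (Metric.ball 0 1) χ (fun y => A (psi d y)) (fun y => H (psi d y)) (Wr κ)
        (fun w => Wr κ (χ w) * ‖deriv χ w‖ ^ 2) hN Metric.isOpen_ball hχ (fun w hw => (h1 w hw).1) (hR d hd)
        (fun w _ => rfl)
      refine ETC_congr hN h2 ?_ ?_ ?_
      · intro w hw
        rw [(h1 w hw).2.1]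
      · intro w hw
        show κ * ‖eta0 e (e.symm w)‖ ^ 2 = _
        rw [(h1 w hw).2.2, ETC_Wr κ]
        ring
      · intro w hw
        rw [(h1 w hw).2.1]
  · refine ETC_loc ?_
    intro z hz
    obtain ⟨N, χ, hN, hzN, hNs', hχ, hor⟩ := hB cs ch hG hX e he (e.symm z) hz.2 (e.map_target hz.1)
    rw [e.right_inv hz.1] at hzN
    refine ⟨N, hN, hzN, ?_⟩
    rcases hor with h1 | ⟨d, hd, h1⟩
    · have h2 := hGC n N Ns χ A H (Wt κ) (fun w => Wt κ (χ w) * ‖deriv χ w‖ ^ 2) hN hNo hχ (fun w hw => (h1 w hw).1) hNs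
        (fun w _ => rfl)
      refine ETC_congr hN h2 ?_ ?_ ?_
      · intro w hw
        rw [(h1 w hw).2.1]
      · intro w hw
        show κ * ‖eta1 e (e.symm w)‖ ^ 2 = _
        rw [(h1 w hw).2.2, ETC_Wt κ]
        ring
      · intro w hw
        rw [(h1 w hw).2.1]
    · have h2 := hGC n N (Metric.ball 0 1) χ (fun y => A (psi d y)) (fun y => H (psi d y)) (Wr κ)
        (fun w => Wr κ (χ w) * ‖deriv χ w‖ ^ 2) hN Metric.isOpen_ball hχ (fun w hw => (h1 w hw).1) (hR d hd)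
        (fun w _ => rfl)
      refine ETC_congr hN h2 ?_ ?_ ?_
      · intro w hw
        rw [(h1 w hw).2.1]
      · intro w hw
        show κ * ‖eta1 e (e.symm w)‖ ^ 2 = _
        rw [(h1 w hw).2.2, ETC_Wr κ]
        ring
      · intro w hw
        rw [(h1 w hw).2.1]

end

end Pool.Agent.DL
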