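import Pool.Agent.helper22.DL.SpecE3

/-! # Project dl, stage 2: existence on the surface -/

namespace Pool.Agent.DL

open Matrix Complex
open scoped ComplexOrder Manifold ContDiff

noncomputable section

theorem ETZ (h9 : X09_stmt) (hEX : EX_stmt) (hV : ETV_stmt) (h3 : EZ3_stmt) (h1 : EZ1_stmt) (hD : ETD_stmt) (hE : ETE_stmt)
    (hG : ETG_stmt) : EXI_stmt := by
  intro cs ch hg hT hDV a t ha ht
  have hol : HolX := h9 cs ch hg
  have ha2 : 2 ≤ a := by linarith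
  have ha0 : 0 < a := by linarith
  have ht0 : 0 < t := by linarith
  obtain ⟨V3, V1⟩ := hV a t ha2
  obtain ⟨hcov, -, -, -, -, hq2, hq3, -⟩ := hEX XT (DX ch) hDV a t ha0 ht0
  refine ⟨hG cs ch hg hol hDV a t ha2 ht0 (h1 (DQ a t) V1 (fun _ _ => rfl) (fun _ _ => rfl)), ?_⟩
  obtain ⟨H, hH⟩ := hD cs ch hg hol hDV a t ha2 ht0 (h3 (DA a t) V3 (fun _ _ => rfl))
  exact ⟨_, hE XT (cov (DX ch) a) _ _ hcov hq2 hq3 H hH⟩

end

end Pool.Agent.DL
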