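import Pool.Agent.helper22.DL.SpecE2

/-! # Project dl, stage 2: existence on the sphere -/

namespace Pool.Agent.DL

open Matrix Complex MeasureTheory Set Filter Topology
open scoped ComplexOrder Manifold ContDiff ComplexConjugate

noncomputable section

theorem EZ_sc1 (D : Dat) : D.sc 1 = D := by
  cases D; simp [Dat.sc]

theorem EZ_TB0 (u : Bool → ℂ → ℝ) (j : Bool) (z : ℂ) : TB (bet u zf) j z + Pq 0 j z = 0 := by
  have h : bet u zf = fun _ _ => 0 := by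
    funext i w; simp [bet, zf]
  rw [h]
  cases j <;> simp [TB, Pq]

theorem EZ3 (hFB : EFB_stmt) (hAD : EAD_stmt) (hIJ : EIJ_stmt) (hSC : ESC_stmt) (hSX : ESX_stmt) (hIS : EIS_stmt)
    (hPE : EPE_stmt) (hPD : EPD_stmt) : EZ3_stmt := by
  intro D hV hs
  have start : ∃ u b g c P, Sol3 (D.sc 0) u b g c P := by
    have h0 := (hSC D hV 0).1
    obtain ⟨u, c, h⟩ := hSX (D.sc 0) h0 (fun j z => by simp [Dat.sc]) (fun j z => hs j z)
    exact ⟨u, zf, zf, c, 0, h⟩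
  have inj := fun (τ : ℝ) (_ : τ ∈ Icc (0 : ℝ) 1) (u : Bool → ℂ → ℝ) (b g : Bool → ℂ → ℂ) (c : ℝ) (P : Fin 3 → ℂ)
    (u' : Bool → ℂ → ℝ) (b' g' : Bool → ℂ → ℂ) (c' : ℝ) (P' : Fin 3 → ℂ) (h : Sol3 (D.sc τ) u b g c P)
    (h' : Lin3 (D.sc τ) u b g u' b' g' c' P') => hIJ (D.sc τ) u b g c P u' b' g' c' P' (hSC D hV τ).1 (fun j z => hs j z) h h'
  obtain ⟨u, b, g, c, P, h⟩ := hFB D hV start (hAD D hV hs) inj
  rw [EZ_sc1] at h
  have hG := hIS D u b g c P hV h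
  exact ⟨_, _, (hPD D _ _ _ _ _ _ hV hG (hPE D _ _ _ hV hG)).1⟩

theorem EZ1 (hSX : ESX_stmt) (hIS : EIS_stmt) (hPE : EPE_stmt) (hPD : EPD_stmt) : EZ1_stmt := by
  intro D hV hr hs
  obtain ⟨u, c, h⟩ := hSX D hV hr hs
  have hG := hIS D u zf zf c 0 hV h
  have h2 := (hPD D _ _ _ _ _ _ hV hG (hPE D _ _ _ hV hG)).1
  have h3 : (fun j z => TB (bet u zf) j z + Pq 0 j z) = zf := by
    funext j z; exact EZ_TB0 u j z
  rw [h3] at h2
  exact ⟨_, h2⟩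

end

end Pool.Agent.DL
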