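import Pool.Agent.helper67.DL.XE
import Pool.Agent.helper11.DL.ETF
import Pool.Agent.helper19.DL.EAB
import Pool.Agent.helper19.DL.EPT
import Pool.Agent.helper19.DL.ERJ
import Pool.Agent.helper19.DL.ETD
import Pool.Agent.helper19.DL.ETV
import Pool.Agent.helper20.DL.ECH
import Pool.Agent.helper22.DL.EAC
import Pool.Agent.helper22.DL.EEV
import Pool.Agent.helper22.DL.EFB
import Pool.Agent.helper22.DL.ENA
import Pool.Agent.helper22.DL.EPD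
import Pool.Agent.helper22.DL.EPE
import Pool.Agent.helper22.DL.ESA
import Pool.Agent.helper22.DL.ETC
import Pool.Agent.helper22.DL.ETZ
import Pool.Agent.helper22.DL.EZ
import Pool.Agent.helper25.DL.EGS
import Pool.Agent.helper28.DL.EHL
import Pool.Agent.helper28.DL.EIU
import Pool.Agent.helper28.DL.EPC
import Pool.Agent.helper28.DL.ERF
import Pool.Agent.helper30.DL.EIB
import Pool.Agent.helper30.DL.EIG
import Pool.Agent.helper30.DL.EMX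
import Pool.Agent.helper31.DL.EIX
import Pool.Agent.helper31.DL.EPB
import Pool.Agent.helper31.DL.ERE
import Pool.Agent.helper32.DL.EFN
import Pool.Agent.helper41.DL.EPA
import Pool.Agent.helper44.DL.EFA
import Pool.Agent.helper46.DL.ESD
import Pool.Agent.helper52.DL.ECL
import Pool.Agent.helper52.DL.EKA
import Pool.Agent.helper52.DL.EKF
import Pool.Agent.helper52.DL.ERH
import Pool.Agent.helper52.DL.ETG
import Pool.Agent.helper60.DL.ERL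
import Pool.Agent.helper65.DL.EAA
import Pool.Agent.helper65.DL.EIL
import Pool.Agent.helper65.DL.EIS
import Pool.Agent.helper65.DL.ESV
import Pool.Agent.helper65.DL.ETE
import Pool.Agent.helper67.DL.ELN
import Pool.Agent.helper67.DL.ETA
import Pool.Agent.helper70.DL.EKC
import Pool.Agent.helper70.DL.EKD
import Pool.Agent.helper70.DL.EKE
import Pool.Agent.helper70.DL.EKG
import Pool.Agent.helper70.DL.EKH
import Pool.Agent.helper70.DL.EKT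
import Pool.Agent.helper71.DL.EAD
import Pool.Agent.helper71.DL.EIJ
import Pool.Agent.helper71.DL.ELQ
import Pool.Agent.helper71.DL.ERC
import Pool.Agent.helper22.DL.ERG
import Pool.Agent.helper22.DL.ERI
import Pool.Agent.helper71.DL.ESI
import Pool.Agent.helper82.DL.EPS
import Pool.Agent.helper82.DL.ERK
import Pool.Agent.helper90.DL.ERD
import Pool.Agent.helper91.DL.EKB
import Pool.Agent.helper97.DL.ERA
import Pool.Agent.helper97.DL.ERB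
import Pool.Agent.helper98.DL.EFC

/-! # Project dl (MP_4caea3_gt), stage 2: assembly -/

namespace Pool.Agent.DL

theorem FIN2_ETV : ETV_stmt := ETV
theorem FIN2_EFC : EFC_stmt := EFC
theorem FIN2_EKH : EKH_stmt := EKH
theorem FIN2_EKA : EKA_stmt := EKA
theorem FIN2_EKB : EKB_stmt := EKB
theorem FIN2_EKC : EKC_stmt := EKC
theorem FIN2_EKE : EKE_stmt := EKE FIN2_EKA FIN2_EKB FIN2_EKC
theorem FIN2_EKD : EKD_stmt := EKD FIN2_EKA FIN2_EKB FIN2_EKC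
theorem FIN2_EKF : EKF_stmt := EKF FIN2_EKA FIN2_EKB FIN2_EKC FIN2_EKD
theorem FIN2_EKG : EKG_stmt := EKG FIN2_EKA FIN2_EKB FIN2_EKC
theorem FIN2_EKT : EKT_stmt := EKT FIN2_EKH FIN2_EKE FIN2_EKF FIN2_EKG
theorem FIN2_EFN : EFN_stmt := EFN
theorem FIN2_EFA : EFA_stmt := EFA FIN2_EKT FIN2_EFN FIN2_EKD FIN2_EKC
theorem FIN2_EFB : EFB_stmt := EFB FIN2_EFC FIN2_EFA
theorem FIN2_ESC : ESC_stmt := ESC
theorem FIN2_EIX : EIX_stmt := EIX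
theorem FIN2_EIB : EIB_stmt := EIB FIN2_EKD FIN2_EKE FIN2_EIX
theorem FIN2_EIG : EIG_stmt := EIG FIN2_EKD FIN2_EKF FIN2_EIX
theorem FIN2_EIU : EIU_stmt := EIU FIN2_EKC FIN2_EKD FIN2_EKG FIN2_EIX
theorem FIN2_EIS : EIS_stmt := EIS FIN2_EKC FIN2_EIB FIN2_EIG FIN2_EIU
theorem FIN2_EPE : EPE_stmt := EPE
theorem FIN2_ELQ : ELQ_stmt := ELQ LW LA
theorem FIN2_ERA : ERA_stmt := ERA
theorem FIN2_ERB : ERB_stmt := ERB FIN2_EKA FIN2_ERA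
theorem FIN2_ERC : ERC_stmt := ERC FIN2_EKA FIN2_EKB
theorem FIN2_ERD : ERD_stmt := ERD FIN2_EKA FIN2_EKB
theorem FIN2_ERJ : ERJ_stmt := ERJ FIN2_ERB FIN2_ERC FIN2_ERD
theorem FIN2_ERE : ERE_stmt := ERE FIN2_EKA FIN2_ERA
theorem FIN2_ERK : ERK_stmt := ERK FIN2_ERB FIN2_ERC FIN2_ERD FIN2_ERE
theorem FIN2_ERI : ERI_stmt := ERI FIN2_EKA
theorem FIN2_ERF : ERF_stmt := ERF FIN2_EKA FIN2_EKB FIN2_ERC
theorem FIN2_ERG : ERG_stmt := ERG FIN2_ERD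
theorem FIN2_ERH : ERH_stmt := ERH FIN2_ERF FIN2_ERC FIN2_ERG
theorem FIN2_EPA : EPA_stmt := EPA FIN2_ERJ FIN2_ERK FIN2_ERB FIN2_ERI FIN2_ERH
theorem FIN2_EPS : EPS_stmt := EPS
theorem FIN2_EPB : EPB_stmt := EPB FIN2_EKC FIN2_EKD FIN2_ERF
theorem FIN2_ERL : ERL_stmt := ERL FIN2_ERB FIN2_ERC FIN2_ERD FIN2_ERG FIN2_ERJ FIN2_ERK
theorem FIN2_EPC : EPC_stmt := EPC FIN2_EKC FIN2_EPS FIN2_EPA FIN2_EPB FIN2_ERL
theorem FIN2_ECH : ECH_stmt := ECH LW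
theorem FIN2_ECL : ECL_stmt := ECL LW
theorem FIN2_EPD : EPD_stmt := EPD LW LA FIN2_ELQ FIN2_EPA FIN2_EPC FIN2_EPS FIN2_ECH FIN2_ECL
theorem FIN2_EGS : EGS_stmt := EGS FIN2_EPS LA RA FIN2_ELQ
theorem FIN2_EPT : EPT_stmt := EPT FIN2_EGS FIN2_EPS FIN2_ECH
theorem FIN2_ENA : ENA_stmt := ENA
theorem FIN2_EHL : EHL_stmt := EHL FIN2_ENA LW
theorem FIN2_EEV : EEV_stmt := EEV
theorem FIN2_EMX : EMX_stmt := EMX
theorem FIN2_EAA : EAA_stmt := EAA MX LA FIN2_EPT FIN2_EHL FIN2_ENA ASM_WL FIN2_ELQ ASM_M1 FIN2_EEV FIN2_EMX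
theorem FIN2_EAB : EAB_stmt := EAB FIN2_EMX FIN2_EGS FIN2_EPT MX LA
theorem FIN2_EAC : EAC_stmt := EAC FIN2_EKC FIN2_EKD
theorem FIN2_EAD : EAD_stmt := EAD FIN2_ESC FIN2_EIS FIN2_EPE FIN2_EPD FIN2_EAA FIN2_EAB FIN2_EAC
theorem FIN2_EIL : EIL_stmt := EIL FIN2_EKC FIN2_EIB FIN2_EIG FIN2_EIU
theorem FIN2_ELN : ELN_stmt := ELN LW
theorem FIN2_EIJ : EIJ_stmt := EIJ FIN2_EIS FIN2_EIL FIN2_EPD FIN2_EMX FIN2_EPT MX FIN2_ELN FIN2_EKC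
theorem FIN2_ESA : ESA_stmt := ESA FIN2_EKT FIN2_EKD FIN2_EKC FIN2_EFN
theorem FIN2_ESV : ESV_stmt := ESV FIN2_EKC FIN2_EPS
theorem FIN2_ESD : ESD_stmt := ESD MX LA FIN2_EMX FIN2_EGS FIN2_EPT FIN2_ELQ FIN2_EIS FIN2_EPE FIN2_EPD FIN2_EAC FIN2_ESC FIN2_ESV
theorem FIN2_ESI : ESI_stmt := ESI FIN2_EIS FIN2_EIL FIN2_EPD FIN2_EMX FIN2_EPT MX LA FIN2_EKC
theorem FIN2_ESX : ESX_stmt := ESX FIN2_EFC FIN2_ESA FIN2_ESV FIN2_ESD FIN2_ESI FIN2_ESC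
theorem FIN2_EZ3 : EZ3_stmt := EZ3 FIN2_EFB FIN2_EAD FIN2_EIJ FIN2_ESC FIN2_ESX FIN2_EIS FIN2_EPE FIN2_EPD
theorem FIN2_EZ1 : EZ1_stmt := EZ1 FIN2_ESX FIN2_EIS FIN2_EPE FIN2_EPD
theorem FIN2_ETA : ETA_stmt := ETA X02
theorem FIN2_ETB : ETB_stmt := ETB X02
theorem FIN2_ETC : ETC_stmt := ETC GC FIN2_ETA FIN2_ETB
theorem FIN2_ETD : ETD_stmt := ETD FIN2_EHL FIN2_EPS FIN2_ETC FIN2_ETV EX FIN2_ENA
theorem FIN2_ETE : ETE_stmt := ETE GA GE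
theorem FIN2_ETF : ETF_stmt := ETF LW LA
theorem FIN2_ETG : ETG_stmt := ETG FIN2_ETF FIN2_ETC EX X02 X10
theorem FIN2_ETZ : EXI_stmt := ETZ FINAL_X09 EX FIN2_ETV FIN2_EZ3 FIN2_EZ1 FIN2_ETD FIN2_ETE FIN2_ETG

theorem FIN2_main : MAIN2_stmt := XE_main FIN2_ETZ

end Pool.Agent.DL
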