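import Pool.Agent.helper22.DL.DefsE

/-! # Project dl (MP_4caea3_gt), stage 2, part 1: analysis in the plane (kernels, compact operators, regularity)

Modules: file `Pool/Agent/<seat>/DL/XX.lean`, `import Pool.Agent.helper22.DL.SpecE1` (or `SpecE2`), namespace `Pool.Agent.DL`,
`theorem XX (h : YY_stmt) ... : XX_stmt`. -/

namespace Pool.Agent.DL

open Matrix Complex MeasureTheory Set Filter Topology
open scoped ComplexOrder Manifold ContDiff ComplexConjugate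

noncomputable section

/-! ## Kernels -/

/-- EKA. The power kernels are uniformly locally integrable for `s < 2`: on `|ξ-a| < 1` use polar coordinates
(`∫_{|ξ-a|<1} |ξ-a|^{-s} = 2π/(2-s)`; translation invariance; or `MeasureTheory` lemmas such as `integrable_fun_norm_addHaar`,
`Complex.polarCoord`), elsewhere the integrand is `≤ 1` (`s ≥ 0`). -/
def EKA_stmt : Prop := ∀ s R : ℝ, 0 ≤ s → s < 2 → 0 < R → ∃ C : ℝ, ∀ a : ℂ,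
  IntegrableOn (fun ξ : ℂ => ‖a - ξ‖ ^ (-s)) (Metric.ball 0 R) ∧ ∫ ξ in Metric.ball (0 : ℂ) R, ‖a - ξ‖ ^ (-s) ≤ C

/-- EKB. Elementary inequalities for `0 < x, y` (all with real powers): (1) `x^{-s} y^{-t} ≤ x^{-(s+t)} + y^{-(s+t)}` (larger factor);
(2) Hölder continuity of the Cauchy kernel: if `|x - y| ≤ δ ≤ x + y` then `δ/(x y) ≤ 2 δ^{1/2} (x^{-3/2} + y^{-3/2})`
(`δ^{1/2} ≤ x^{1/2} + y^{1/2}`); (3) `|log x - log y| ≤ 4 |x - y|^{1/4} (x^{-1/4} + y^{-1/4})` (if `y ≤ x`: `log(x/y) ≤ 4 log((x/y)^{1/4})`,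
`log(1+v) ≤ v` and `x^{1/4} - y^{1/4} ≤ (x-y)^{1/4}`); (4) the product of two poles: `d ≤ x + y` gives
`1/(x y) ≤ 2 d^{-1/8} (x^{-15/8} + y^{-15/8})`, `0 < d`. -/
def EKB_stmt : Prop :=
  (∀ s t x y : ℝ, 0 ≤ s → 0 ≤ t → 0 < x → 0 < y → x ^ (-s) * y ^ (-t) ≤ x ^ (-(s + t)) + y ^ (-(s + t))) ∧
  (∀ δ x y : ℝ, 0 < x → 0 < y → 0 ≤ δ → δ ≤ x + y →
    δ / (x * y) ≤ 2 * δ ^ (1 / 2 : ℝ) * (x ^ (-(3 / 2) : ℝ) + y ^ (-(3 / 2) : ℝ))) ∧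
  (∀ x y : ℝ, 0 < x → 0 < y →
    |Real.log x - Real.log y| ≤ 4 * |x - y| ^ (1 / 4 : ℝ) * (x ^ (-(1 / 4) : ℝ) + y ^ (-(1 / 4) : ℝ))) ∧
  ∀ d x y : ℝ, 0 < x → 0 < y → 0 < d → d ≤ x + y →
    1 / (x * y) ≤ 2 * d ^ (-(1 / 8) : ℝ) * (x ^ (-(15 / 8) : ℝ) + y ^ (-(15 / 8) : ℝ))

/-- EKC. The weight: partial fractions `1/(1-z⁸) = (1/8) Σ_k ω_k/(ω_k - z)`, the roots form a null set, `Wt` is smooth off the roots,
`|1 - zξ| ≥ |conj z - ξ|` on the disc (`|1-zξ|² - |z̄-ξ|² = (1-|z|²)(1-|ξ|²)`), and `|1 - z⁸|` compared with the distance to the nearest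
root: near a root `ω` one has `1 - z⁸ = (ω - z) Σ_{k<8} ω^{...} z^k`. -/
def EKC_stmt : Prop :=
  (∀ z : ℂ, z ^ 8 ≠ 1 → (1 - z ^ 8)⁻¹ = (1 / 8) * ∑ k : Fin 8, cexp (2 * Real.pi * I * ((k : ℕ) : ℂ) / 8) / (cexp (2 * Real.pi * I * ((k : ℕ) : ℂ) / 8) - z)) ∧
  (∀ z : ℂ, z ^ 8 ≠ 1 → ‖1 - z ^ 8‖⁻¹ ≤ (1 / 8) * ∑ k : Fin 8, ‖cexp (2 * Real.pi * I * ((k : ℕ) : ℂ) / 8) - z‖ ^ (-1 : ℝ)) ∧
  (volume {z : ℂ | z ^ 8 = 1} = 0) ∧ (∀ κ : ℝ, Measurable (Wt κ)) ∧ Measurable mt ∧ Continuous mt ∧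
  (∀ κ : ℝ, ContDiffOn ℝ ∞ (Wt κ) Ns) ∧ IsOpen Ns ∧
  (∀ z ∈ Dk, ∀ ξ ∈ Dk, ‖conj z - ξ‖ ≤ ‖1 - z * ξ‖) ∧
  (∀ R : ℝ, 0 < R → ∃ C : ℝ, 0 < C ∧ ∀ z ∈ Metric.ball (0 : ℂ) R, ∀ k : Fin 8, ‖1 - z ^ 8‖ ≤ C * ‖cexp (2 * Real.pi * I * ((k : ℕ) : ℂ) / 8) - z‖)

/-- EKD. The basic estimate: `∫_{|ξ|<R} 1/(|1-ξ⁸| |z-ξ|) ≤ C |1-z⁸|^{-1/4}` (in fact `-1/8` suffices), from EKA, EKB (4) with
`x = |z-ξ|`, `y = |ω-ξ|`, `d = |ω - z|`, and EKC (partial fractions; `d^{-1/8} ≤ C |1-z⁸|^{-1/8} ≤ C' |1-z⁸|^{-1/4}`), and the same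
with `mt`: `∫ 1/(mt ξ |z-ξ|) ≤ C` for all `z` (`(mt ξ)⁻¹ ≤ Σ |ω-ξ|^{-1/4}`, EKB (1)); `∫ (|log|z-ξ|| + 1)/|1-ξ⁸| ≤ C` for `|z| < R`. -/
def EKD_stmt : Prop := ∀ R : ℝ, 0 < R → ∃ C : ℝ, 0 < C ∧
  (∀ z ∈ Metric.ball (0 : ℂ) R, z ^ 8 ≠ 1 → IntegrableOn (fun ξ : ℂ => Wt 1 ξ * ‖z - ξ‖⁻¹) (Metric.ball 0 R) ∧
    ∫ ξ in Metric.ball (0 : ℂ) R, Wt 1 ξ * ‖z - ξ‖⁻¹ ≤ C * (mt z)⁻¹ ∧
    ∫ ξ in Metric.ball (0 : ℂ) R, Wt 1 ξ * ‖z - ξ‖⁻¹ ≤ C * ‖1 - z ^ 8‖ ^ (-(1 / 8) : ℝ)) ∧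
  (∀ z : ℂ, IntegrableOn (fun ξ : ℂ => (mt ξ)⁻¹ * ‖z - ξ‖⁻¹) (Metric.ball 0 R) ∧
    ∫ ξ in Metric.ball (0 : ℂ) R, (mt ξ)⁻¹ * ‖z - ξ‖⁻¹ ≤ C) ∧
  (IntegrableOn (fun ξ : ℂ => Wt 1 ξ) (Metric.ball 0 R) ∧ IntegrableOn (fun ξ : ℂ => (mt ξ)⁻¹) (Metric.ball 0 R)) ∧
  ∀ z ∈ Metric.ball (0 : ℂ) R, IntegrableOn (fun ξ : ℂ => Wt 1 ξ * |Real.log ‖z - ξ‖|) (Metric.ball 0 R) ∧
    ∫ ξ in Metric.ball (0 : ℂ) R, Wt 1 ξ * |Real.log ‖z - ξ‖| ≤ C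

/-- A kernel on the disc: integrable in the second variable, and continuous in the first one with values in `L¹`. -/
def GK {𝕜 : Type} [NormedAddCommGroup 𝕜] (K : ℂ → ℂ → 𝕜) : Prop := (∀ z ∈ Dk, IntegrableOn (K z) Dk) ∧
  ∀ z₀ ∈ Dk, Tendsto (fun z => ∫ ξ in Dk, ‖K z ξ - K z₀ ξ‖) (𝓝[Dk] z₀) (𝓝 0)

/-- EKE. The kernels of `TB` on the disc with the weight `mt⁻¹` (EKA, EKB (1), (2), EKC, EKD; for the second kernel `|1-zξ| ≥ |z̄-ξ|`, and the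
factor `z³` is bounded and continuous). -/
def EKE_stmt : Prop := GK (fun z ξ : ℂ => ((mt ξ)⁻¹ : ℂ) / (z - ξ)) ∧ GK (fun z ξ : ℂ => ((mt ξ)⁻¹ : ℂ) * (z ^ 3 / (1 - z * ξ)))

/-- EKF. The kernels of `mt * TG` with the weight `W`. At a root `z₀` (`mt z₀ = 0`): `mt z ∫ W/|z-ξ| ≤ C |1-z⁸|^{1/4-1/8} → 0` (EKD). At other
points `z₀`: let `δ` be a fraction of the distance of `z₀` to the roots, for `|z - z₀| < δ/4`: if `|ξ-z₀| < δ/2` then `W ξ` is bounded and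
EKB (2) applies; if `|ξ-z₀| ≥ δ/2` then `|1/(z-ξ) - 1/(z₀-ξ)| ≤ C_δ |z-z₀|` and `W` is integrable. Second kernel: the same with
`|1-zξ| ≥ |z̄-ξ|`. -/
def EKF_stmt : Prop := GK (fun z ξ : ℂ => ((mt z : ℝ) : ℂ) * ((Wt 1 ξ : ℂ) / (z - ξ))) ∧
  GK (fun z ξ : ℂ => ((mt z : ℝ) : ℂ) * ((Wt 1 ξ : ℂ) * (ξ ^ 3 / (1 - z * ξ))))

/-- EKG. The kernels of `TU` (EKB (3), (1); `∫ |z-ξ|^{-1/4} |ω-ξ|^{-1} ≤ C`). -/
def EKG_stmt : Prop := GK (fun z ξ : ℂ => Wt 1 ξ * Real.log ‖z - ξ‖) ∧ GK (fun z ξ : ℂ => Wt 1 ξ * Real.log ‖1 - z * ξ‖)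

/-- EKH. Compact operators from kernels: `(T f)(z) = ∫ K(z,ξ) f(ξ)`. Continuity of `T f`, the bound `sup_z ∫ |K z|` (continuous function on
a compact set), equicontinuity of the image of the unit ball (`|Tf(z) - Tf(z₀)| ≤ ‖f‖ ∫ |K z - K z₀|`) and Arzelà-Ascoli
(`ContinuousMap` / `BoundedContinuousFunction.arzela_ascoli`). -/
def EKH_stmt : Prop := ∀ (𝕜 : Type) [RCLike 𝕜] (K : ℂ → ℂ → 𝕜), GK K → ∃ T : C(Dk, 𝕜) →L[ℝ] C(Dk, 𝕜), IsCompactOperator T ∧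
  ∀ (f : C(Dk, 𝕜)) (z : Dk), T f z = ∫ ξ in Dk, K z ξ * f (pr ξ)

/-- EKT. The three operators (EKH, EKE, EKF, EKG; the index swap is a bounded operator; sums of compact operators are compact;
`Bool → C(Dk, _)` is a finite product: `IsCompactOperator` of `f ↦ fun j => T₁ (f j) + T₂ (f (!j))` from that of `T₁`, `T₂`). -/
def EKT_stmt : Prop := ∀ κ : ℝ, ∃ (TBo TGo : (Bool → C(Dk, ℂ)) →L[ℝ] (Bool → C(Dk, ℂ)))
  (TUo : (Bool → C(Dk, ℝ)) →L[ℝ] (Bool → C(Dk, ℝ))), IsCompactOperator TBo ∧ IsCompactOperator TUo ∧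
  (∀ f j (z : Dk), TBo f j z = TB (fun i ξ => ((mt ξ)⁻¹ : ℂ) * f i (pr ξ)) j z) ∧
  (∀ f j (z : Dk), TGo f j z = (mt z : ℂ) * TG (fun i ξ => (Wt κ ξ : ℂ) * f i (pr ξ)) j z) ∧
  ∀ f j (z : Dk), TUo f j z = TU (fun i ξ => Wt κ ξ * f i (pr ξ)) j z

/-! ## Functional analysis -/

/-- EFC. The method of continuity. The set of `τ ∈ [0,1]` with a solution is closed (bounded solutions, `N` of them bounded, `T` compact: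
a subsequence of `y_n = T(N(τ_n,y_n))` converges; continuity of `N`) and relatively open: the map `(τ,y) ↦ (τ, y - T(N(τ,y)))` is `C¹` and its
derivative at a solution is invertible, because `1 - T ∘ D_yN` is invertible by the Fredholm alternative
(`IsCompactOperator.hasEigenvalue_or_mem_resolventSet` for the compact operator `T ∘ D_yN`, `μ = 1`); inverse function theorem
(`ContDiffAt.toOpenPartialHomeomorph` / `HasStrictFDerivAt`). Connectedness of `[0,1]` (e.g. the supremum of the `τ` such that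
all of `[0,τ]` is solvable, or `IsClosed.Icc_subset_of_forall_exists_gt`). -/
def EFC_stmt : Prop := ∀ (Y Z : Type) [NormedAddCommGroup Y] [NormedSpace ℝ Y] [CompleteSpace Y] [NormedAddCommGroup Z]
  [NormedSpace ℝ Z] (T : Z →L[ℝ] Y) (N : ℝ × Y → Z), IsCompactOperator T → ContDiff ℝ 1 N →
  (∀ M : ℝ, ∃ M' : ℝ, ∀ τ ∈ Icc (0 : ℝ) 1, ∀ y, ‖y‖ ≤ M → ‖N (τ, y)‖ ≤ M') →
  (∃ M : ℝ, ∀ τ ∈ Icc (0 : ℝ) 1, ∀ y, T (N (τ, y)) = y → ‖y‖ ≤ M) →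
  (∀ τ ∈ Icc (0 : ℝ) 1, ∀ y v, T (N (τ, y)) = y → T (fderiv ℝ N (τ, y) (0, v)) = v → v = 0) →
  (∃ y, T (N (0, y)) = y) → ∃ y, T (N (1, y)) = y

/-- EFN. Nemytskii operators on `C(K, E)`: `S f (z) = G z (f z)` is `C¹` with derivative `h ↦ (z ↦ G' z (f z) (h z))`. Given `f`, the set
`{(z, f z)}` is compact, so `G'` is uniformly continuous near it: for `ε` there is `δ` with `‖G' z e - G' z (f z)‖ < ε` if `‖e - f z‖ < δ`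
(tube argument); mean value inequality. Bounds: `closedBall 0 M` in `E` and `K` are compact. -/
def EFN_stmt : Prop := ∀ (K E F : Type) [TopologicalSpace K] [CompactSpace K] [NormedAddCommGroup E] [NormedSpace ℝ E]
  [FiniteDimensional ℝ E] [NormedAddCommGroup F] [NormedSpace ℝ F] (G : K → E → F) (G' : K → E → E →L[ℝ] F),
  Continuous (fun x : K × E => G x.1 x.2) → Continuous (fun x : K × E => G' x.1 x.2) →
  (∀ z e, HasFDerivAt (G z) (G' z e) e) → ∃ S : C(K, E) → C(K, F), ContDiff ℝ 1 S ∧ (∀ f z, S f z = G z (f z)) ∧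
  (∀ f h z, (fderiv ℝ S f h) z = G' z (f z) (h z)) ∧ ∀ M : ℝ, ∃ M' : ℝ, ∀ f, ‖f‖ ≤ M → ‖S f‖ ≤ M'

/-! ## The Cauchy transform and the logarithmic potential -/

/-- ERA. The Cauchy transform is holomorphic off the support (differentiation under the integral). -/
def ERA_stmt : Prop := ∀ (φ : ℂ → ℂ) (S U : Set ℂ), MeasurableSet S → IntegrableOn φ S → IsOpen U → Disjoint U S →
  DifferentiableOn ℂ (TC φ S) U

/-- ERB. Restriction of a representation to a smaller ball on which the density is bounded (ERA; integrability of `φ/(z-ξ)` on the small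
ball from EKA and boundedness, and outside because `|z-ξ|` is bounded below for fixed `z`). The second part: representations on the
whole ball `ball 0 R` off the roots of unity, as in `GS`. -/
def ERB_stmt : Prop := ∀ (V φ : ℂ → ℂ) (c z₁ : ℂ) (R ρ M : ℝ) (h : ℂ → ℂ), 0 < ρ → Metric.ball z₁ ρ ⊆ Metric.ball c R →
  IntegrableOn φ (Metric.ball c R) → (∀ z ∈ Metric.ball z₁ ρ, ‖φ z‖ ≤ M) → DifferentiableOn ℂ h (Metric.ball c R) →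
  (∀ z ∈ Metric.ball z₁ ρ, V z = TC φ (Metric.ball c R) z + h z) → RepAt V φ z₁ ρ

/-- ERC. Hölder continuity of the Cauchy transform of a bounded density (EKA, EKB (2); a translate reduces to `z₀ = 0`). -/
def ERC_stmt : Prop := ∀ ρ M : ℝ, 0 < ρ → ∃ C : ℝ, ∀ (φ : ℂ → ℂ) (z₀ : ℂ),
  AEStronglyMeasurable φ (volume.restrict (Metric.ball z₀ ρ)) → (∀ z ∈ Metric.ball z₀ ρ, ‖φ z‖ ≤ M) →
  (∀ z, IntegrableOn (fun ξ => φ ξ / (z - ξ)) (Metric.ball z₀ ρ)) ∧ (∀ z, ‖TC φ (Metric.ball z₀ ρ) z‖ ≤ C) ∧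
  ∀ z z', ‖TC φ (Metric.ball z₀ ρ) z - TC φ (Metric.ball z₀ ρ) z'‖ ≤ C * ‖z - z'‖ ^ (1 / 2 : ℝ)

/-- ERD. Hölder density: the Cauchy transform is `C¹` in the ball and `∂̄ TC φ = φ`. With `TC 1 (ball z₀ ρ) z = conj (z - z₀)` in the ball
(`∫_{|ξ|<ρ} 1/(z-ξ) = π z̄`: polar coordinates, mean values of `1/(z-ξ)`), write
`TC φ z = TC (φ - φ z₁) z + φ z₁ conj (z - z₀)`; the remainder `∫ (φ ξ - φ z₁) (z-z₁)²/((z-ξ)(z₁-ξ)²)` is `O(|z-z₁|^{1+α/2})`: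
with `δ = |z-z₁| ≤ x + y`, `x = |z-ξ|`, `y = |z₁-ξ|`: `δ^{1-α/2} y^{α-2} x^{-1} ≤ y^{α-2} x^{-α/2} + y^{α/2-1} x^{-1} ≤ 2(x^{α/2-2} + y^{α/2-2})` (EKB (1)). So
the derivative at `z₁` is `v ↦ -v (1/π) ∫ (φ ξ - φ z₁)/(z₁-ξ)² + φ z₁ conj v`; it is continuous in `z₁`: uniform limit (rate `ε^α`) of the
integrals over `|ξ-z₁| > ε`, which are continuous by dominated convergence. -/
def ERD_stmt : Prop := ∀ (φ : ℂ → ℂ) (z₀ : ℂ) (ρ M α : ℝ), 0 < ρ → 0 < α → α ≤ 1 → (∀ z ∈ Metric.ball z₀ ρ, ‖φ z‖ ≤ M) →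
  (∀ z ∈ Metric.ball z₀ ρ, ∀ z' ∈ Metric.ball z₀ ρ, ‖φ z - φ z'‖ ≤ M * ‖z - z'‖ ^ α) →
  ContDiffOn ℝ 1 (TC φ (Metric.ball z₀ ρ)) (Metric.ball z₀ ρ) ∧
  ∀ z ∈ Metric.ball z₀ ρ, dzb (TC φ (Metric.ball z₀ ρ)) z = φ z

/-- ERE. `C¹` density: the derivatives of the Cauchy transform are Cauchy transforms of the derivatives, up to a holomorphic function. Cut-off:
`χ` smooth with compact support in `ball z₀ ρ`, `χ = 1` on `ball z₀ ρ'`; `TC ((1-χ)φ)` is holomorphic on `ball z₀ ρ'` (ERA) and `TC (χφ)` is a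
convolution of the locally integrable function `1/z` (EKA) with a `C¹` function of compact support
(`HasCompactSupport.hasFDerivAt_convolution_right` or `_left`), and `χφ = φ` near `ball z₀ ρ'`. -/
def ERE_stmt : Prop := ∀ (φ : ℂ → ℂ) (z₀ : ℂ) (ρ ρ' M : ℝ), 0 < ρ' → ρ' < ρ → ContDiffOn ℝ 1 φ (Metric.ball z₀ ρ) →
  (∀ z ∈ Metric.ball z₀ ρ, ‖φ z‖ ≤ M) → ∀ v : ℂ, ∃ h : ℂ → ℂ, DifferentiableOn ℂ h (Metric.ball z₀ ρ') ∧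
  ∀ z ∈ Metric.ball z₀ ρ', fderiv ℝ (TC φ (Metric.ball z₀ ρ)) z v =
    TC (fun ξ => fderiv ℝ φ ξ v) (Metric.ball z₀ ρ') z + h z

/-- ERF. The logarithmic potential of a bounded density is `C¹` and `∂ TL F = TC F`. With `w = h/(z-ξ)`, `x = |z-ξ|`, `x' = |z+h-ξ|`:
`|log|1+w| - Re w| ≤ C |h|^{3/2} (x^{-3/2} + x^{-1} x'^{-1/2})` (for `|w| ≤ 1/2` it is `≤ |w|²`; for `|w| ≥ 1/2` use
`|log|1+w|| ≤ |w| + 2 |1+w|^{-1/2}`), so `TL F (z+h) - TL F z - (2/π) Re (h ∫ F/(z-ξ)) = O(|h|^{3/2})` (EKA, EKB (1)); the derivative is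
continuous by ERC. -/
def ERF_stmt : Prop := ∀ (F : ℂ → ℝ) (z₀ : ℂ) (ρ M : ℝ), 0 < ρ → AEStronglyMeasurable F (volume.restrict (Metric.ball z₀ ρ)) →
  (∀ z ∈ Metric.ball z₀ ρ, |F z| ≤ M) → ContDiff ℝ 1 (TL F (Metric.ball z₀ ρ)) ∧
  ∀ z, dz (fun w => ((TL F (Metric.ball z₀ ρ) w : ℝ) : ℂ)) z = TC (fun ξ => (F ξ : ℂ)) (Metric.ball z₀ ρ) z

/-- ERG. A `C¹` function with Hölder continuous `∂̄` derivative is represented by it (ERD: the difference is `C¹` with `∂̄ = 0`, hence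
holomorphic: the real derivative is complex linear, `DifferentiableAt` over `ℂ` from `fderiv ℝ` with
`hasDerivAt_of...`/`ContinuousLinearMap` complex linear). -/
def ERG_stmt : Prop := ∀ (V φ : ℂ → ℂ) (z₀ : ℂ) (ρ M α : ℝ), 0 < ρ → 0 < α → α ≤ 1 → ContDiffOn ℝ 1 V (Metric.ball z₀ ρ) →
  (∀ z ∈ Metric.ball z₀ ρ, dzb V z = φ z) → (∀ z ∈ Metric.ball z₀ ρ, ‖φ z‖ ≤ M) →
  (∀ z ∈ Metric.ball z₀ ρ, ∀ z' ∈ Metric.ball z₀ ρ, ‖φ z - φ z'‖ ≤ M * ‖z - z'‖ ^ α) → RepAt V φ z₀ ρ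

/-- ERH. The real potential as a first order system. `u = TL F + Re h`: `ℓ = ∂u` is represented by `F` (`∂ Re h = h'/2`), and `u` by `ℓ̄`
(ERF, ERC, ERG; `∂̄u = conj (∂u)` for real `u`). -/
def ERH_stmt : Prop := ∀ (u F : ℂ → ℝ) (h : ℂ → ℂ) (z₀ : ℂ) (ρ M : ℝ), 0 < ρ →
  AEStronglyMeasurable F (volume.restrict (Metric.ball z₀ ρ)) → (∀ z ∈ Metric.ball z₀ ρ, |F z| ≤ M) →
  DifferentiableOn ℂ h (Metric.ball z₀ ρ) → (∀ z ∈ Metric.ball z₀ ρ, u z = TL F (Metric.ball z₀ ρ) z + (h z).re) →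
  ContDiffOn ℝ 1 u (Metric.ball z₀ ρ) ∧ RepAt (dz (fun w => (u w : ℂ))) (fun ξ => (F ξ : ℂ)) z₀ ρ ∧
  ∀ ρ' : ℝ, 0 < ρ' → ρ' < ρ → RepAt (fun w => (u w : ℂ)) (fun ξ => conj (dz (fun w => (u w : ℂ)) ξ)) z₀ ρ'

/-- ERI. Restriction of a representation of `u` by a logarithmic potential to a smaller ball on which the density is bounded: the part of the
integral outside the small ball is the real part of a holomorphic function there: `ξ` fixed outside, `log|z-ξ| = Re` of a holomorphic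
function of `z` in the ball; to avoid choices: `log|z-ξ| = log|z₁-ξ| + Re Log(1 + (z-z₁)/(z₁-ξ))`, `|(z-z₁)/(z₁-ξ)| < 1`, principal logarithm,
and differentiate under the integral (`|z₁-ξ| ≥ ρ'` outside, `|z-z₁| < ρ'`, locally uniform bounds). Here only
for the smaller concentric ball `ball z₁ ρ'`, `ρ' < ρ`. -/
def ERI_stmt : Prop := ∀ (u F : ℂ → ℝ) (c z₁ : ℂ) (R ρ ρ' M : ℝ) (h : ℂ → ℂ), 0 < ρ' → ρ' < ρ →
  Metric.ball z₁ ρ ⊆ Metric.ball c R → IntegrableOn F (Metric.ball c R) → (∀ z ∈ Metric.ball z₁ ρ, |F z| ≤ M) →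
  DifferentiableOn ℂ h (Metric.ball c R) → (∀ z ∈ Metric.ball z₁ ρ, u z = TL F (Metric.ball c R) z + (h z).re) →
  ∃ h' : ℂ → ℂ, DifferentiableOn ℂ h' (Metric.ball z₁ ρ') ∧
    ∀ z ∈ Metric.ball z₁ ρ', u z = TL F (Metric.ball z₁ ρ') z + (h' z).re

/-- ERJ. Regularity, step 1: bounded solutions of `V_i = TC (G_i(·, V)) + holomorphic` are `C¹`: `V` is locally Hölder (ERC), hence so is
`G(·, V)` (ERB to shrink balls, `G` is locally Lipschitz), hence `C¹` with `∂̄V_i = G_i(·, V)` (ERD, holomorphic functions are smooth). -/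
def ERJ_stmt : Prop := ∀ (n : ℕ) (V : ℂ → Fin n → ℂ) (G : ℂ → (Fin n → ℂ) → Fin n → ℂ) (Ω : Set ℂ), IsOpen Ω →
  ContDiffOn ℝ ∞ (fun x : ℂ × (Fin n → ℂ) => G x.1 x.2) (Ω ×ˢ univ) →
  (∀ z₀ ∈ Ω, ∃ ρ : ℝ, 0 < ρ ∧ Metric.ball z₀ ρ ⊆ Ω ∧ AEStronglyMeasurable V (volume.restrict (Metric.ball z₀ ρ)) ∧
    (∃ M : ℝ, ∀ z ∈ Metric.ball z₀ ρ, ‖V z‖ ≤ M) ∧ ∀ i, RepAt (fun z => V z i) (fun z => G z (V z) i) z₀ ρ) →
  ContDiffOn ℝ 1 V Ω ∧ ∀ z ∈ Ω, ∀ i, dzb (fun w => V w i) z = G z (V z) i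

/-- ERK. Regularity, step 2: `C¹` solutions are `C²`. On a small ball `V_i = TC (G_i(·,V)) + hol` with `C¹` density, so by ERE each directional
derivative `∂_v V_i` is `TC (∂_v (G_i(·,V))) + hol` on a smaller ball, with continuous bounded density; by ERC `∂_v V` is locally Hölder for all
`v`, so `∂_v (G_i(·,V))` (chain rule: smooth functions of `z, V, ∂_v V`) is locally Hölder, and by ERD `∂_v V_i` is `C¹`. -/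
def ERK_stmt : Prop := ∀ (n : ℕ) (V : ℂ → Fin n → ℂ) (G : ℂ → (Fin n → ℂ) → Fin n → ℂ) (Ω : Set ℂ), IsOpen Ω →
  ContDiffOn ℝ ∞ (fun x : ℂ × (Fin n → ℂ) => G x.1 x.2) (Ω ×ˢ univ) → ContDiffOn ℝ 1 V Ω →
  (∀ z₀ ∈ Ω, ∃ ρ : ℝ, 0 < ρ ∧ Metric.ball z₀ ρ ⊆ Ω ∧ ∀ i, RepAt (fun z => V z i) (fun z => G z (V z) i) z₀ ρ) →
  ContDiffOn ℝ 2 V Ω

/-- ERL. Removable singularity: a bounded `C¹` solution of `∂̄V_i = G_i(z, V)` in the punctured disc extends to a `C²` solution. On a small disc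
`B` about `0`: `φ_i = G_i(·, V)` is bounded on `B \ {0}`; `TC φ_i B` is continuous (ERC) and on `B \ {0}` it is `C¹` with `∂̄ = φ_i`
(`φ_i` is `C¹` there; ERB, ERD), so `V_i - TC φ_i B` is holomorphic and bounded on `B \ {0}` and extends
(`Complex.differentiableOn_update_limUnder_of_bddAbove` or similar). So the extended `V` satisfies the hypotheses of ERJ on the disc (at the other
points use ERG). -/
def ERL_stmt : Prop := ∀ (n : ℕ) (V : ℂ → Fin n → ℂ) (G : ℂ → (Fin n → ℂ) → Fin n → ℂ),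
  ContDiffOn ℝ ∞ (fun x : ℂ × (Fin n → ℂ) => G x.1 x.2) (Metric.ball 0 1 ×ˢ univ) →
  ContDiffOn ℝ 1 V (Metric.ball 0 1 \ {0}) → (∀ z ∈ Metric.ball (0 : ℂ) 1 \ {0}, ∀ i, dzb (fun w => V w i) z = G z (V z) i) →
  (∃ M ρ : ℝ, 0 < ρ ∧ ∀ z ∈ Metric.ball (0 : ℂ) ρ \ {0}, ‖V z‖ ≤ M) →
  ∃ V' : ℂ → Fin n → ℂ, ContDiffOn ℝ 2 V' (Metric.ball 0 1) ∧ (∀ z ∈ Metric.ball (0 : ℂ) 1 \ {0}, V' z = V z) ∧
    ∀ z ∈ Metric.ball (0 : ℂ) 1, ∀ i, dzb (fun w => V' w i) z = G z (V' z) i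

/-! ## The operators on the sphere -/

/-- EIX. Change of variables `ξ ↦ 1/ξ` (Jacobian `|ξ|^{-4}`), for the annulus `1/R < |η| ≤ 1` and `1 ≤ |ξ| < R`. -/
def EIX_stmt : Prop := ∀ (E : Type) [NormedAddCommGroup E] [NormedSpace ℝ E] (f : ℂ → E) (R : ℝ), 1 < R →
  (IntegrableOn f {η : ℂ | 1 / R < ‖η‖ ∧ ‖η‖ < 1} ↔
    IntegrableOn (fun ξ : ℂ => (‖ξ‖⁻¹ ^ 4 : ℝ) • f ξ⁻¹) {ξ : ℂ | 1 < ‖ξ‖ ∧ ‖ξ‖ < R}) ∧
  ∫ η in {η : ℂ | 1 / R < ‖η‖ ∧ ‖η‖ < 1}, f η = ∫ ξ in {ξ : ℂ | 1 < ‖ξ‖ ∧ ‖ξ‖ < R}, (‖ξ‖⁻¹ ^ 4 : ℝ) • f ξ⁻¹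

/-- EIB. The operator `TB` (densities `≤ C mt⁻¹`). Continuity on the disc: EKE (with a bounded measurable factor), outside by gluing. Gluing: direct
computation (`z² z^{-3}/(1-ξ/z) = 1/(z-ξ)` etc.). Representation on `ball 0 R`: the part `1/R < |η| ≤ 1` of the second integral becomes by EIX
`∫_{1<|ξ|<R} (z/ξ)³ exB/(z-ξ)`, and `(z/ξ)³/(z-ξ) = 1/(z-ξ) + (z²+zξ+ξ²)/ξ³`; the part `|η| ≤ 1/R` is holomorphic in `|z| < R`. -/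
def EIB_stmt : Prop := ∀ (β : Bool → ℂ → ℂ) (C : ℝ) (P : Fin 3 → ℂ), (∀ j, AEStronglyMeasurable (β j) (volume.restrict Dk)) →
  (∀ j, ∀ z ∈ Dk, z ^ 8 ≠ 1 → ‖β j z‖ ≤ C * (mt z)⁻¹) →
  (∀ j, Continuous fun z => TB β j z + Pq P j z) ∧
  (∀ j z, z ≠ 0 → TB β j z + Pq P j z = z ^ 2 * (TB β (!j) z⁻¹ + Pq P (!j) z⁻¹)) ∧
  ∀ j (R : ℝ), 1 < R → IntegrableOn (exB β j) (Metric.ball 0 R) ∧ ∃ h : ℂ → ℂ, DifferentiableOn ℂ h (Metric.ball 0 R) ∧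
    ∀ z ∈ Metric.ball (0 : ℂ) R, TB β j z + Pq P j z = TC (exB β j) (Metric.ball 0 R) z + h z

/-- EIG. The operator `TG` (densities `≤ C W`, moments zero). Gluing (here the moments enter): `g_j(z) + z^{-4} g_{!j}(1/z)` is `z^{-3}` times a
combination of the moments, for all `z ≠ 0` which are not roots. Representation: `-η³/(1-zη) |ξ|^{-4} φ(1/ξ) = exG/(z-ξ)`, `η = 1/ξ`. The bound on
the disc from EKD, outside by gluing (`|1-z^{-8}| = |1-z⁸|/|z|⁸`). -/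
def EIG_stmt : Prop := ∀ (φ : Bool → ℂ → ℂ) (C : ℝ), (∀ j, AEStronglyMeasurable (φ j) (volume.restrict Dk)) →
  (∀ j, ∀ z ∈ Dk, z ^ 8 ≠ 1 → ‖φ j z‖ ≤ C * Wt 1 z) →
  (∀ k : Fin 3, (∫ ξ in Dk, φ false ξ * ξ ^ (k : ℕ)) + ∫ ξ in Dk, φ true ξ * ξ ^ (2 - (k : ℕ)) = 0) →
  (∀ j, ContinuousOn (TG φ j) Ns) ∧
  (∀ R : ℝ, ∃ C' : ℝ, ∀ j, ∀ z ∈ Metric.ball (0 : ℂ) R, z ^ 8 ≠ 1 → ‖TG φ j z‖ ≤ C' * (mt z)⁻¹) ∧
  (∀ j z, z ≠ 0 → z ^ 8 ≠ 1 → TG φ j z = -z⁻¹ ^ 4 * TG φ (!j) z⁻¹) ∧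
  ∀ j (R : ℝ), 1 < R → IntegrableOn (exG φ j) (Metric.ball 0 R) ∧ ∃ h : ℂ → ℂ, DifferentiableOn ℂ h (Metric.ball 0 R) ∧
    ∀ z ∈ Metric.ball (0 : ℂ) R, z ^ 8 ≠ 1 → TG φ j z = TC (exG φ j) (Metric.ball 0 R) z + h z

/-- EIU. The operator `TU` (densities `≤ C W`, mass zero). Gluing: `log|1/z-η| = log|1-zη| - log|z|`, mass zero. Representation: for `1 < |ξ| < R`:
`log|1-z/ξ| = log|z-ξ| - log|ξ|`; for `|η| ≤ 1/R`, `|z| < R`: `log|1-zη| = Re Log(1-zη)`, differentiate under the integral. -/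
def EIU_stmt : Prop := ∀ (F : Bool → ℂ → ℝ) (C : ℝ), (∀ j, AEStronglyMeasurable (F j) (volume.restrict Dk)) →
  (∀ j, ∀ z ∈ Dk, z ^ 8 ≠ 1 → |F j z| ≤ C * Wt 1 z) →
  ((∫ ξ in Dk, F false ξ) + ∫ ξ in Dk, F true ξ = 0) →
  (∀ j, Continuous (TU F j)) ∧ (∀ j z, z ≠ 0 → TU F j z = TU F (!j) z⁻¹) ∧
  ∀ j (R : ℝ), 1 < R → IntegrableOn (exF F j) (Metric.ball 0 R) ∧ ∃ h : ℂ → ℂ, DifferentiableOn ℂ h (Metric.ball 0 R) ∧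
    ∀ z ∈ Metric.ball (0 : ℂ) R, TU F j z = TL (exF F j) (Metric.ball 0 R) z + (h z).re

end

end Pool.Agent.DL
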