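import Pool.Agent.helper22.DL.SpecE1

/-! # Project dl (MP_4caea3_gt), stage 2, part 2: the fixed point equation, regularity, a priori bounds, existence -/

namespace Pool.Agent.DL

open Matrix Complex MeasureTheory Set Filter Topology
open scoped ComplexOrder Manifold ContDiff ComplexConjugate

noncomputable section

/-! ## From the fixed point equation to the integral equation on the plane -/

/-- ESC. Validity of the members of the homotopies. -/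
def ESC_stmt : Prop := ∀ (D : Dat), D.Valid → ∀ τ : ℝ, (D.sc τ).Valid ∧ (D.so τ).Valid

/-- EIS. Extension of a solution of the fixed point equation to the plane (EIB, EIG, EIU). The density `phi` is continuous times `W`
(`≤ C W`), so `TG (phi D u b)` is continuous off the roots and `≤ C mt⁻¹` (EIG) and agrees with `g` on the disc off the roots (a null set,
so the integrals of `bet u g`, `Fd D u b g` may be computed with it); `bet ≤ C mt⁻¹`; `|Fd| ≤ C W` (`mt⁻² = |1-z⁸|^{-1/2} ≤ C |1-z⁸|^{-1}`,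
`2/(1+|z|²)² ≤ 2 ≤ 4/|1-z⁸|`). By the gluing rules the densities computed from the extended functions agree (almost everywhere) with
`exB (bet u g)` etc.: for `U, B, G` the extended functions, `z ≠ 0`: `Ls (U j) z = Ls (U !j) z⁻¹ - 4 log|z|`; `QQ` of chart `j` at `z` is `z²` times `QQ` of
chart `!j` at `1/z`; `RR` gets the factor `|z|⁴`; `W z = |z|^{-8} W z⁻¹`; `bet j z = -z² (conj z)^{-2} bet (!j) z⁻¹`; `Fd j z = |z|^{-4} Fd (!j) z⁻¹`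
(`2/(1+|z|²)² = |z|^{-4} 2/(1+|1/z|²)²`). -/
def EIS_stmt : Prop := ∀ (D : Dat) (u : Bool → ℂ → ℝ) (b g : Bool → ℂ → ℂ) (c : ℝ) (P : Fin 3 → ℂ), D.Valid → Sol3 D u b g c P →
  GS D (fun j z => TU (Fd D u b g) j z + c) (fun j z => TB (bet u g) j z + Pq P j z) (TG (phi D u b))

/-- EIL. The same for the linearised equation (`RR'`, `QQ'` have the same gluing rules; `|bet'| ≤ C mt⁻¹`, `|Fd'| ≤ C W`). -/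
def EIL_stmt : Prop := ∀ (D : Dat) (u : Bool → ℂ → ℝ) (b g : Bool → ℂ → ℂ) (c : ℝ) (P : Fin 3 → ℂ)
  (u' : Bool → ℂ → ℝ) (b' g' : Bool → ℂ → ℂ) (c' : ℝ) (P' : Fin 3 → ℂ), D.Valid → Sol3 D u b g c P →
  Lin3 D u b g u' b' g' c' P' →
  GSL D (fun j z => TU (Fd D u b g) j z + c) (fun j z => TB (bet u g) j z + Pq P j z) (TG (phi D u b))
    (fun j z => TU (Fd' D u b g u' b' g') j z + c') (fun j z => TB (bet' u g u' g') j z + Pq P' j z)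
    (TG (phi' D u b u' b'))

/-! ## Regularity on the sphere -/

/-- EPA. Smoothness off the roots. Fix `j`; apply ERJ, ERK with `n = 8`, `Ω = Ns` to `V = (b, g, u, ∂u, b', g', u', ∂u')` and
`G = (e^{-L} conj V₁, W conj QQ, conj V₃, e^{-L}|V₁|² + W (RR + s) + 2/(1+|z|²)², e^{-L}(conj V₅ - Re V₆ conj V₁), W conj QQ', conj V₇, Fd')` with
`L = Re V₂ - 2 log(1+|z|²)`. Representations: ERB for `b, g, b', g'`; ERI and ERH for `u, ∂u, u', ∂u'` (densities are continuous on `Ns`). -/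
def EPA_stmt : Prop := ∀ (D : Dat) (u : Bool → ℂ → ℝ) (b g : Bool → ℂ → ℂ) (u' : Bool → ℂ → ℝ) (b' g' : Bool → ℂ → ℂ),
  D.Valid → GS D u b g → GSL D u b g u' b' g' → ∀ j,
  (ContDiffOn ℝ 2 (u j) Ns ∧ ContDiffOn ℝ 2 (b j) Ns ∧ ContDiffOn ℝ 2 (g j) Ns ∧
    ContDiffOn ℝ 2 (fun z => dz (fun w => (u j w : ℂ)) z) Ns) ∧
  (∀ z ∈ Ns, dzb (b j) z = bet u g j z ∧ dzb (g j) z = phi D u b j z ∧
    dzb (fun w => dz (fun v => (u j v : ℂ)) w) z = (Fd D u b g j z : ℂ)) ∧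
  (ContDiffOn ℝ 2 (u' j) Ns ∧ ContDiffOn ℝ 2 (b' j) Ns ∧ ContDiffOn ℝ 2 (g' j) Ns ∧
    ContDiffOn ℝ 2 (fun z => dz (fun w => (u' j w : ℂ)) z) Ns) ∧
  ∀ z ∈ Ns, dzb (b' j) z = bet' u g u' g' j z ∧ dzb (g' j) z = phi' D u b u' b' j z ∧
    dzb (fun w => dz (fun v => (u' j v : ℂ)) w) z = (Fd' D u b g u' b' g' j z : ℂ)

/-- EPB. Growth of `∂u` at the roots: off the roots `∂u = TC F (ball 0 R) + h'/2` (`R = 3`; near a point `z₁` write `TL F (ball 0 3)` as the sum of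
the potential of a small ball about `z₁` (ERF) and of the rest (ERI)), `|F| ≤ C W` on `ball 0 3` off the roots, and EKD. -/
def EPB_stmt : Prop := ∀ (F u : ℂ → ℝ) (h : ℂ → ℂ) (C : ℝ), IntegrableOn F (Metric.ball 0 3) → ContinuousOn F Ns →
  (∀ z ∈ Metric.ball (0 : ℂ) 3, z ^ 8 ≠ 1 → |F z| ≤ C * Wt 1 z) → DifferentiableOn ℂ h (Metric.ball 0 3) →
  (∀ z ∈ Metric.ball (0 : ℂ) 3, z ^ 8 ≠ 1 → u z = TL F (Metric.ball 0 3) z + (h z).re) →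
  ∃ C' : ℝ, ∀ z ∈ Metric.ball (0 : ℂ) 2, z ^ 8 ≠ 1 → ‖dz (fun w => (u w : ℂ)) z‖ ≤ C' * (mt z)⁻¹

/-- EPS. The coordinates at the roots (`mm`, `r4` of SpecX, X02: `Re mm(y²) > 0` for `|y| < 1`, `r4 w ^ 4 = w`, `r4 1 = 1`;
`(mm u)' = -2/(1+u)²`, so `psi' = -psi y/(1-y⁴)`; `1 - psi⁸ = 1 - mm(y²)² = (2y/(1+y²))²`). -/
def EPS_stmt : Prop := ∀ d : ℂ, d ^ 8 = 1 → psi d 0 = d ∧ DifferentiableOn ℂ (psi d) (Metric.ball 0 1) ∧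
  (∀ y ∈ Metric.ball (0 : ℂ) 1, 1 - psi d y ^ 8 = (2 * y / (1 + y ^ 2)) ^ 2 ∧ psi d y ≠ 0 ∧
    deriv (psi d) y = -psi d y * y / (1 - y ^ 4) ∧ (y ≠ 0 → psi d y ∈ Ns)) ∧
  ∀ κ : ℝ, 0 < κ → ContDiffOn ℝ ∞ (Wr κ) (Metric.ball 0 1) ∧ Wr κ 0 = κ / 4 ∧ ∀ y ∈ Metric.ball (0 : ℂ) 1, 0 < Wr κ y ∧
    κ * ‖deriv (psi d) y‖ ^ 2 = Wr κ y * ‖1 - psi d y ^ 8‖ ∧ (y ≠ 0 → Wr κ y = Wt κ (psi d y) * ‖deriv (psi d) y‖ ^ 2)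

/-- EPC. Smoothness at the roots. In the punctured `y`-disc apply ERL with `n = 8` to
`V = (b∘ψ, ψ' g∘ψ, u∘ψ, ψ' (∂u)∘ψ, b'∘ψ, ψ' g'∘ψ, u'∘ψ, ψ' (∂u')∘ψ)`, `ψ = psi d`: by EPA and the chain rule (`∂̄(f∘ψ) = conj ψ' (∂̄f)∘ψ`,
`∂̄(ψ' f∘ψ) = |ψ'|² (∂̄f)∘ψ`) it solves the system with
`G = (e^{-L} conj V₁, W_y conj QQ, conj V₃, e^{-L}|V₁|² + W_y (RR + s∘ψ) + 2|ψ'|²/(1+|ψ|²)², ...)`, `W_y = Wr κ` (EPS). Bounded near `0`: `b, u, b', u'` are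
continuous, `|g|, |∂u| ≤ C mt⁻¹` (GS, EPB with `F = Fd`, `|Fd| ≤ C W` on `ball 0 3`), `|ψ'| mt(ψ)⁻¹ ≤ C |y| |y|^{-1/2}` (EPS). The extension of `b∘ψ`
by ERL agrees with `b∘ψ` at `0` by continuity. -/
def EPC_stmt : Prop := ∀ (D : Dat) (u : Bool → ℂ → ℝ) (b g : Bool → ℂ → ℂ) (u' : Bool → ℂ → ℝ) (b' g' : Bool → ℂ → ℂ),
  D.Valid → GS D u b g → GSL D u b g u' b' g' → ∀ j d, d ^ 8 = 1 →
  ContDiffOn ℝ 2 (fun y => u j (psi d y)) (Metric.ball 0 1) ∧ ContDiffOn ℝ 2 (fun y => b j (psi d y)) (Metric.ball 0 1) ∧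
  ContDiffOn ℝ 2 (fun y => u' j (psi d y)) (Metric.ball 0 1) ∧ ContDiffOn ℝ 2 (fun y => b' j (psi d y)) (Metric.ball 0 1)

/-- ECH. Chain rule for the systems. -/
def ECH_stmt : Prop := ∀ (Ω Ω' : Set ℂ) (ψ : ℂ → ℂ) (W W' : ℂ → ℝ) (p r : ℂ → ℂ) (s L : ℂ → ℝ) (b : ℂ → ℂ) (L' : ℂ → ℝ) (b' : ℂ → ℂ),
  IsOpen Ω → IsOpen Ω' → DifferentiableOn ℂ ψ Ω → MapsTo ψ Ω Ω' → (∀ z ∈ Ω, W' z = W (ψ z) * ‖deriv ψ z‖ ^ 2) →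
  SY Ω' W p r s L b →
  SY Ω W' (fun y => p (ψ y)) (fun y => r (ψ y)) (fun y => s (ψ y)) (fun y => L (ψ y)) (fun y => b (ψ y)) ∧
  (LSY Ω' W p r L b L' b' → LSY Ω W' (fun y => p (ψ y)) (fun y => r (ψ y)) (fun y => L (ψ y)) (fun y => b (ψ y))
    (fun y => L' (ψ y)) (fun y => b' (ψ y)))

/-- ECL. The equations extend from the punctured disc by continuity (both sides are continuous functions, by the `C²` regularity). -/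
def ECL_stmt : Prop := ∀ (W : ℂ → ℝ) (p r : ℂ → ℂ) (s L : ℂ → ℝ) (b : ℂ → ℂ) (L' : ℂ → ℝ) (b' : ℂ → ℂ),
  ContinuousOn W (Metric.ball 0 1) → ContinuousOn p (Metric.ball 0 1) → ContinuousOn r (Metric.ball 0 1) →
  ContinuousOn s (Metric.ball 0 1) → ContDiffOn ℝ 2 L (Metric.ball 0 1) → ContDiffOn ℝ 2 b (Metric.ball 0 1) →
  SY (Metric.ball 0 1 \ {0}) W p r s L b → SY (Metric.ball 0 1) W p r s L b ∧
  (ContDiffOn ℝ 2 L' (Metric.ball 0 1) → ContDiffOn ℝ 2 b' (Metric.ball 0 1) → LSY (Metric.ball 0 1 \ {0}) W p r L b L' b' →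
    LSY (Metric.ball 0 1) W p r L b L' b')

/-- EPD. Smooth solutions on the sphere. Off the roots (EPA, LW): `L = Ls u`, `lap L = Fd - 2/(1+|z|²)²` (`lap log(1+|z|²) = 1/(1+|z|²)²`),
`e^L ∂̄b = conj g`, `∂ (conj g) = conj (∂̄g) = W QQ`; linearised: `e^L(∂̄b' + u' ∂̄b) = conj g'`. At the roots: ECH on the punctured disc, EPC, EPS, ECL. -/
def EPD_stmt : Prop := ∀ (D : Dat) (u : Bool → ℂ → ℝ) (b g : Bool → ℂ → ℂ) (u' : Bool → ℂ → ℝ) (b' g' : Bool → ℂ → ℂ),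
  D.Valid → GS D u b g → GSL D u b g u' b' g' →
  PS3 D (fun j => Ls (u j)) b ∧ LPS3 D (fun j => Ls (u j)) b u' b'

/-- EPE. The linear part may be zero (all the terms vanish). -/
def EPE_stmt : Prop := ∀ (D : Dat) (u : Bool → ℂ → ℝ) (b g : Bool → ℂ → ℂ), D.Valid → GS D u b g →
  GSL D u b g (fun _ _ => 0) (fun _ _ => 0) (fun _ _ => 0)

/-! ## Good coordinates, the background, maxima -/

/-- EGS. The background `S = (1+|z|²)⁴ + |1-z⁸| = Σ_k C(4,k)|z^k|² + |w|²`, `w² = 1 - z⁸`. For holomorphic `f_i`: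
`lap log Σ|f_i|² = (Σ_{i<j} |f_i f_j' - f_j f_i'|²)/(Σ|f_i|²)²` (from `lap |f|²... = |f'|²` and LA). Off the roots (local square root `w`, `w' = -4z⁷/w`):
`S² lap log S = 4(1+|z|²)⁶ + Σ_{k≤4} C(4,k) |4z^{k+7} + k z^{k-1}(1-z⁸)|²/|1-z⁸|`, so `lap log S / Wt 1 ≥ c` on the disc by compactness (the continuous
function `4(1+|z|²)⁶|1-z⁸| + Σ ...` has no zero). At a root: `S(psi d y) = (1+|psi|²)⁴ + 4|y|²/|1+y²|²`, `psi = d + O(y²)`, so at `y = 0`: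
`lap log S = 4/16`, and `Wr 1 0 = 1/4`. Invariance: `S z = |z|⁸ S(1/z)`. -/
def EGS_stmt : Prop := (∃ c : ℝ, 0 < c ∧
    (∀ z ∈ Dk, z ^ 8 ≠ 1 → ContDiffAt ℝ 2 (fun w => Real.log (Sg w)) z ∧
      c * Wt 1 z ≤ 1 / 2 * lap (fun w => Real.log (Sg w)) z) ∧
    ∀ d : ℂ, d ^ 8 = 1 → ContDiffAt ℝ 2 (fun y => Real.log (Sg (psi d y))) 0 ∧
      c * Wr 1 0 ≤ 1 / 2 * lap (fun y => Real.log (Sg (psi d y))) 0) ∧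
  Continuous Sg ∧ (∀ z, 1 ≤ Sg z) ∧ (∀ z ∈ Dk, Sg z ≤ 18) ∧ ∀ z, z ≠ 0 → Sg z = ‖z‖ ^ 8 * Sg z⁻¹

/-- EPT. A good coordinate at every point of the disc: a translation off the roots (`om = Wt κ (z₀ + y)`), `psi z₀` at a root (`om = Wr κ`)
(EGS, EPS, `PS3.sy` with ECH, `PS3.ro`). -/
def EPT_stmt : Prop := ∀ κ : ℝ, 4 ≤ κ → ∃ c : ℝ, 0 < c ∧ ∀ z₀ ∈ Dk, ∃ (ψ : ℂ → ℂ) (om : ℂ → ℝ) (ρ : ℝ), 0 < ρ ∧ ψ 0 = z₀ ∧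
  DifferentiableOn ℂ ψ (Metric.ball 0 ρ) ∧ (∀ y ∈ Metric.ball (0 : ℂ) ρ, 0 < om y) ∧
  κ * ‖deriv ψ 0‖ ^ 2 = om 0 * ‖1 - z₀ ^ 8‖ ∧
  ContDiffAt ℝ 2 (fun y => Real.log (Sg (ψ y))) 0 ∧ c * om 0 ≤ 1 / 2 * lap (fun y => Real.log (Sg (ψ y))) 0 ∧
  (∀ (D : Dat) (L : Bool → ℂ → ℝ) (b : Bool → ℂ → ℂ), D.κ = κ → PS3 D L b → ∀ j,
    SY (Metric.ball 0 ρ) om (fun y => D.p j (ψ y)) (fun y => D.r j (ψ y)) (fun y => D.s j (ψ y)) (fun y => L j (ψ y))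
      (fun y => b j (ψ y))) ∧
  ∀ (D : Dat) (L : Bool → ℂ → ℝ) (b : Bool → ℂ → ℂ) (L' : Bool → ℂ → ℝ) (b' : Bool → ℂ → ℂ), D.κ = κ → PS3 D L b →
    LPS3 D L b L' b' → ∀ j, LSY (Metric.ball 0 ρ) om (fun y => D.p j (ψ y)) (fun y => D.r j (ψ y)) (fun y => L j (ψ y))
      (fun y => b j (ψ y)) (fun y => L' j (ψ y)) (fun y => b' j (ψ y))

/-- ELQ. `lap log(1+|ψ|²) = |ψ'|²/(1+|ψ|²)²`. -/
def ELQ_stmt : Prop := ∀ (ψ : ℂ → ℂ) (ρ : ℝ), 0 < ρ → DifferentiableOn ℂ ψ (Metric.ball 0 ρ) →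
  ContDiffAt ℝ 2 (fun y => Real.log (1 + ‖ψ y‖ ^ 2)) 0 ∧
  lap (fun y => Real.log (1 + ‖ψ y‖ ^ 2)) 0 = ‖deriv ψ 0‖ ^ 2 / (1 + ‖ψ 0‖ ^ 2) ^ 2

/-- EMX. Maxima of continuous functions on the sphere. -/
def EMX_stmt : Prop := ∀ F : Bool → ℂ → ℝ, (∀ j, Continuous (F j)) → (∀ j z, z ≠ 0 → F j z = F (!j) z⁻¹) →
  ∃ j, ∃ z₀ ∈ Dk, (∀ z, F j z ≤ F j z₀) ∧ ∀ z, F (!j) z ≤ F j z₀

/-! ## Rank three -/

/-- EHL. The system is Hitchin's equation: with `H = H3 (L z) (b z)`, `U = uu b`,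
`U (∂̄(H⁻¹∂H) - W [A, A*]) U⁻¹ = e₁ (E₁₁ - E₃₃) + e^{-L} e₂ (E₁₂ - E₂₃) + conj e₂ (E₂₁ - E₃₂)`, where
`e₁ = lap L - e^L |∂̄b|² - W RR`, `e₂ = ∂(e^L ∂̄b) - W QQ` (checked numerically). Suggested: `N = [[0,1,0],[0,0,-1],[0,0,0]]`, `(∂U) U⁻¹ = ∂b N`,
`U A U⁻¹ = [[b, x, y], [1, -2b, x], [0, 1, b]]`, `x = xx p b`, `y = yy p r b`; `H⁻¹∂H = U⁻¹ (∂L E + γ̄ Nᴴ + ∂b N) U`,
`E = diag(1,0,-1)`, `γ̄ = e^L conj (∂̄b)`. -/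
def EHL_stmt : Prop := ∀ (Ω : Set ℂ) (W : ℂ → ℝ) (p r : ℂ → ℂ) (L : ℂ → ℝ) (b : ℂ → ℂ), IsOpen Ω → DifferentiableOn ℂ p Ω →
  DifferentiableOn ℂ r Ω → SY Ω W p r (fun _ => 0) L b →
  LH 3 Ω (fun z => A3 (p z) (r z)) W (fun z => H3 (L z) (b z))

/-- ENA. Algebra of the metric (`U A U⁻¹` as in EHL). -/
def ENA_stmt : Prop := ∀ (p r : ℂ) (L : ℝ) (b : ℂ), (H3 L b).PosDef ∧ (H3 L b).det = 1 ∧
  nn (H3 L b) (A3 p r) = fA p r L b ∧ trace (A3 p r) = 0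

/-- EEV. Eigenvalues of `A3`: characteristic polynomial `λ³ - 2pλ - r`. -/
def EEV_stmt : Prop := ∀ p r : ℂ, ∃ l : Fin 3 → ℂ, (A3 p r).charpoly = ∏ i, (Polynomial.X - Polynomial.C (l i)) ∧
  ∑ i, ‖l i‖ ^ 2 ≤ 3 * (1 + 2 * ‖p‖ + ‖r‖) ^ 2

/-- EAA. First bound. The function `F j z = fA(...)/(1+|z|²)²` on the sphere (`fA` of chart `j` at `z` is `|z|⁴` times `fA` of chart `!j` at `1/z`) has a
maximum at some `z₀` (EMX). In the good coordinate `ψ` at `z₀` (EPT, EHL, ENA) `f = fA∘ψ = nn H A`: WL (with `P = A`) and MX for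
`log f - 2 log(1+|ψ|²)`, ELQ: `om nn([A*,A])/f ≤ lap log f ≤ 2|ψ'|²/(1+|z₀|²)² ≤ (4/κ) om` (`|1-z₀⁸| ≤ 2`), and M1, EEV:
`(f-Λ)²/2 ≤ nn([A,A*]) ≤ (4/κ) f`, so `f ≤ max(2Λ, 32/κ)` at `z₀`; elsewhere on the disc at most `4` times this. -/
def EAA_stmt : Prop := ∀ (D : Dat) (L : Bool → ℂ → ℝ) (b : Bool → ℂ → ℂ) (Λ : ℝ), D.Valid → (∀ j z, D.s j z = 0) → PS3 D L b →
  (∀ j, ∀ z ∈ Dk, 3 * (1 + 2 * ‖D.p j z‖ + ‖D.r j z‖) ^ 2 ≤ Λ) →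
  ∀ j, ∀ z ∈ Dk, fA (D.p j z) (D.r j z) (L j z) (b j z) ≤ 4 * max (2 * Λ) (32 / D.κ)

/-- EAB. Second bound. Maximum `z₀` of `L + (1/2) log S` on the sphere (EMX, EGS); good coordinate (EPT), MX:
`-e^{-L} om ≤ lap (L∘ψ) ≤ -(1/2) lap log (S∘ψ) ≤ -c om` at `0` (`RR ≥ -e^{-L}`, `e^L|∂̄b|² ≥ 0`), so `L z₀ ≤ -log c`, `1 ≤ S ≤ 18`. -/
def EAB_stmt : Prop := ∀ κ : ℝ, 4 ≤ κ → ∃ C : ℝ, ∀ (D : Dat) (L : Bool → ℂ → ℝ) (b : Bool → ℂ → ℂ), D.Valid → D.κ = κ →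
  (∀ j z, D.s j z = 0) → PS3 D L b → ∀ j, ∀ z ∈ Dk, L j z ≤ C

/-- EAC. Bounds of `c` and `P`. `|phi| ≤ C W`, so `|g| ≤ C mt⁻¹` (EKD, EKC: `|1-zξ| ≥ |z̄-ξ|`), `|bet| ≤ C mt⁻¹`, `|Fd| ≤ C W`; then `TB (bet)` and
`TU (Fd)` are bounded on the disc (EKD), hence `c` and the polynomials `Pq P`, whose coefficients are `P 0 = Pq P false 0`,
`P 2 = Pq P true 0`, `P 1 = Pq P false 1 - P 0 - P 2`. -/
def EAC_stmt : Prop := ∀ κ M : ℝ, 4 ≤ κ → ∃ C : ℝ, ∀ (D : Dat) (u : Bool → ℂ → ℝ) (b g : Bool → ℂ → ℂ) (c : ℝ) (P : Fin 3 → ℂ),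
  D.Valid → D.κ = κ → (∀ j, ∀ z ∈ Dk, ‖D.p j z‖ ≤ M ∧ ‖D.r j z‖ ≤ M ∧ |D.s j z| ≤ M) → Sol3 D u b g c P →
  (∀ j, ∀ z ∈ Dk, |u j z| ≤ M ∧ ‖b j z‖ ≤ M) → |c| ≤ C ∧ ∀ k, ‖P k‖ ≤ C

/-- EAD. The a priori bounds along the homotopy (ESC, EIS, EPE, EPD, EAA: `6|b|² ≤ C`, `2e^{-L} ≤ C`; EAB; EAC; `u = L + 2 log(1+|z|²)`; on the disc
the extended functions of EIS agree with `u, b`). -/
def EAD_stmt : Prop := ∀ D : Dat, D.Valid → (∀ j z, D.s j z = 0) → ∃ M : ℝ, ∀ τ ∈ Icc (0 : ℝ) 1,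
  ∀ (u : Bool → ℂ → ℝ) (b g : Bool → ℂ → ℂ) (c : ℝ) (P : Fin 3 → ℂ), Sol3 (D.sc τ) u b g c P →
  (∀ j, ∀ z ∈ Dk, |u j z| ≤ M ∧ ‖b j z‖ ≤ M) ∧ |c| ≤ M ∧ ∀ k, ‖P k‖ ≤ M

/-- ELN. The linearised equation. With `h = e^L`, `ℓ = ∂L`, `l = ∂L'`, `m = ∂b'`, `γ = h ∂̄b`, `γ' = h (∂̄b' + L' ∂̄b)`, `x = xx p b`, `y = yy p r b` the exact
identity (checked numerically)
`lap(2L'² + 4h|b'|²) = 4|l - γ̄ b'|² + 4h|m + b' ℓ|² + (4/h)|γ'|² + 2W (6|K₁₁|² + 2h|K₁₂|² + (2/h)|K₂₁|² + h²|K₁₃|² + |K₃₁|²/h²)`, where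
`K₁₁ = h x b̄' - b'`, `K₁₂ = 3bb' - h y b̄' - L'x`, `K₂₁ = L' - 3h b b̄'`, `K₁₃ = -2xb' - 2L'y`, `K₃₁ = 2h b̄'`. Proof: `∂̄b' = h⁻¹(γ' - L'γ)`, `∂γ = W QQ`,
`∂γ' = W QQ'`, `∂∂̄b' = -ℓ ∂̄b' + h⁻¹(W QQ' - lγ - L' W QQ)`, `lap L = h⁻¹|γ|² + W RR`, `lap L' = h⁻¹(2Re(γ̄γ') - L'|γ|²) + W RR'`,
`lap(L'²) = 2L' lap L' + 2|l|²`, `lap(h|b'|²) = h[(lap L + |ℓ|²)|b'|² + 2Re(ℓ ∂̄(b'b̄')) + 2Re(b̄' ∂∂̄b') + |m|² + |∂̄b'|²]`,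
`∂̄(b'b̄') = b̄'∂̄b' + b' conj m`; then a polynomial identity in the values and their conjugates. -/
def ELN_stmt : Prop := ∀ (Ω : Set ℂ) (W : ℂ → ℝ) (p r : ℂ → ℂ) (L : ℂ → ℝ) (b : ℂ → ℂ) (L' : ℂ → ℝ) (b' : ℂ → ℂ), IsOpen Ω →
  SY Ω W p r (fun _ => 0) L b → LSY Ω W p r L b L' b' → ∀ z ∈ Ω, 0 ≤ W z →
  ContDiffAt ℝ 2 (fun w => 2 * L' w ^ 2 + 4 * Real.exp (L w) * ‖b' w‖ ^ 2) z ∧
  2 * W z * (4 * ‖b' z‖ ^ 2 + Real.exp (-L z) * ‖(L' z : ℂ) - 3 * (Real.exp (L z) : ℂ) * b z * conj (b' z)‖ ^ 2) ≤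
    lap (fun w => 2 * L' w ^ 2 + 4 * Real.exp (L w) * ‖b' w‖ ^ 2) z

/-- EIJ. Injectivity of the linearised equation: EIS, EIL, EPD; the function `2L'² + 4e^L|b'|²` on the sphere (invariant) has a maximum (EMX); in the
good coordinate there (EPT) MX and ELN give `b' = 0`, `L' = 0` at that point, so the function is zero everywhere. Then `phi' = 0`, `g' = 0` off the
roots, `bet' = Fd' = 0` almost everywhere, so `c' = 0` and `Pq P' = 0`. -/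
def EIJ_stmt : Prop := ∀ (D : Dat) (u : Bool → ℂ → ℝ) (b g : Bool → ℂ → ℂ) (c : ℝ) (P : Fin 3 → ℂ)
  (u' : Bool → ℂ → ℝ) (b' g' : Bool → ℂ → ℂ) (c' : ℝ) (P' : Fin 3 → ℂ), D.Valid → (∀ j z, D.s j z = 0) → Sol3 D u b g c P →
  Lin3 D u b g u' b' g' c' P' → (∀ j, ∀ z ∈ Dk, u' j z = 0 ∧ b' j z = 0) ∧ c' = 0 ∧ ∀ k, P' k = 0

/-- The Banach space of the rank three problem. -/
abbrev Y3 : Type := (Bool → C(Dk, ℝ)) × (Bool → C(Dk, ℂ)) × ℝ × (Fin 3 → ℂ)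

/-- Functions on the plane from an element of `Y3`. -/
def uE (y : Y3) (j : Bool) (z : ℂ) : ℝ := y.1 j (pr z)
@[inherit_doc uE] def bE (y : Y3) (j : Bool) (z : ℂ) : ℂ := y.2.1 j (pr z)

/-- EFA. Functional form of the fixed point equation (EKT, EFN). `Z = (Bool → C(Dk,ℂ)) × (Bool → C(Dk,ℝ)) × ℝ × (Fin 3 → ℂ)`,
`N(τ,y) = (β̂, F̂, c + ∫ W F̂₀ + ∫ W F̂₁, P_k + m_k)` with `Q̂_j = QQ(τ²p_j, τ³r_j, L_j, b_j)`, `ĝ = TGo (conj Q̂)`, `β̂_j = e^{-L_j} conj ĝ_j`,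
`F̂_j = (|1-z⁸|^{1/2}/κ) e^{-L_j} |ĝ_j|² + RR(...) + s_j + 2|1-z⁸|/(κ(1+|z|²)²)`, `m_k` the moments of `W conj Q̂`;
`T(β̂, F̂, c', P') = (TUo F̂ + c', TBo β̂ + Pq P', c', P')`. Here `g = ĝ/mt`, `bet = mt⁻¹ β̂`, `Fd = W F̂` off the roots, and `c' = c` in the fixed point
equation is the mass condition, `P' = P` the moment conditions. `N` is built from Nemytskii operators (EFN with `E = ℝ × ℝ × ℂ`, `ℝ × ℝ × ℂ × ℂ`; explicit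
derivatives `QQ'`, `RR'` in the direction of `(L, b)`), the bounded operator `TGo` and bounded functionals (`W` is integrable on the disc, EKD). The
derivative of `N` in the direction `(0, v)` is computed pointwise. -/
def EFA_stmt : Prop := ∀ D : Dat, D.Valid → ∃ (Z : Type) (_ : NormedAddCommGroup Z) (_ : NormedSpace ℝ Z) (T : Z →L[ℝ] Y3)
  (N : ℝ × Y3 → Z), IsCompactOperator T ∧ ContDiff ℝ 1 N ∧
  (∀ M : ℝ, ∃ M' : ℝ, ∀ τ ∈ Icc (0 : ℝ) 1, ∀ y, ‖y‖ ≤ M → ‖N (τ, y)‖ ≤ M') ∧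
  (∀ τ ∈ Icc (0 : ℝ) 1, ∀ y, T (N (τ, y)) = y → ∃ g, Sol3 (D.sc τ) (uE y) (bE y) g y.2.2.1 y.2.2.2 ∧
    ∀ v, T (fderiv ℝ N (τ, y) (0, v)) = v → ∃ g', Lin3 (D.sc τ) (uE y) (bE y) g (uE v) (bE v) g' v.2.2.1 v.2.2.2) ∧
  ∀ τ ∈ Icc (0 : ℝ) 1, ∀ u b g c P, Sol3 (D.sc τ) u b g c P → ∃ y : Y3, T (N (τ, y)) = y

/-- EFB. Continuity for rank three (EFC, EFA). The norm of `y` is bounded if `|u|, |b| ≤ M` on the disc and `|c|, |P_k| ≤ M`. -/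
def EFB_stmt : Prop := ∀ D : Dat, D.Valid → (∃ u b g c P, Sol3 (D.sc 0) u b g c P) →
  (∃ M : ℝ, ∀ τ ∈ Icc (0 : ℝ) 1, ∀ (u : Bool → ℂ → ℝ) (b g : Bool → ℂ → ℂ) (c : ℝ) (P : Fin 3 → ℂ), Sol3 (D.sc τ) u b g c P →
    (∀ j, ∀ z ∈ Dk, |u j z| ≤ M ∧ ‖b j z‖ ≤ M) ∧ |c| ≤ M ∧ ∀ k, ‖P k‖ ≤ M) →
  (∀ τ ∈ Icc (0 : ℝ) 1, ∀ (u : Bool → ℂ → ℝ) (b g : Bool → ℂ → ℂ) (c : ℝ) (P : Fin 3 → ℂ)
    (u' : Bool → ℂ → ℝ) (b' g' : Bool → ℂ → ℂ) (c' : ℝ) (P' : Fin 3 → ℂ), Sol3 (D.sc τ) u b g c P →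
    Lin3 (D.sc τ) u b g u' b' g' c' P' → (∀ j, ∀ z ∈ Dk, u' j z = 0 ∧ b' j z = 0) ∧ c' = 0 ∧ ∀ k, P' k = 0) →
  ∃ u b g c P, Sol3 (D.sc 1) u b g c P

/-! ## The scalar equation (`r = 0`, `b = 0`): `lap L = W (|p|² e^L - e^{-L} + s)` -/

/-- The source of the homotopy. -/
def shf (κ : ℝ) (p : Bool → ℂ → ℂ) (j : Bool) (z : ℂ) : ℝ :=
  -(‖p j z‖ ^ 2 / (1 + ‖z‖ ^ 2) ^ 2 - (1 + ‖z‖ ^ 2) ^ 2 + 2 * ‖1 - z ^ 8‖ / (κ * (1 + ‖z‖ ^ 2) ^ 2))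

/-- The data with this source. -/
def Dat.sh (D : Dat) : Dat := ⟨D.κ, D.p, D.r, shf D.κ D.p⟩

/-- The zero function of a chart index. -/
abbrev zf : Bool → ℂ → ℂ := fun _ _ => 0

/-- ESV. Validity of `D.sh` (`|1 - psi⁸| = |2y/(1+y²)|²` is smooth, EPS; gluing: `p_j(z) = z⁴ p_{!j}(1/z)`, `(1+|z|²)² = |z|⁴(1+|1/z|²)²`), and the
trivial solution of the scalar equation for it: `u = 0`, `c = 0` (the density `Fd` vanishes off the roots, `TU` of it is zero). -/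
def ESV_stmt : Prop := ∀ D : Dat, D.Valid → D.sh.Valid ∧
  ((∀ j z, D.r j z = 0) → Sol3 (D.sh.so 1) (fun _ _ => 0) zf zf 0 0)

/-- ESD. A priori bounds. A solution extends to `PS3 (D.sh.so σ) L 0` (EIS, EPE, EPD; the extended `b` is zero on the disc and by gluing everywhere).
Upper bound: maximum `z₀` of `L + (1/2) log S`, as in EAB: `|p|²e^L - e^{-L} + σ shf ≤ -c` at `z₀`; if `L ≥ L_K = -2 log(1+|z₀|²)` there, then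
`e^{-L} ≥ c + |p|²(e^L - σ e^{L_K}) + σ(e^{-L_K} - 2|1-z₀⁸|/(κ(1+|z₀|²)²)) ≥ c` (`κ ≥ 4`). Lower bound: minimum `z₀` of `u = L + 2 log(1+|z|²)`, ELQ:
`lap (L∘ψ) ≥ -2|ψ'|²/(1+|z₀|²)² = -om 2|1-z₀⁸|/(κ(1+|z₀|²)²) ≥ -om`, so `e^{-L} ≤ |p|²e^L + 1 + σ shf ≤ |p|² + 5` if `L ≤ L_K`. `c`: EAC. -/
def ESD_stmt : Prop := ∀ D : Dat, D.Valid → (∀ j z, D.r j z = 0) → ∃ M : ℝ, ∀ σ ∈ Icc (0 : ℝ) 1,
  ∀ (u : Bool → ℂ → ℝ) (c : ℝ), Sol3 (D.sh.so σ) u zf zf c 0 → (∀ j, ∀ z ∈ Dk, |u j z| ≤ M) ∧ |c| ≤ M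

/-- ESI. Injectivity: EIS, EIL, EPD; `lap L' = W (|p|²e^L + e^{-L}) L'` (`RR'` at `b = b' = 0`), maximum of `L'²` on the sphere (EMX, EPT, MX,
`lap(L'²) = 2L' lap L' + 2|∂L'|²`). -/
def ESI_stmt : Prop := ∀ (D : Dat) (u : Bool → ℂ → ℝ) (c : ℝ) (u' : Bool → ℂ → ℝ) (c' : ℝ), D.Valid → (∀ j z, D.r j z = 0) →
  Sol3 D u zf zf c 0 → Lin3 D u zf zf u' zf zf c' 0 → (∀ j, ∀ z ∈ Dk, u' j z = 0) ∧ c' = 0

/-- The Banach space of the scalar problem. -/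
abbrev Y1 : Type := (Bool → C(Dk, ℝ)) × ℝ

/-- Functions on the plane from an element of `Y1`. -/
def uE1 (y : Y1) (j : Bool) (z : ℂ) : ℝ := y.1 j (pr z)

/-- ESA. Functional form of the scalar equation (as EFA; with `b = g = 0`, `QQ = 0`, so `phi = bet = 0` and the equations for `b`, `g`, the
moments are trivial; linearised: `QQ' = 0` at `b = b' = 0`). -/
def ESA_stmt : Prop := ∀ D : Dat, D.Valid → (∀ j z, D.r j z = 0) → ∃ (Z : Type) (_ : NormedAddCommGroup Z) (_ : NormedSpace ℝ Z)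
  (T : Z →L[ℝ] Y1) (N : ℝ × Y1 → Z), IsCompactOperator T ∧ ContDiff ℝ 1 N ∧
  (∀ M : ℝ, ∃ M' : ℝ, ∀ τ ∈ Icc (0 : ℝ) 1, ∀ y, ‖y‖ ≤ M → ‖N (τ, y)‖ ≤ M') ∧
  (∀ τ ∈ Icc (0 : ℝ) 1, ∀ y, T (N (τ, y)) = y → Sol3 (D.so (1 - τ)) (uE1 y) zf zf y.2 0 ∧
    ∀ v, T (fderiv ℝ N (τ, y) (0, v)) = v → Lin3 (D.so (1 - τ)) (uE1 y) zf zf (uE1 v) zf zf v.2 0) ∧
  ∀ τ ∈ Icc (0 : ℝ) 1, ∀ u c, Sol3 (D.so (1 - τ)) u zf zf c 0 → ∃ y : Y1, T (N (τ, y)) = y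

/-- ESX. Existence for the scalar equation (EFC, ESA for `D.sh`, ESV, ESD, ESI, ESC; `D.sh.so 0 = D` if `s = 0`). -/
def ESX_stmt : Prop := ∀ D : Dat, D.Valid → (∀ j z, D.r j z = 0) → (∀ j z, D.s j z = 0) → ∃ u c, Sol3 D u zf zf c 0

/-! ## Existence on the sphere -/

/-- EZ3. Existence in rank three (EFB, EAD, EIJ, ESC; start: `D.sc 0 = ⟨κ, 0, 0, 0⟩`, ESX; then `D.sc 1 = D`, EIS, EPE, EPD). -/
def EZ3_stmt : Prop := ∀ D : Dat, D.Valid → (∀ j z, D.s j z = 0) → ∃ L b, PS3 D L b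

/-- EZ1. Existence for the scalar equation (ESX, EIS, EPE, EPD; `b = 0`). -/
def EZ1_stmt : Prop := ∀ D : Dat, D.Valid → (∀ j z, D.r j z = 0) → (∀ j z, D.s j z = 0) → ∃ L, PS3 D L zf

end

end Pool.Agent.DL
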