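import Pool.Agent.helper22.DL.SpecE2
import Pool.Agent.helper67.DL.SpecXE

/-! # Project dl (MP_4caea3_gt), stage 2, part 3: transfer from the sphere to the surface -/

namespace Pool.Agent.DL

open Matrix Complex MeasureTheory Set Filter Topology
open scoped ComplexOrder Manifold ContDiff ComplexConjugate

noncomputable section

/-! ## The coefficients -/

/-- The coefficient `s` in the two planes. -/
def sA (a t : ℝ) (j : Bool) (z : ℂ) : ℂ := bif j then I * t * a / 3 * z else ss t (a * z)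

/-- The coefficient `q` in the two planes. -/
def qA (a t : ℝ) (j : Bool) (z : ℂ) : ℂ := bif j then (t : ℂ) ^ 2 * (z ^ 4 - (a : ℂ) ^ 2 * z ^ 2) else qq t (a * z)

/-- The data of the rank three problem: `p = (3s²+q)/2`, `r = -2s(s²-q)`. -/
def DA (a t : ℝ) : Dat := ⟨a ^ 2, fun j z => (3 * sA a t j z ^ 2 + qA a t j z) / 2,
  fun j z => -2 * sA a t j z * (sA a t j z ^ 2 - qA a t j z), fun _ _ => 0⟩

/-- The data of the scalar problem: `p = 2q`. -/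
def DQ (a t : ℝ) : Dat := ⟨a ^ 2, fun j z => 2 * qA a t j z, fun _ _ => 0, fun _ _ => 0⟩

/-- ETV. Validity (`a² ≥ 4`; `sA j z = z² sA (!j) z⁻¹`, `qA j z = z⁴ qA (!j) z⁻¹` for `z ≠ 0`). -/
def ETV_stmt : Prop := ∀ a t : ℝ, 2 ≤ a → (DA a t).Valid ∧ (DQ a t).Valid

/-! ## Local coordinates of the surface -/

/-- ETA. Near every point of `uZ`, in every chart, `ζ` is either a holomorphic function with values off the roots (`Y ≠ 0, ∞`; third formula of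
`eta0`, `((1+ζ⁴)Y)² = 1 - ζ⁸`), or `ζ = psi d χ` with `χ = Y` (near `Y = 0`, `d = ζ` there, `d⁴ = 1`, `ζ⁴ = mm(Y²)`) or `χ = V = 1/Y` (near `Y = ∞`, `d⁴ = -1`,
`-ζ⁴ = mm(V²)`), `d` the value of `ζ` at the point; X02: `ζ/d` is in the sector where `r4 ((ζ/d)⁴) = ζ/d`. Forms: on the neighbourhood
`eta0 = -dY/(2ζ³(1+Y²))` resp. `dV/(2ζ³(1+V²))` (all three formulas agree: differentiate `(1+ζ⁴)(1+Y²) = 2`, see X15 in
`Pool/Agent/helper52/DL/X15.lean` and X16 in `Pool/Agent/helper31/DL/X16.lean`), and `1/(4|ζ|⁶|1+χ²|²) = |ζ|²/(4|1-χ²|²)` because `|ζ|⁴ = |mm(χ²)|`. -/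
def ETA_stmt : Prop := ∀ (cs : ChartedSpace ℂ XT) (ch : Ix → OpenPartialHomeomorph XT ℂ), GoodX cs ch → HolX →
  ∀ e ∈ atlas ℂ XT, ∀ x ∈ uZ, x ∈ e.source → ∃ (N : Set ℂ) (χ : ℂ → ℂ), IsOpen N ∧ e x ∈ N ∧
  N ⊆ e.target ∩ e.symm ⁻¹' uZ ∧ DifferentiableOn ℂ χ N ∧
  ((∀ z ∈ N, χ z ∈ Ns ∧ fZ (e.symm z) = χ z ∧ ‖eta0 e (e.symm z)‖ ^ 2 = Wt 1 (χ z) * ‖deriv χ z‖ ^ 2) ∨
    ∃ d : ℂ, d ^ 8 = 1 ∧ ∀ z ∈ N, χ z ∈ Metric.ball (0 : ℂ) 1 ∧ fZ (e.symm z) = psi d (χ z) ∧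
      ‖eta0 e (e.symm z)‖ ^ 2 = Wr 1 (χ z) * ‖deriv χ z‖ ^ 2)

/-- ETB. The same for `ν = 1/ζ` on `uN`: `((1+ν⁴)Y)² = ν⁸ - 1`; near `Y = 0`: `χ = iY`, `ν⁴ = mm((iY)²)`, near `Y = ∞`: `χ = iV`, `-ν⁴ = mm((iV)²)`
(`mm(-u) = 1/mm(u)`), `d` the value of `ν` at the point; `|eta1|² = |ν|²|χ'|²/(4|1-χ²|²)` from the first two formulas of `eta1`. -/
def ETB_stmt : Prop := ∀ (cs : ChartedSpace ℂ XT) (ch : Ix → OpenPartialHomeomorph XT ℂ), GoodX cs ch → HolX →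
  ∀ e ∈ atlas ℂ XT, ∀ x ∈ uN, x ∈ e.source → ∃ (N : Set ℂ) (χ : ℂ → ℂ), IsOpen N ∧ e x ∈ N ∧
  N ⊆ e.target ∩ e.symm ⁻¹' uN ∧ DifferentiableOn ℂ χ N ∧
  ((∀ z ∈ N, χ z ∈ Ns ∧ fN (e.symm z) = χ z ∧ ‖eta1 e (e.symm z)‖ ^ 2 = Wt 1 (χ z) * ‖deriv χ z‖ ^ 2) ∨
    ∃ d : ℂ, d ^ 8 = 1 ∧ ∀ z ∈ N, χ z ∈ Metric.ball (0 : ℂ) 1 ∧ fN (e.symm z) = psi d (χ z) ∧
      ‖eta1 e (e.symm z)‖ ^ 2 = Wr 1 (χ z) * ‖deriv χ z‖ ^ 2)

/-- ETC. Transfer of Hitchin's equation (GC on the neighbourhoods of ETA, ETB; `LH` is a local property; `Wt κ = κ Wt 1`, `Wr κ = κ Wr 1`;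
`LH` only depends on the values of `A, W, H` on the open set). -/
def ETC_stmt : Prop := ∀ (cs : ChartedSpace ℂ XT) (ch : Ix → OpenPartialHomeomorph XT ℂ), GoodX cs ch → HolX →
  ∀ (n : ℕ) (κ : ℝ) (A H : ℂ → Matrix (Fin n) (Fin n) ℂ), LH n Ns A (Wt κ) H →
  (∀ d : ℂ, d ^ 8 = 1 → LH n (Metric.ball 0 1) (fun y => A (psi d y)) (Wr κ) (fun y => H (psi d y))) → ∀ e ∈ atlas ℂ XT,
  LH n (e.target ∩ e.symm ⁻¹' uZ) (fun z => A (fZ (e.symm z))) (fun z => κ * ‖eta0 e (e.symm z)‖ ^ 2)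
    (fun z => H (fZ (e.symm z))) ∧
  LH n (e.target ∩ e.symm ⁻¹' uN) (fun z => A (fN (e.symm z))) (fun z => κ * ‖eta1 e (e.symm z)‖ ^ 2)
    (fun z => H (fN (e.symm z)))

/-- ETD. The harmonic metric of the symmetric Hitchin section: `H false x = H3 (L false ζ) (b false ζ)`, `H true x = H3 (L true ν) (b true ν)` for a
solution `PS3 (DA a t) L b` (EHL on `Ns` and on the discs, EPS, ETC with `κ = a²`, EX for the Higgs field, ENA for the determinant). Gluing: with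
`g = diag(ζ²,1,ν²)`: `uu (b₀) g = g uu (b₁)` (`b₀ = ζ² b₁`), `gᴴ diag(e^{L₀},1,e^{-L₀}) g = diag(e^{L₁},1,e^{-L₁})` (`L₁ = L₀ + 4 log|ζ|`). -/
def ETD_stmt : Prop := ∀ (cs : ChartedSpace ℂ XT) (ch : Ix → OpenPartialHomeomorph XT ℂ), GoodX cs ch → HolX → (DX ch).Valid →
  ∀ a t : ℝ, 2 ≤ a → 0 < t → (∃ L b, PS3 (DA a t) L b) →
  ∃ H, SLHarm (hitS (cov (DX ch) a) (q2F (DX ch) a t) (q3F (DX ch) a t)) H

/-- ETE. The converse of HT (GE with the holomorphic gauge `uni C q₂ 1`, GA; `A_sym uni 1 = uni 1 A`). -/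
def ETE_stmt : Prop := ∀ (X : Type) [TopologicalSpace X] [ChartedSpace ℂ X] (C : Cov X) (q₂ q₃ : Fam X), C.Valid →
  IsDif Set.univ 2 q₂ → IsDif Set.univ 3 q₃ → ∀ H, SLHarm (hitS C q₂ q₃) H →
  SLHarm (hitchin3 C q₂ q₃) (fun i x => (uni C q₂ 1 i x)ᴴ * H i x * uni C q₂ 1 i x)

/-- ETF. The scalar equation (`b = r = s = 0`, `p = 2q`) is Hitchin's equation for the diagonal metric `diag(e^M, e^{-M}, 1)`, `M = (L + log 2)/2`: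
`lap M = (W/2)(e^L |2q|² - e^{-L}) = W (|q|² e^{2M} - e^{-2M})`; `[A,A*]₁₁ = |q|²e^{2M} - e^{-2M} = -[A,A*]₂₂`, the other entries vanish. -/
def ETF_stmt : Prop := ∀ (Ω : Set ℂ) (W : ℂ → ℝ) (q s : ℂ → ℂ) (L : ℂ → ℝ), IsOpen Ω → DifferentiableOn ℂ q Ω →
  DifferentiableOn ℂ s Ω → SY Ω W (fun z => 2 * q z) (fun _ => 0) (fun _ => 0) L (fun _ => 0) →
  LH 3 Ω (fun z => !![s z, q z, 0; 1, s z, 0; 0, 0, -2 * s z]) W
    (fun z => diagonal ![(Real.exp ((L z + Real.log 2) / 2) : ℂ), (Real.exp (-((L z + Real.log 2) / 2)) : ℂ), 1])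

/-- ETG. The harmonic metric of `BB` (ETF on `Ns` and on the discs, ETC, EX; gluing: `M₁ = M₀ + 2 log|ζ|`, `g = diag(ζ, ν, 1)`). -/
def ETG_stmt : Prop := ∀ (cs : ChartedSpace ℂ XT) (ch : Ix → OpenPartialHomeomorph XT ℂ), GoodX cs ch → HolX → (DX ch).Valid →
  ∀ a t : ℝ, 2 ≤ a → 0 < t → (∃ L, PS3 (DQ a t) L zf) → ∃ H, SLHarm (BB (DX ch) a t) H

end

end Pool.Agent.DL
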